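import Pool.Agent.N23.KB.GEOB

/-! Project KB (helper23): the algebra of `x⁻¹ y₁`. -/

namespace KP23
open Finset Equiv Equiv.Perm Filter Topology

theorem fourth_power {G : Type*} [Group G] (α β γ : G) (c1 : Commute α β) (c2 : Commute α γ)
    (c3 : Commute β γ) (hα : α ^ 3 = 1) (hβ : β * β = 1) (hγ : γ ^ 3 = 1) :
    (α * β * γ) ^ 4 = α * γ := by
  rw [(c2.mul_left c3).mul_pow, c1.mul_pow]
  have e1 : α ^ 4 = α := by rw [pow_succ, hα, one_mul]
  have e2 : β ^ 4 = 1 := by
    rw [show (4 : ℕ) = 2 * 2 by norm_num, pow_mul, pow_two β, hβ, one_pow]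
  have e3 : γ ^ 4 = γ := by rw [pow_succ, hγ, one_mul]
  rw [e1, e2, e3, mul_one]

section
variable {n W N : ℕ} [NeZero W] (Ex Ey : Finset (Fin n)) (emb : Fin N → ℕ)
    (hinj : Function.Injective emb) (hgood : ∀ k, good W Ex Ey (emb k))

/-- the permutation `α = x⁻¹ h⁻¹ x` fixes `e (d, k)` when `H` fixes `(d + 1, ·)`, and everything
outside the range -/
theorem alpha_fix (hW : 30 ≤ W) (x : Perm (Fin n))
    (sx : ∀ i : Fin n, i ∉ Ex ∪ Ey → (i : ℕ) + 1 < n → (x i : ℕ) = i + 1)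
    (H : Perm (ZMod W × Fin N))
    (Hsupp : ∀ (d : ZMod W) (k : Fin N), ¬ (W < 3 * d.val ∧ 3 * d.val + 3 < 2 * W) →
      H (d, k) = (d, k))
    (P : Fin n)
    (hP : ∀ (d : ZMod W) (k : Fin N), P = blockEmb Ex Ey emb hinj hgood (d, k) →
      d.val + 1 < W → H (d + 1, k) = (d + 1, k)) :
    (x⁻¹ * (embP (blockEmb Ex Ey emb hinj hgood) H)⁻¹ * x) P = P := by
  set e := blockEmb Ex Ey emb hinj hgood with he
  have key : embP e H (x P) = x P := by
    by_cases hr : x P ∈ Set.range e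
    · obtain ⟨⟨d, k⟩, hz⟩ := hr
      by_cases hd : (W < 3 * d.val ∧ 3 * d.val + 3 < 2 * W)
      · -- then `P = e (d - 1, k)`
        have hd1 : (d - 1).val = d.val - 1 := by
          have h1 : (1 : ZMod W).val = 1 := by
            have : Fact (1 < W) := ⟨by omega⟩
            exact ZMod.val_one W
          rw [ZMod.val_sub (by rw [h1]; omega), h1]
        have hPe : P = e (d - 1, k) := by
          apply x.injective
          rw [← hz, blockEmb_shift Ex Ey emb hinj hgood x sx (d - 1) k (by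
            rw [hd1]; have := ZMod.val_lt d; omega), sub_add_cancel]
        have h2 := hP (d - 1) k hPe (by rw [hd1]; have := ZMod.val_lt d; omega)
        rw [sub_add_cancel] at h2
        rw [← hz, embP_apply, h2]
      · rw [← hz, embP_apply, Hsupp d k hd]
    · exact embP_apply_of_notMem e H _ hr
  change x⁻¹ ((embP e H)⁻¹ (x P)) = P
  have : (embP e H)⁻¹ (x P) = x P := by
    rw [Perm.inv_eq_iff_eq]; exact key.symm
  rw [this]
  simp

theorem z_pow (hW : 30 ≤ W) (x y₀ : Perm (Fin n))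
    (sx : ∀ i : Fin n, i ∉ Ex ∪ Ey → (i : ℕ) + 1 < n → (x i : ℕ) = i + 1)
    (hβ : x⁻¹ * y₀ * (x⁻¹ * y₀) = 1) (hβE : ∀ i, i ∉ Ex ∪ Ey → (x⁻¹ * y₀) i = i)
    (H : Perm (ZMod W × Fin N)) (H3 : H ^ 3 = 1)
    (Hsupp : ∀ (d : ZMod W) (k : Fin N), ¬ (W < 3 * d.val ∧ 3 * d.val + 3 < 2 * W) →
      H (d, k) = (d, k))
    (Hdis : ∀ (d : ZMod W) (k : Fin N), H (d, k) ≠ (d, k) → ∀ k', H (d + 1, k') = (d + 1, k')) :
    (x⁻¹ * ((embP (blockEmb Ex Ey emb hinj hgood) H)⁻¹ * y₀ *
      embP (blockEmb Ex Ey emb hinj hgood) H)) ^ 4 =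
      x⁻¹ * (embP (blockEmb Ex Ey emb hinj hgood) H)⁻¹ * x *
        embP (blockEmb Ex Ey emb hinj hgood) H := by
  set e := blockEmb Ex Ey emb hinj hgood with he
  set h := embP e H with hh
  set α := x⁻¹ * h⁻¹ * x with hα
  set β := x⁻¹ * y₀ with hβd
  have h3 : h ^ 3 = 1 := by rw [hh, ← map_pow, H3, map_one]
  have hα3 : α ^ 3 = 1 := by
    have : α ^ 3 = x⁻¹ * (h⁻¹) ^ 3 * x := by
      rw [hα]; simp only [pow_succ, pow_zero, one_mul]; group
    rw [this, inv_pow, h3, inv_one, mul_one, inv_mul_cancel]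
  have hmemE : ∀ z, β z ≠ z → z ∉ Set.range e := by
    intro z hz hr
    obtain ⟨w, hw⟩ := hr
    apply hz
    apply hβE
    rw [← hw]
    exact blockEmb_notMem Ex Ey emb hinj hgood w
  have dαβ : Equiv.Perm.Disjoint α β := by
    intro z
    by_cases hz : β z = z
    · exact Or.inr hz
    · left
      apply alpha_fix Ex Ey emb hinj hgood hW x sx H Hsupp z
      intro d k hzk
      exact absurd ⟨(d, k), hzk.symm⟩ (hmemE z hz)
  have dβh : Equiv.Perm.Disjoint β h := by
    intro z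
    by_cases hz : β z = z
    · exact Or.inl hz
    · right
      exact embP_apply_of_notMem e H z (hmemE z hz)
  have dαh : Equiv.Perm.Disjoint α h := by
    intro z
    by_cases hz : h z = z
    · exact Or.inr hz
    · left
      have hzr : z ∈ Set.range e := by
        by_contra hr
        exact hz (embP_apply_of_notMem e H z hr)
      obtain ⟨⟨d, k⟩, rfl⟩ := hzr
      have hHd : H (d, k) ≠ (d, k) := by
        intro hc
        apply hz
        rw [hh, embP_apply, hc]
      apply alpha_fix Ex Ey emb hinj hgood hW x sx H Hsupp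
      intro d' k' hdk hd'
      have := e.injective hdk
      simp only [Prod.mk.injEq] at this
      obtain ⟨rfl, rfl⟩ := this
      exact Hdis d k hHd k
  have hz : x⁻¹ * (h⁻¹ * y₀ * h) = α * β * h := by
    rw [hα, hβd]; group
  rw [hz, fourth_power α β h dαβ.commute dαh.commute dβh.commute hα3 hβ h3]

theorem a_apply (hW : 30 ≤ W) (x : Perm (Fin n))
    (sx : ∀ i : Fin n, i ∉ Ex ∪ Ey → (i : ℕ) + 1 < n → (x i : ℕ) = i + 1)
    (H : Perm (ZMod W × Fin N))
    (Hsupp : ∀ (d : ZMod W) (k : Fin N), ¬ (W < 3 * d.val ∧ 3 * d.val + 3 < 2 * W) →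
      H (d, k) = (d, k))
    (d d' : ZMod W) (k k' : Fin N) (h1 : H (d, k) = (d', k'))
    (h2 : H (d' + 1, k') = (d' + 1, k')) :
    (x⁻¹ * (embP (blockEmb Ex Ey emb hinj hgood) H)⁻¹ * x *
        embP (blockEmb Ex Ey emb hinj hgood) H) (blockEmb Ex Ey emb hinj hgood (d, k)) =
      blockEmb Ex Ey emb hinj hgood (d', k') := by
  set e := blockEmb Ex Ey emb hinj hgood with he
  rw [Perm.mul_apply, embP_apply, h1]
  apply alpha_fix Ex Ey emb hinj hgood hW x sx H Hsupp
  intro a b hab _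
  have := e.injective hab
  simp only [Prod.mk.injEq] at this
  obtain ⟨rfl, rfl⟩ := this
  exact h2

end

end KP23
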