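import Pool.Agent.N23.KB.BMAIN2

/-! Project KB (helper23): the deterministic theorem. -/

namespace KP23
open Finset Equiv Equiv.Perm Filter Topology

theorem BMAIN (hA : ST_ALLN) (hL : ST_LOC3) (hM : ST_MERGE) (hC : ST_COVER) (hO : ST_MOD) :
    ST_BMAIN := by
  classical
  obtain ⟨W, K, A, hW, hK, hstruct⟩ := bstruct hA hL hM hC
  obtain ⟨G, hG⟩ : ∃ G, G = 20 * W := ⟨_, rfl⟩
  rw [← hG] at hstruct
  refine ⟨K, hK, ?_⟩
  filter_upwards [hO G (6 * G + 4), ev_size (5 * A + 1), eventually_ge_atTop (2 * G + 1)] with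
    n hmod hsize hnG x y hsx hsy hx hy
  obtain ⟨hsize, hm1⟩ := hsize
  obtain ⟨m, hm⟩ : ∃ m : ℝ, m = (n : ℝ) ^ (1 / 5 : ℝ) := ⟨_, rfl⟩
  rw [← hm] at hmod hsize hm1 hx hy
  -- the forbidden set for `x`
  let F₀ : Finset (Fin n) := univ.filter fun i => (i : ℕ) < G ∨ n ≤ (i : ℕ) + G
  have hF₀ : #F₀ ≤ 2 * G := by
    have h1 : F₀ ⊆ (univ.filter fun i : Fin n => (i : ℕ) < G) ∪
        (univ.filter fun i : Fin n => n ≤ (i : ℕ) + G) := by
      intro i hi
      rw [Finset.mem_filter] at hi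
      rw [Finset.mem_union, Finset.mem_filter, Finset.mem_filter]
      rcases hi.2 with h | h
      · exact Or.inl ⟨mem_univ _, h⟩
      · exact Or.inr ⟨mem_univ _, h⟩
    have h2 : #(univ.filter fun i : Fin n => (i : ℕ) < G) ≤ G := by
      calc #(univ.filter fun i : Fin n => (i : ℕ) < G)
          ≤ #(range G) := by
            apply Finset.card_le_card_of_injOn (fun i : Fin n => (i : ℕ))
            · intro i hi
              have := (Finset.mem_filter.mp hi).2
              exact Finset.mem_coe.mpr (Finset.mem_range.mpr this)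
            · intro i _ j _ h; exact Fin.ext h
        _ = G := card_range _
    have h3 : #(univ.filter fun i : Fin n => n ≤ (i : ℕ) + G) ≤ G := by
      calc #(univ.filter fun i : Fin n => n ≤ (i : ℕ) + G)
          ≤ #(range G) := by
            apply Finset.card_le_card_of_injOn (fun i : Fin n => n - 1 - (i : ℕ))
            · intro i hi
              have h4 := (Finset.mem_filter.mp hi).2
              have h5 := i.2
              apply Finset.mem_coe.mpr
              rw [Finset.mem_range]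
              change n - 1 - (i : ℕ) < G
              omega
            · intro i _ j _ h
              have h5 := i.2
              have h6 := j.2
              simp only at h
              exact Fin.ext (by omega)
        _ = G := card_range _
    calc #F₀ ≤ _ := card_le_card h1
      _ ≤ _ := card_union_le _ _
      _ ≤ 2 * G := by omega
  have hF₀' : (#F₀ : ℝ) ≤ ((6 * G + 4 : ℕ) : ℝ) * m := by
    have h1 : (#F₀ : ℝ) ≤ 2 * G := by exact_mod_cast hF₀
    have h2 : (0 : ℝ) ≤ G := by positivity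
    push_cast
    nlinarith
  obtain ⟨ζx, hζx, hcx, hFx, hEx, hwx⟩ := hmod x hx F₀ hF₀'
  -- the forbidden set for `y`
  let F₁ : Finset (Fin n) := F₀ ∪ ζx.support.biUnion fun e =>
    univ.filter fun i : Fin n => (i : ℕ) ≤ (e : ℕ) + G ∧ (e : ℕ) ≤ (i : ℕ) + G
  have hball : ∀ e : Fin n, #(univ.filter fun i : Fin n =>
      (i : ℕ) ≤ (e : ℕ) + G ∧ (e : ℕ) ≤ (i : ℕ) + G) ≤ 2 * G + 1 := by
    intro e
    calc #(univ.filter fun i : Fin n => (i : ℕ) ≤ (e : ℕ) + G ∧ (e : ℕ) ≤ (i : ℕ) + G)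
        ≤ #(range (2 * G + 1)) := by
          apply Finset.card_le_card_of_injOn (fun i : Fin n => (i : ℕ) + G - e)
          · intro i hi
            have h4 := (Finset.mem_filter.mp hi).2
            apply Finset.mem_coe.mpr
            rw [Finset.mem_range]
            change (i : ℕ) + G - e < 2 * G + 1
            omega
          · intro i hi j hj h
            have h4 := (Finset.mem_filter.mp (Finset.mem_coe.mp hi)).2
            have h5 := (Finset.mem_filter.mp (Finset.mem_coe.mp hj)).2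
            simp only at h
            exact Fin.ext (by omega)
      _ = 2 * G + 1 := card_range _
  have hF₁ : (#F₁ : ℝ) ≤ ((6 * G + 4 : ℕ) : ℝ) * m := by
    have h1 : #F₁ ≤ #F₀ + #ζx.support * (2 * G + 1) := by
      refine (card_union_le _ _).trans ?_
      gcongr
      exact card_biUnion_le_card_mul _ _ _ (fun e _ => hball e)
    have h2 : (#F₁ : ℝ) ≤ 2 * G + 2 * m * (2 * G + 1) := by
      have h3 : (#F₁ : ℝ) ≤ #F₀ + #ζx.support * (2 * G + 1) := by exact_mod_cast h1
      have h4 : (#F₀ : ℝ) ≤ 2 * G := by exact_mod_cast hF₀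
      have h5 : (0 : ℝ) ≤ 2 * G + 1 := by positivity
      nlinarith
    have h6 : (0 : ℝ) ≤ G := by positivity
    push_cast
    nlinarith
  obtain ⟨ζy, hζy, hcy, hFy, hEy, hwy⟩ := hmod y hy F₁ hF₁
  -- properties
  set Ex := ζx.support with hExd
  set Ey := ζy.support with hEyd
  have hx0 : ∀ e ∈ Ex, G ≤ (e : ℕ) ∧ (e : ℕ) + G < n := by
    intro e he
    by_contra hc
    apply Equiv.Perm.mem_support.mp he
    apply hFx
    rw [Finset.mem_filter]
    exact ⟨mem_univ _, by omega⟩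
  have hy0 : ∀ e ∈ Ey, G ≤ (e : ℕ) ∧ (e : ℕ) + G < n := by
    intro e he
    by_contra hc
    apply Equiv.Perm.mem_support.mp he
    apply hFy
    apply Finset.mem_union_left
    rw [Finset.mem_filter]
    exact ⟨mem_univ _, by omega⟩
  have hsep : ∀ e ∈ Ex, ∀ f ∈ Ey, (e : ℕ) + G < f ∨ (f : ℕ) + G < e := by
    intro e he f hf
    by_contra hc
    apply Equiv.Perm.mem_support.mp hf
    apply hFy
    apply Finset.mem_union_right
    rw [Finset.mem_biUnion]
    refine ⟨e, he, ?_⟩
    rw [Finset.mem_filter]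
    exact ⟨mem_univ _, by omega⟩
  set x₀ := finRotate n * ζx with hx₀
  set y₀ := finRotate n * ζy with hy₀
  have hsx₀ : sign x₀ = 1 := by
    obtain ⟨c, hc⟩ := isConj_iff.mp hcx
    rw [← hc, Perm.sign_mul, Perm.sign_mul, sign_inv] at hsx
    rcases Int.units_eq_one_or (sign c) with h | h <;> rw [h] at hsx <;> simpa using hsx
  have hsy₀ : sign y₀ = 1 := by
    obtain ⟨c, hc⟩ := isConj_iff.mp hcy
    rw [← hc, Perm.sign_mul, Perm.sign_mul, sign_inv] at hsy
    rcases Int.units_eq_one_or (sign c) with h | h <;> rw [h] at hsy <;> simpa using hsy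
  have sx : ∀ i : Fin n, i ∉ Ex → (i : ℕ) + 1 < n → (x₀ i : ℕ) = i + 1 := by
    intro i hi hin
    rw [hx₀, Perm.mul_apply, Equiv.Perm.notMem_support.mp hi]
    exact finRotate_val i hin
  have sy : ∀ i : Fin n, i ∉ Ey → (i : ℕ) + 1 < n → (y₀ i : ℕ) = i + 1 := by
    intro i hi hin
    rw [hy₀, Perm.mul_apply, Equiv.Perm.notMem_support.mp hi]
    exact finRotate_val i hin
  have hdisj : Equiv.Perm.Disjoint ζx ζy := by
    intro i
    by_contra hc
    rw [not_or] at hc
    have := hsep i (Equiv.Perm.mem_support.mpr hc.1) i (Equiv.Perm.mem_support.mpr hc.2)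
    omega
  have hζxi : ζx⁻¹ = ζx := by rw [inv_eq_iff_mul_eq_one]; exact hζx
  have hβ' : x₀⁻¹ * y₀ = ζx * ζy := by
    rw [hx₀, hy₀, mul_inv_rev, hζxi]
    group
  have hβ : x₀⁻¹ * y₀ * (x₀⁻¹ * y₀) = 1 := by
    rw [hβ']
    calc ζx * ζy * (ζx * ζy) = ζx * (ζy * ζx) * ζy := by group
      _ = ζx * (ζx * ζy) * ζy := by rw [hdisj.commute.eq]
      _ = (ζx * ζx) * (ζy * ζy) := by group
      _ = 1 := by rw [hζx, hζy, one_mul]
  have hβE : ∀ i, i ∉ Ex ∪ Ey → (x₀⁻¹ * y₀) i = i := by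
    intro i hi
    rw [Finset.mem_union, not_or] at hi
    rw [hβ', Perm.mul_apply, Equiv.Perm.notMem_support.mp hi.2,
      Equiv.Perm.notMem_support.mp hi.1]
  have hAn : A * (#(Ex ∪ Ey) + 1) ≤ n := by
    have h1 : (#(Ex ∪ Ey) : ℝ) ≤ 4 * m := by
      have h2 : (#(Ex ∪ Ey) : ℝ) ≤ #Ex + #Ey := by exact_mod_cast card_union_le _ _
      linarith
    have h3 : ((A * (#(Ex ∪ Ey) + 1) : ℕ) : ℝ) ≤ n := by
      push_cast
      refine le_trans ?_ hsize
      push_cast
      have hA0 : (0 : ℝ) ≤ A := by positivity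
      nlinarith
    exact_mod_cast h3
  obtain ⟨h, hKZ⟩ := hstruct n Ex Ey hAn hx0 hy0 hsep hwx hwy x₀ y₀ hsx₀ hsy₀ sx sy hβ hβE
  obtain ⟨k, hk⟩ := isConj_iff.mp hcx
  refine ⟨k * (h⁻¹ * y₀ * h) * k⁻¹, ?_, ?_⟩
  · refine hcy.symm.trans ?_
    rw [isConj_iff]
    exact ⟨k * h⁻¹, by group⟩
  · have h1 := KZ_conj hKZ k
    have h2 : (fun i => k * ![x₀, h⁻¹ * y₀ * h] i * k⁻¹) = ![x, k * (h⁻¹ * y₀ * h) * k⁻¹] := by
      funext i
      fin_cases i
      · exact hk
      · rfl
    rwa [h2] at h1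

end KP23
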