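import Pool.Agent.N23.KB.Stm
import Pool.Agent.N23.KP.INV
import Pool.Agent.N23.KP.EVI
import Pool.Agent.N23.KP.COMM

/-!
Project KB (helper23): an even permutation of at least five points is a product of three commutators
of elements of order dividing 3. Author: helper717.
-/

set_option autoImplicit false

namespace KP23
open Finset Equiv Equiv.Perm

namespace COMM3_

lemma four : (swap (0 : Fin 4) 1 * swap 0 2) ^ 3 = 1 ∧ (swap (0 : Fin 4) 1 * swap 0 3) ^ 3 = 1 ∧
    swap (0 : Fin 4) 1 * swap 2 3 = cm (swap (0 : Fin 4) 1 * swap 0 2) (swap 0 1 * swap 0 3) := by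
  unfold cm
  decide

lemma five : (swap (0 : Fin 5) 1 * swap 0 3) ^ 3 = 1 ∧ (swap (1 : Fin 5) 4 * swap 1 2) ^ 3 = 1 ∧
    swap (0 : Fin 5) 1 * swap 0 2 = cm (swap (0 : Fin 5) 1 * swap 0 3) (swap 1 4 * swap 1 2) := by
  unfold cm
  decide

lemma map_cm {G H : Type} [Group G] [Group H] (f : G →* H) (x y : G) :
    f (cm x y) = cm (f x) (f y) := by
  simp only [cm, map_mul, map_inv]

lemma embP_swap {X Y : Type} [DecidableEq X] [DecidableEq Y] (e : X ↪ Y) (i j : X) :
    embP e (swap i j) = swap (e i) (e j) := by
  ext y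
  by_cases hy : y ∈ Set.range e
  · obtain ⟨x, rfl⟩ := hy
    rw [embP_apply, ← e.injective.map_swap]
  · rw [embP_apply_of_notMem e _ y hy, swap_apply_of_ne_of_ne]
    · rintro rfl
      exact hy ⟨i, rfl⟩
    · rintro rfl
      exact hy ⟨j, rfl⟩

lemma embP_commute {X Y : Type} (e : X ↪ Y) (w : Perm X) (x : Perm Y)
    (h : ∀ i, x (e i) = e i) : Commute (embP e w) x := by
  apply Disjoint.commute
  intro y
  by_cases hy : y ∈ Set.range e
  · obtain ⟨i, rfl⟩ := hy
    exact Or.inr (h i)
  · exact Or.inl (embP_apply_of_notMem e w y hy)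

theorem EVI3_aux (X : Type) [Fintype X] [DecidableEq X] : ∀ (n : ℕ) (g : Perm X),
    #g.support ≤ n → g * g = 1 → sign g = 1 →
    ∃ x y : Perm X, x ^ 3 = 1 ∧ y ^ 3 = 1 ∧ g = cm x y ∧ ∀ z, g z = z → x z = z ∧ y z = z := by
  intro n
  induction n with
  | zero =>
    intro g hg _ _
    have h1 : g = 1 := by
      rw [← support_eq_empty_iff, ← card_eq_zero]
      omega
    subst h1
    exact ⟨1, 1, by simp, by simp, by simp [cm], fun z _ => ⟨rfl, rfl⟩⟩
  | succ n ih =>
    intro g hg hgg hs
    by_cases h1 : g = 1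
    · subst h1
      exact ⟨1, 1, by simp, by simp, by simp [cm], fun z _ => ⟨rfl, rfl⟩⟩
    have hinv : ∀ z, g (g z) = z := fun z => by
      have := congrArg (fun f : Perm X => f z) hgg
      simpa using this
    obtain ⟨a, ha⟩ : ∃ a, g a ≠ a := by
      by_contra hc
      push Not at hc
      exact h1 (Equiv.ext hc)
    set b := g a with hb
    have hgb : g b = a := hinv a
    have h2 : swap a b * g ≠ 1 := by
      intro h
      have h3 := congrArg sign h
      rw [map_mul, sign_swap (Ne.symm ha), hs, map_one] at h3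
      exact absurd h3 (by decide)
    obtain ⟨c, hc⟩ : ∃ c, (swap a b * g) c ≠ c := by
      by_contra hc
      push Not at hc
      exact h2 (Equiv.ext hc)
    rw [Perm.mul_apply] at hc
    have hca : c ≠ a := by
      rintro rfl
      apply hc
      rw [← hb, swap_apply_right]
    have hcb : c ≠ b := by
      rintro rfl
      apply hc
      rw [hgb, swap_apply_left]
    set d := g c with hd
    have hgd : g d = c := hinv c
    have hda : d ≠ a := by
      intro h
      apply hcb
      rw [hb, ← h, hgd]
    have hdb : d ≠ b := by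
      intro h
      apply hca
      rw [← hgb, ← h, hgd]
    have hdc : d ≠ c := by
      intro h
      apply hc
      rw [h, swap_apply_of_ne_of_ne hca hcb]
    -- the remaining involution
    set g2 : Perm X := swap c d * swap a b * g with hg2
    have v_a : g2 a = a := by
      rw [hg2, Perm.mul_apply, Perm.mul_apply, ← hb, swap_apply_right,
        swap_apply_of_ne_of_ne (Ne.symm hca) (Ne.symm hda)]
    have v_b : g2 b = b := by
      rw [hg2, Perm.mul_apply, Perm.mul_apply, hgb, swap_apply_left,
        swap_apply_of_ne_of_ne (Ne.symm hcb) (Ne.symm hdb)]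
    have v_c : g2 c = c := by
      rw [hg2, Perm.mul_apply, Perm.mul_apply, ← hd, swap_apply_of_ne_of_ne hda hdb,
        swap_apply_right]
    have v_d : g2 d = d := by
      rw [hg2, Perm.mul_apply, Perm.mul_apply, hgd, swap_apply_of_ne_of_ne hca hcb,
        swap_apply_left]
    have v_z : ∀ z, z ≠ a → z ≠ b → z ≠ c → z ≠ d → g2 z = g z := by
      intro z h3 h4 h5 h6
      have h7 : g z ≠ a := fun h => h4 (by rw [← hinv z, h])
      have h8 : g z ≠ b := fun h => h3 (by rw [← hinv z, h, hgb])
      have h9 : g z ≠ c := fun h => h6 (by rw [← hinv z, h])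
      have h10 : g z ≠ d := fun h => h5 (by rw [← hinv z, h, hgd])
      rw [hg2, Perm.mul_apply, Perm.mul_apply, swap_apply_of_ne_of_ne h7 h8,
        swap_apply_of_ne_of_ne h9 h10]
    have w_z : ∀ z, g z = z → g2 z = z := by
      intro z hz
      by_cases h3 : z = a
      · rw [h3, v_a]
      by_cases h4 : z = b
      · rw [h4, v_b]
      by_cases h5 : z = c
      · rw [h5, v_c]
      by_cases h6 : z = d
      · rw [h6, v_d]
      rw [v_z z h3 h4 h5 h6, hz]
    have hsup : #g2.support < #g.support := by
      apply card_lt_card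
      rw [ssubset_iff_of_subset]
      · refine ⟨a, ?_, ?_⟩
        · rw [mem_support]
          exact ha
        · rw [mem_support, not_not]
          exact v_a
      · intro z hz
        rw [mem_support] at hz ⊢
        exact fun h => hz (w_z z h)
    have hsq : g2 * g2 = 1 := by
      ext z
      rw [Perm.mul_apply, Perm.one_apply]
      by_cases h3 : z = a
      · rw [h3, v_a, v_a]
      by_cases h4 : z = b
      · rw [h4, v_b, v_b]
      by_cases h5 : z = c
      · rw [h5, v_c, v_c]
      by_cases h6 : z = d
      · rw [h6, v_d, v_d]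
      have h7 : g z ≠ a := fun h => h4 (by rw [← hinv z, h])
      have h8 : g z ≠ b := fun h => h3 (by rw [← hinv z, h, hgb])
      have h9 : g z ≠ c := fun h => h6 (by rw [← hinv z, h])
      have h10 : g z ≠ d := fun h => h5 (by rw [← hinv z, h, hgd])
      rw [v_z z h3 h4 h5 h6, v_z _ h7 h8 h9 h10, hinv]
    have hs2 : sign g2 = 1 := by
      rw [hg2, map_mul, map_mul, sign_swap (Ne.symm hdc), sign_swap (Ne.symm ha), hs]
      decide
    obtain ⟨x, y, hx, hy, hxy, hfix⟩ := ih g2 (by omega) hsq hs2
    have xa := hfix a v_a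
    have xb := hfix b v_b
    have xc := hfix c v_c
    have xd := hfix d v_d
    -- the embedding of the four points
    have hinj : Function.Injective ![a, b, c, d] := by
      intro i j hij
      fin_cases i <;> fin_cases j <;> first
        | rfl
        | exact absurd hij ha
        | exact absurd hij (Ne.symm ha)
        | exact absurd hij hca
        | exact absurd hij (Ne.symm hca)
        | exact absurd hij hcb
        | exact absurd hij (Ne.symm hcb)
        | exact absurd hij hda
        | exact absurd hij (Ne.symm hda)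
        | exact absurd hij hdb
        | exact absurd hij (Ne.symm hdb)
        | exact absurd hij hdc
        | exact absurd hij (Ne.symm hdc)
    let e : Fin 4 ↪ X := ⟨![a, b, c, d], hinj⟩
    have ex : ∀ i, x (e i) = e i := by
      intro i
      fin_cases i
      · exact xa.1
      · exact xb.1
      · exact xc.1
      · exact xd.1
    have ey : ∀ i, y (e i) = e i := by
      intro i
      fin_cases i
      · exact xa.2
      · exact xb.2
      · exact xc.2
      · exact xd.2
    obtain ⟨f1, f2, f3⟩ := four
    set s : Perm (Fin 4) := swap 0 1 * swap 0 2 with hsdef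
    set t : Perm (Fin 4) := swap 0 1 * swap 0 3 with htdef
    have c1 := embP_commute e s x ex
    have c2 := embP_commute e s y ey
    have c3 := embP_commute e t x ex
    have c4 := embP_commute e t y ey
    have hcm : cm (embP e s) (embP e t) = swap a b * swap c d := by
      rw [← map_cm, ← f3, map_mul, embP_swap, embP_swap]
      rfl
    refine ⟨embP e s * x, embP e t * y, ?_, ?_, ?_, ?_⟩
    · rw [c1.mul_pow, hx, ← map_pow, f1, map_one, one_mul]
    · rw [c4.mul_pow, hy, ← map_pow, f2, map_one, one_mul]
    · rw [EVI_cm c1 c2 c3 c4, ← hxy, hcm, hg2]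
      rw [mul_assoc (swap c d), mul_assoc (swap a b), ← mul_assoc (swap c d) (swap c d),
        swap_mul_self, one_mul, ← mul_assoc, swap_mul_self, one_mul]
    · intro z hz
      have za : z ≠ a := fun h => ha (by rw [hb, ← h, hz])
      have zb : z ≠ b := by
        intro h
        apply za
        rw [← hgb, ← h, hz]
      have zc : z ≠ c := by
        intro h
        apply hdc
        rw [hd, ← h, hz]
      have zd : z ≠ d := by
        intro h
        apply zc
        rw [← hgd, ← h, hz]
      have hne : z ∉ Set.range e := by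
        rintro ⟨i, hi⟩
        fin_cases i
        · exact za hi.symm
        · exact zb hi.symm
        · exact zc hi.symm
        · exact zd hi.symm
      obtain ⟨h3, h4⟩ := hfix z (w_z z hz)
      constructor
      · rw [Perm.mul_apply, h3, embP_apply_of_notMem e s z hne]
      · rw [Perm.mul_apply, h4, embP_apply_of_notMem e t z hne]

variable {X : Type} [Fintype X] [DecidableEq X]

lemma evi3 (g : Perm X) (hg : g * g = 1) (hs : sign g = 1) :
    ∃ x y : Perm X, x ^ 3 = 1 ∧ y ^ 3 = 1 ∧ g = cm x y := by
  obtain ⟨x, y, hx, hy, h, -⟩ := EVI3_aux X _ g le_rfl hg hs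
  exact ⟨x, y, hx, hy, h⟩

/-- a 3-cycle -/
lemma cyc3 (hX : 5 ≤ Fintype.card X) {p q r : X} (hpq : p ≠ q) (hpr : p ≠ r) (hqr : q ≠ r) :
    ∃ x y : Perm X, x ^ 3 = 1 ∧ y ^ 3 = 1 ∧ swap p q * swap p r = cm x y := by
  have h3 : ({p, q, r} : Finset X).card ≤ 3 := card_le_three
  obtain ⟨u, hu⟩ : ∃ u, u ∉ ({p, q, r} : Finset X) := by
    by_contra hc
    push Not at hc
    have := Finset.card_le_card (s := univ) (t := ({p, q, r} : Finset X)) (fun x _ => hc x)
    rw [Finset.card_univ] at this
    omega
  have h4 : (insert u ({p, q, r} : Finset X)).card ≤ 4 := (Finset.card_insert_le _ _).trans (by omega)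
  obtain ⟨w, hw⟩ : ∃ w, w ∉ insert u ({p, q, r} : Finset X) := by
    by_contra hc
    push Not at hc
    have := Finset.card_le_card (s := univ) (t := insert u ({p, q, r} : Finset X)) (fun x _ => hc x)
    rw [Finset.card_univ] at this
    omega
  simp only [mem_insert, mem_singleton, not_or] at hu hw
  obtain ⟨u1, u2, u3⟩ := hu
  obtain ⟨w0, w1, w2, w3⟩ := hw
  have hinj : Function.Injective ![p, q, r, u, w] := by
    intro i j hij
    fin_cases i <;> fin_cases j <;> first
      | rfl
      | exact absurd hij hpq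
      | exact absurd hij (Ne.symm hpq)
      | exact absurd hij hpr
      | exact absurd hij (Ne.symm hpr)
      | exact absurd hij hqr
      | exact absurd hij (Ne.symm hqr)
      | exact absurd hij u1
      | exact absurd hij (Ne.symm u1)
      | exact absurd hij u2
      | exact absurd hij (Ne.symm u2)
      | exact absurd hij u3
      | exact absurd hij (Ne.symm u3)
      | exact absurd hij w0
      | exact absurd hij (Ne.symm w0)
      | exact absurd hij w1
      | exact absurd hij (Ne.symm w1)
      | exact absurd hij w2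
      | exact absurd hij (Ne.symm w2)
      | exact absurd hij w3
      | exact absurd hij (Ne.symm w3)
  let e : Fin 5 ↪ X := ⟨![p, q, r, u, w], hinj⟩
  obtain ⟨f1, f2, f3⟩ := five
  refine ⟨embP e (swap 0 1 * swap 0 3), embP e (swap 1 4 * swap 1 2), ?_, ?_, ?_⟩
  · rw [← map_pow, f1, map_one]
  · rw [← map_pow, f2, map_one]
  · rw [← map_cm, ← f3, map_mul, embP_swap, embP_swap]
    rfl

lemma mid3 (hX : 5 ≤ Fintype.card X) {a b c d : X} (hab : a ≠ b) (hcd : c ≠ d) :
    ∃ x y : Perm X, x ^ 3 = 1 ∧ y ^ 3 = 1 ∧ swap a b * swap c d = cm x y := by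
  by_cases hz : (swap a b * swap c d : Perm X) * (swap a b * swap c d) = 1
  · refine evi3 _ hz ?_
    rw [Perm.sign_mul, sign_swap hab, sign_swap hcd]
    rfl
  · have key : ∀ p q r : X, swap a b * swap c d = swap p q * swap p r → p ≠ q → p ≠ r →
        ∃ x y : Perm X, x ^ 3 = 1 ∧ y ^ 3 = 1 ∧ swap a b * swap c d = cm x y := by
      intro p q r h hpq hpr
      rw [h]
      apply cyc3 hX hpq hpr
      rintro rfl
      apply hz
      rw [h, swap_mul_self, one_mul]
    by_cases h1 : a = c
    · subst h1
      exact key a b d rfl hab hcd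
    by_cases h2 : a = d
    · subst h2
      exact key a b c (by rw [swap_comm c a]) hab h1
    by_cases h4 : b = c
    · subst h4
      exact key b a d (by rw [swap_comm a b]) (Ne.symm hab) hcd
    by_cases h5 : b = d
    · subst h5
      exact key b a c (by rw [swap_comm a b, swap_comm c b]) (Ne.symm hab) h4
    exact absurd (COMM_.disj h1 h2 h4 h5) hz

end COMM3_

open COMM3_ in
theorem COMM3 : ST_COMM3 := by
  intro X _ _ g hX hg
  obtain ⟨s, t, hs, ht, rfl⟩ := INV X g
  rw [Perm.sign_mul] at hg
  have hst : sign t = sign s := by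
    have := eq_inv_of_mul_eq_one_right hg
    rw [this, Int.units_inv_eq_self]
  rcases Int.units_eq_one_or (sign s) with h | h
  · obtain ⟨x1, y1, a1, b1, c1⟩ := evi3 s hs h
    obtain ⟨x2, y2, a2, b2, c2⟩ := evi3 t ht (hst.trans h)
    refine ⟨![x1, 1, x2], ![y1, 1, y2], ?_, ?_⟩
    · intro k
      fin_cases k
      · exact ⟨a1, b1⟩
      · exact ⟨one_pow 3, one_pow 3⟩
      · exact ⟨a2, b2⟩
    · show s * t = cm x1 y1 * cm 1 1 * cm x2 y2
      rw [← c1, ← c2]
      simp [cm]
  · obtain ⟨a, b, s', hab, hs', es, ess, -⟩ := COMM_.split hs h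
    obtain ⟨c, d, t', hcd, ht', et, -, ett⟩ := COMM_.split ht (hst.trans h)
    obtain ⟨x1, y1, a1, b1, c1⟩ := evi3 s' hs' es
    obtain ⟨x2, y2, a2, b2, c2⟩ := evi3 t' ht' et
    obtain ⟨x3, y3, a3, b3, c3⟩ := mid3 hX hab hcd
    refine ⟨![x1, x3, x2], ![y1, y3, y2], ?_, ?_⟩
    · intro k
      fin_cases k
      · exact ⟨a1, b1⟩
      · exact ⟨a3, b3⟩
      · exact ⟨a2, b2⟩
    · show s * t = cm x1 y1 * cm x3 y3 * cm x2 y2
      rw [← c1, ← c2, ← c3]
      calc s * t = (s' * swap a b) * (swap c d * t') := by rw [← ess, ← ett]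
        _ = s' * (swap a b * swap c d) * t' := by group

end KP23
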