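import Pool.Agent.N23.KB.Stm

/-!
Project KB (helper23), MP_75608d_al: from `Alt(Γ)` to `Alt(X)` (helper414).
-/

namespace KP23
open Finset Equiv Equiv.Perm

section
variable {X : Type} [Fintype X] [DecidableEq X] {E : Type} [NormedAddCommGroup E]
  [InnerProductSpace ℝ E] {ρ : Perm X →* (E ≃ₗᵢ[ℝ] E)} {v : E}

/-- conjugation by a permutation of small displacement -/
theorem COVER_conj {Γ : Finset X} {k k' : ℝ} (h : NIon ρ v Γ k) (a : Perm X)
    (ha : ‖ρ a v - v‖ ≤ k') : NIon ρ v (Γ.map a.toEmbedding) (k + 2 * k') := by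
  intro g hg hg'
  have h1 : ‖ρ (a⁻¹ * g * a) v - v‖ ≤ k := by
    apply h
    · rw [Perm.sign_mul, Perm.sign_mul, hg, Perm.sign_inv, mul_one, Int.units_mul_self]
    · intro z hz
      have h2 : a z ∉ Γ.map a.toEmbedding := by
        rw [mem_map]
        rintro ⟨w, hw, hw'⟩
        have : w = z := a.injective hw'
        exact hz (this ▸ hw)
      rw [Perm.mul_apply, Perm.mul_apply, hg' _ h2]
      exact a.symm_apply_apply z
  have h2 := disp_conj' ρ v (a⁻¹ * g * a) a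
  have h3 : a * (a⁻¹ * g * a) * a⁻¹ = g := by group
  rw [h3] at h2
  linarith

/-- the union of many large sets -/
theorem COVER_union (hE : ST_EXT) {Γ Θ : Finset X} (hΓ : 3 * #Γᶜ + 2 ≤ Fintype.card X)
    (hΘ : Γ ⊆ Θ) {k c : ℝ} (hck : c ≤ k) (hk : 0 ≤ k) (hN : NIon ρ v Θ k) (S : ℕ → Finset X)
    (m : ℕ) (hS : ∀ i < m, NIon ρ v (S i) c ∧ #(S i)ᶜ ≤ #Γᶜ) :
    NIon ρ v (Θ ∪ (range m).biUnion S) (3 ^ m * k) := by
  induction m with
  | zero =>
    simp only [range_zero, biUnion_empty, union_empty, pow_zero, one_mul]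
    exact hN
  | succ m ih =>
    have ih' := ih fun i hi => hS i (by omega)
    obtain ⟨hm, hm'⟩ := hS m (by omega)
    set Δ₁ := Θ ∪ (range m).biUnion S with hΔ₁
    have hΓΔ : Γ ⊆ Δ₁ := hΘ.trans subset_union_left
    have h1 : #(S m \ Δ₁) ≤ #Γᶜ := by
      apply card_le_card
      intro z hz
      rw [mem_sdiff] at hz
      rw [mem_compl]
      exact fun h => hz.2 (hΓΔ h)
    have h2 : #(Δ₁ ∩ S m)ᶜ ≤ #Γᶜ + #Γᶜ := by
      rw [compl_inter]
      refine (card_union_le _ _).trans (add_le_add ?_ hm')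
      exact card_le_card (compl_subset_compl.2 hΓΔ)
    have h3 : #(Δ₁ ∩ S m) + #(Δ₁ ∩ S m)ᶜ = Fintype.card X := card_add_card_compl _
    have h4 := hE X Δ₁ (S m) (by omega) E ρ v (3 ^ m * k) c ih' hm
    have h5 : Θ ∪ (range (m + 1)).biUnion S = Δ₁ ∪ S m := by
      rw [range_add_one, biUnion_insert, hΔ₁, union_comm (S m), union_assoc]
    rw [h5]
    intro g hg hg'
    refine (h4 g hg hg').trans ?_
    have h6 : k ≤ 3 ^ m * k := by
      have : (1 : ℝ) ≤ 3 ^ m := one_le_pow₀ (by norm_num)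
      nlinarith
    rw [pow_succ]
    linarith

end

theorem COVER (hE : ST_EXT) : ST_COVER := by
  intro J
  refine ⟨3 ^ (J + 1) * (3 ^ (J + 1) * (1 + 2 * J)), by positivity, ?_⟩
  intro X _ _ x y Γ hΓ hcov E _ _ ρ v η hx hy hN g hg
  have hη : 0 ≤ η := (norm_nonneg _).trans hx
  have hc : ∀ a : Perm X, ‖ρ a v - v‖ ≤ η → ∀ i < J + 1,
      NIon ρ v (Γ.map (a ^ i).toEmbedding) ((1 + 2 * J) * η) ∧
        #(Γ.map (a ^ i).toEmbedding)ᶜ ≤ #Γᶜ := by
    intro a ha i hi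
    constructor
    · have h1 : ‖ρ (a ^ i) v - v‖ ≤ J * η := by
        refine (disp_pow ρ v a i).trans ?_
        have h2 : (i : ℝ) ≤ J := by exact_mod_cast Nat.lt_succ_iff.1 hi
        exact mul_le_mul h2 ha (norm_nonneg _) (Nat.cast_nonneg _)
      have h3 := COVER_conj hN (a ^ i) h1
      have h4 : η + 2 * (J * η) = (1 + 2 * J) * η := by ring
      rw [h4] at h3
      exact h3
    · rw [card_compl, card_compl, card_map]
  have hNΓ : NIon ρ v Γ ((1 + 2 * J) * η) := by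
    intro g hg hg'
    refine (hN g hg hg').trans ?_
    have : (0 : ℝ) ≤ J * η := mul_nonneg (Nat.cast_nonneg _) hη
    nlinarith
  have hk : 0 ≤ (1 + 2 * (J : ℝ)) * η := mul_nonneg (by positivity) hη
  have h1 := COVER_union hE hΓ (subset_refl Γ) le_rfl hk hNΓ
    (fun i => Γ.map (x ^ i).toEmbedding) (J + 1) (hc x hx)
  have h1' : (1 + 2 * (J : ℝ)) * η ≤ 3 ^ (J + 1) * ((1 + 2 * J) * η) := by
    have : (1 : ℝ) ≤ 3 ^ (J + 1) := one_le_pow₀ (by norm_num)
    nlinarith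
  have h2 := COVER_union hE hΓ (Γ := Γ) subset_union_left h1' (hk.trans h1') h1
    (fun i => Γ.map (y ^ i).toEmbedding) (J + 1) (hc y hy)
  have h3 := h2 g hg ?_
  · refine h3.trans (le_of_eq ?_)
    ring
  · intro z hz
    exfalso
    apply hz
    by_cases hzΓ : z ∈ Γ
    · exact mem_union_left _ (mem_union_left _ hzΓ)
    · obtain ⟨j, hj, hj'⟩ := hcov z hzΓ
      rcases hj' with ⟨w, hw, hw'⟩ | ⟨w, hw, hw'⟩
      · refine mem_union_left _ (mem_union_right _ ?_)
        rw [mem_biUnion]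
        exact ⟨j, mem_range.2 (by omega), mem_map.2 ⟨w, hw, hw'⟩⟩
      · refine mem_union_right _ ?_
        rw [mem_biUnion]
        exact ⟨j, mem_range.2 (by omega), mem_map.2 ⟨w, hw, hw'⟩⟩

end KP23
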