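import Pool.Agent.N23.KB.Stm

/-!
Project KB: almost all permutations have few cycles.
-/

namespace KP23

open Finset Equiv Equiv.Perm Filter Topology

namespace CYCAux

/-- the sets which are invariant under `x` -/
def inv {n : ℕ} (x : Perm (Fin n)) : Finset (Finset (Fin n)) :=
  univ.filter fun S => ∀ a, x a ∈ S ↔ a ∈ S

/-- the union of some of the cycles -/
def uni {n : ℕ} (x : Perm (Fin n)) (U : Finset (Perm (Fin n)) × Finset (Fin n)) :
    Finset (Fin n) :=
  univ.filter fun a => a ∈ U.2 ∨ x.cycleOf a ∈ U.1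

lemma one_notMem {n : ℕ} (x : Perm (Fin n)) : (1 : Perm (Fin n)) ∉ x.cycleFactorsFinset := by
  intro h
  exact (mem_cycleFactorsFinset_iff.1 h).1.ne_one rfl

lemma two_pow_le {n : ℕ} (x : Perm (Fin n)) : 2 ^ cyc x ≤ #(inv x) := by
  have h1 : #(x.cycleFactorsFinset.powerset ×ˢ (x.supportᶜ).powerset) = 2 ^ cyc x := by
    rw [card_product, card_powerset, card_powerset, card_compl, Fintype.card_fin, ← pow_add]
    unfold cyc
    have h2 : x.cycleType.card = #x.cycleFactorsFinset := by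
      unfold cycleType
      rw [Multiset.card_map]
      rfl
    rw [h2, add_comm]
  rw [← h1]
  refine card_le_card_of_injOn (uni x) ?_ ?_
  · intro U hU
    have hU' := mem_product.1 (Finset.mem_coe.1 hU)
    rw [mem_powerset, mem_powerset] at hU'
    rw [Finset.mem_coe]
    unfold inv
    rw [mem_filter]
    refine ⟨mem_univ _, fun a => ?_⟩
    unfold uni
    rw [mem_filter, mem_filter]
    simp only [mem_univ, true_and]
    rw [cycleOf_self_apply]
    have h3 : x a ∈ U.2 ↔ a ∈ U.2 := by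
      constructor
      · intro h
        have h4 := hU'.2 h
        rw [mem_compl, apply_mem_support, notMem_support] at h4
        rwa [h4] at h
      · intro h
        have h4 := hU'.2 h
        rw [mem_compl, notMem_support] at h4
        rwa [h4]
    rw [h3]
  · intro U hU V hV hUV
    have hU' := mem_product.1 (Finset.mem_coe.1 hU)
    rw [mem_powerset, mem_powerset] at hU'
    have hV' := mem_product.1 (Finset.mem_coe.1 hV)
    rw [mem_powerset, mem_powerset] at hV'
    have key : ∀ a, (a ∈ U.2 ∨ x.cycleOf a ∈ U.1) ↔ (a ∈ V.2 ∨ x.cycleOf a ∈ V.1) := by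
      intro a
      have h1 : a ∈ uni x U ↔ a ∈ uni x V := by rw [hUV]
      unfold uni at h1
      rw [mem_filter, mem_filter] at h1
      simpa using h1
    have hfix : ∀ W : Finset (Perm (Fin n)) × Finset (Fin n), W.1 ⊆ x.cycleFactorsFinset →
        W.2 ⊆ x.supportᶜ → ∀ a, a ∉ x.support → ((a ∈ W.2 ∨ x.cycleOf a ∈ W.1) ↔ a ∈ W.2) := by
      intro W h1 h2 a ha
      have h3 : x.cycleOf a = 1 := by
        rw [cycleOf_eq_one_iff]
        exact notMem_support.1 ha
      rw [h3]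
      constructor
      · rintro (h | h)
        · exact h
        · exact absurd (h1 h) (one_notMem x)
      · exact Or.inl
    have hsup : ∀ W : Finset (Perm (Fin n)) × Finset (Fin n), W.1 ⊆ x.cycleFactorsFinset →
        W.2 ⊆ x.supportᶜ → ∀ a, a ∈ x.support →
        ((a ∈ W.2 ∨ x.cycleOf a ∈ W.1) ↔ x.cycleOf a ∈ W.1) := by
      intro W h1 h2 a ha
      constructor
      · rintro (h | h)
        · exact absurd ha (mem_compl.1 (h2 h))
        · exact h
      · exact Or.inr
    apply Prod.ext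
    · ext c
      have hc : ∀ W : Finset (Perm (Fin n)) × Finset (Fin n), W.1 ⊆ x.cycleFactorsFinset →
          W.2 ⊆ x.supportᶜ → c ∈ x.cycleFactorsFinset → ∀ a ∈ c.support,
          ((a ∈ W.2 ∨ x.cycleOf a ∈ W.1) ↔ c ∈ W.1) := by
        intro W h1 h2 h3 a ha
        rw [hsup W h1 h2 a (mem_cycleFactorsFinset_support_le h3 ha),
          ← cycle_is_cycleOf ha h3]
      by_cases hcx : c ∈ x.cycleFactorsFinset
      · obtain ⟨a, ha⟩ := (mem_cycleFactorsFinset_iff.1 hcx).1.nonempty_support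
        rw [← hc U hU'.1 hU'.2 hcx a ha, ← hc V hV'.1 hV'.2 hcx a ha]
        exact key a
      · exact ⟨fun h => absurd (hU'.1 h) hcx, fun h => absurd (hV'.1 h) hcx⟩
    · ext a
      by_cases ha : a ∈ x.support
      · exact ⟨fun h => absurd ha (mem_compl.1 (hU'.2 h)),
          fun h => absurd ha (mem_compl.1 (hV'.2 h))⟩
      · rw [← hfix U hU'.1 hU'.2 a ha, ← hfix V hV'.1 hV'.2 a ha]
        exact key a

lemma card_stab {n : ℕ} (S : Finset (Fin n)) :
    #(univ.filter fun x : Perm (Fin n) => ∀ a, x a ∈ S ↔ a ∈ S) =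
      (#S).factorial * (n - #S).factorial := by
  have h1 := DomMulAct.stabilizer_card (fun a : Fin n => decide (a ∈ S))
  rw [Fintype.univ_bool, Finset.prod_pair (by decide)] at h1
  have h2 : Fintype.card {a : Fin n // decide (a ∈ S) = true} = #S := by
    rw [Fintype.card_subtype]
    congr 1
    ext a
    simp
  have h3 : Fintype.card {a : Fin n // decide (a ∈ S) = false} = n - #S := by
    rw [Fintype.card_subtype]
    have : (univ.filter fun a : Fin n => decide (a ∈ S) = false) = Sᶜ := by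
      ext a
      simp
    rw [this, card_compl, Fintype.card_fin]
  rw [h2, h3] at h1
  rw [← h1, Fintype.card_subtype]
  congr 1
  ext x
  simp only [mem_filter, mem_univ, true_and]
  rw [funext_iff]
  refine forall_congr' fun a => ?_
  simp only [Function.comp_apply, decide_eq_decide]

lemma sum_two_pow (n : ℕ) : ∑ x : Perm (Fin n), 2 ^ cyc x ≤ (n + 1).factorial := by
  calc ∑ x : Perm (Fin n), 2 ^ cyc x ≤ ∑ x : Perm (Fin n), #(inv x) :=
        sum_le_sum fun x _ => two_pow_le x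
    _ = ∑ x : Perm (Fin n), ∑ S : Finset (Fin n), if (∀ a, x a ∈ S ↔ a ∈ S) then 1 else 0 := by
        refine sum_congr rfl fun x _ => ?_
        unfold inv
        rw [card_filter]
    _ = ∑ S : Finset (Fin n), ∑ x : Perm (Fin n), if (∀ a, x a ∈ S ↔ a ∈ S) then 1 else 0 :=
        sum_comm
    _ = ∑ S : Finset (Fin n), (#S).factorial * (n - #S).factorial := by
        refine sum_congr rfl fun S _ => ?_
        rw [← card_stab, card_filter]
    _ = ∑ S ∈ (univ : Finset (Fin n)).powerset, (#S).factorial * (n - #S).factorial := by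
        rw [powerset_univ]
    _ = ∑ m ∈ range (n + 1), n.choose m * (m.factorial * (n - m).factorial) := by
        rw [sum_powerset_apply_card (fun m => m.factorial * (n - m).factorial), card_univ,
          Fintype.card_fin]
        rfl
    _ = ∑ m ∈ range (n + 1), n.factorial := by
        refine sum_congr rfl fun m hm => ?_
        rw [mem_range] at hm
        rw [← mul_assoc]
        exact Nat.choose_mul_factorial_mul_factorial (by omega)
    _ = (n + 1).factorial := by
        rw [sum_const, card_range, Nat.factorial_succ, smul_eq_mul]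
    _ ≤ _ := le_rfl

lemma asymp : ∀ᶠ n : ℕ in atTop,
    2 * ((n : ℝ) + 1) * (2 : ℝ) ^ ((n : ℝ) ^ (1 / 6 : ℝ)) ≤ (2 : ℝ) ^ ((n : ℝ) ^ (1 / 5 : ℝ)) := by
  have hL : 0 < Real.log 2 := Real.log_pos one_lt_two
  have e1 : ∀ᶠ x : ℝ in atTop, Real.log x ≤ Real.log 2 / 8 * x ^ (1 / 5 : ℝ) := by
    have h := (isLittleO_log_rpow_atTop (by norm_num : (0 : ℝ) < 1 / 5)).bound
      (by positivity : 0 < Real.log 2 / 8)
    filter_upwards [h, eventually_gt_atTop 0] with x hx h0
    have h1 : 0 ≤ x ^ (1 / 5 : ℝ) := Real.rpow_nonneg h0.le _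
    rw [Real.norm_eq_abs, Real.norm_eq_abs, abs_of_nonneg h1] at hx
    exact (le_abs_self _).trans hx
  have e2 : ∀ᶠ x : ℝ in atTop, Real.log 4 ≤ Real.log 2 / 8 * x ^ (1 / 5 : ℝ) := by
    have h := (tendsto_rpow_atTop (by norm_num : (0 : ℝ) < 1 / 5)).eventually_ge_atTop
      (Real.log 4 / (Real.log 2 / 8))
    filter_upwards [h] with x hx
    rw [div_le_iff₀ (by positivity)] at hx
    linarith
  have e3 : ∀ᶠ x : ℝ in atTop, x ^ (1 / 6 : ℝ) ≤ 1 / 2 * x ^ (1 / 5 : ℝ) := by
    have h := (tendsto_rpow_atTop (by norm_num : (0 : ℝ) < 1 / 30)).eventually_ge_atTop 2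
    filter_upwards [h, eventually_gt_atTop 0] with x hx h0
    have h1 : x ^ (1 / 5 : ℝ) = x ^ (1 / 6 : ℝ) * x ^ (1 / 30 : ℝ) := by
      rw [← Real.rpow_add h0]
      norm_num
    have h2 : 0 ≤ x ^ (1 / 6 : ℝ) := Real.rpow_nonneg h0.le _
    rw [h1]
    nlinarith
  have hnat := tendsto_natCast_atTop_atTop (R := ℝ)
  filter_upwards [hnat.eventually e1, hnat.eventually e2, hnat.eventually e3,
    eventually_ge_atTop 1] with n h1 h2 h3 h4
  have hn : (1 : ℝ) ≤ n := by exact_mod_cast h4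
  have h5 : 0 ≤ (n : ℝ) ^ (1 / 5 : ℝ) := Real.rpow_nonneg (by linarith) _
  have h6 : 2 * ((n : ℝ) + 1) ≤ Real.exp (Real.log 4 + Real.log n) := by
    rw [Real.exp_add, Real.exp_log (by norm_num), Real.exp_log (by linarith)]
    linarith
  rw [Real.rpow_def_of_pos two_pos, Real.rpow_def_of_pos two_pos]
  calc 2 * ((n : ℝ) + 1) * Real.exp (Real.log 2 * (n : ℝ) ^ (1 / 6 : ℝ))
      ≤ Real.exp (Real.log 4 + Real.log n) * Real.exp (Real.log 2 * (n : ℝ) ^ (1 / 6 : ℝ)) := by
        gcongr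
    _ = Real.exp (Real.log 4 + Real.log n + Real.log 2 * (n : ℝ) ^ (1 / 6 : ℝ)) := by
        rw [← Real.exp_add]
    _ ≤ _ := by
        apply Real.exp_le_exp.2
        nlinarith [mul_le_mul_of_nonneg_left h3 hL.le, mul_nonneg hL.le h5]

end CYCAux

open CYCAux in
theorem CYC : ST_CYC := by
  unfold ST_CYC
  filter_upwards [asymp, eventually_ge_atTop 2] with n hn hn2
  set B := univ.filter fun x : alternatingGroup (Fin n) =>
      (n : ℝ) ^ (1 / 5 : ℝ) < cyc (x : Perm (Fin n)) with hB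
  have : Nontrivial (Fin n) := Fin.nontrivial_iff_two_le.2 hn2
  have hA : 2 * Fintype.card (alternatingGroup (Fin n)) = n.factorial := by
    rw [two_mul_card_alternatingGroup, Fintype.card_perm, Fintype.card_fin]
  have h1 : (#B : ℝ) * (2 : ℝ) ^ ((n : ℝ) ^ (1 / 5 : ℝ)) ≤ ((n + 1).factorial : ℕ) := by
    calc (#B : ℝ) * (2 : ℝ) ^ ((n : ℝ) ^ (1 / 5 : ℝ)) =
          ∑ x ∈ B, (2 : ℝ) ^ ((n : ℝ) ^ (1 / 5 : ℝ)) := by
          rw [sum_const, nsmul_eq_mul]
      _ ≤ ∑ x ∈ B, (2 : ℝ) ^ cyc (x : Perm (Fin n)) := by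
          refine sum_le_sum fun x hx => ?_
          rw [hB, mem_filter] at hx
          rw [← Real.rpow_natCast]
          exact Real.rpow_le_rpow_of_exponent_le one_le_two hx.2.le
      _ ≤ ∑ x : alternatingGroup (Fin n), (2 : ℝ) ^ cyc (x : Perm (Fin n)) :=
          sum_le_sum_of_subset_of_nonneg (subset_univ _) fun x _ _ => by positivity
      _ = ∑ x ∈ (univ : Finset (alternatingGroup (Fin n))).map
            ⟨fun x : alternatingGroup (Fin n) => (x : Perm (Fin n)), Subtype.val_injective⟩,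
            (2 : ℝ) ^ cyc x := by
          rw [sum_map]
          rfl
      _ ≤ ∑ x : Perm (Fin n), (2 : ℝ) ^ cyc x :=
          sum_le_sum_of_subset_of_nonneg (subset_univ _) fun x _ _ => by positivity
      _ = ((∑ x : Perm (Fin n), 2 ^ cyc x : ℕ) : ℝ) := by push_cast; rfl
      _ ≤ _ := by exact_mod_cast sum_two_pow n
  have h2 : ((n + 1).factorial : ℝ) =
      2 * ((n : ℝ) + 1) * Fintype.card (alternatingGroup (Fin n)) := by
    rw [Nat.factorial_succ, ← hA]
    push_cast
    ring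
  have hp5 : 0 < (2 : ℝ) ^ ((n : ℝ) ^ (1 / 5 : ℝ)) := Real.rpow_pos_of_pos two_pos _
  have hp6 : 0 < (2 : ℝ) ^ ((n : ℝ) ^ (1 / 6 : ℝ)) := Real.rpow_pos_of_pos two_pos _
  have h3 : ((1 : ℝ) / 2) ^ ((n : ℝ) ^ (1 / 6 : ℝ)) = 1 / (2 : ℝ) ^ ((n : ℝ) ^ (1 / 6 : ℝ)) := by
    rw [Real.div_rpow zero_le_one two_pos.le, Real.one_rpow]
  rw [h3, mul_one_div, le_div_iff₀ hp6]
  have h4 : (#B : ℝ) * (2 : ℝ) ^ ((n : ℝ) ^ (1 / 5 : ℝ)) ≤
      2 * ((n : ℝ) + 1) * Fintype.card (alternatingGroup (Fin n)) := by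
    rw [← h2]
    exact_mod_cast h1
  have h5 : (#B : ℝ) * (2 : ℝ) ^ ((n : ℝ) ^ (1 / 6 : ℝ)) * (2 * ((n : ℝ) + 1)) ≤
      Fintype.card (alternatingGroup (Fin n)) * (2 * ((n : ℝ) + 1)) := by
    calc (#B : ℝ) * (2 : ℝ) ^ ((n : ℝ) ^ (1 / 6 : ℝ)) * (2 * ((n : ℝ) + 1)) =
          (#B : ℝ) * (2 * ((n : ℝ) + 1) * (2 : ℝ) ^ ((n : ℝ) ^ (1 / 6 : ℝ))) := by ring
      _ ≤ (#B : ℝ) * (2 : ℝ) ^ ((n : ℝ) ^ (1 / 5 : ℝ)) := by gcongr
      _ ≤ _ := h4
      _ = _ := by ring
  exact le_of_mul_le_mul_right h5 (by positivity)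

end KP23
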