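import Pool.Agent.N23.KB.Stm

/-!
Project KB (helper23), LOC3: localization in a window (helper271)
-/

namespace KP23
open Finset Equiv Equiv.Perm

noncomputable section

lemma pai {α : Type} (f : Perm α) (x : α) : f (f⁻¹ x) = x := f.apply_symm_apply x
lemma pia {α : Type} (f : Perm α) (x : α) : f⁻¹ (f x) = x := f.symm_apply_apply x

section window

variable {W : ℕ} [NeZero W] {B X : Type}

/-- the point number `k` of the block number `p` -/
def wpt (e : (ZMod W × B) ↪ X) (p : ℤ) (k : B) : X := e ((p : ZMod W), k)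

lemma wval {p : ℤ} (h0 : 0 ≤ p) (h1 : p < W) : (((p : ZMod W)).val : ℤ) = p := by
  rw [ZMod.val_intCast, Int.emod_eq_of_lt h0 h1]

lemma wcast_val (d : ZMod W) : (((d.val : ℕ) : ℤ) : ZMod W) = d := by
  push_cast
  exact ZMod.natCast_zmod_val d

lemma wpt_val (e : (ZMod W × B) ↪ X) (d : ZMod W) (k : B) : wpt e (d.val : ℤ) k = e (d, k) := by
  unfold wpt; rw [wcast_val]

lemma wpt_inj (e : (ZMod W × B) ↪ X) {p q : ℤ} {k l : B} (h0 : 0 ≤ p) (h1 : p < W) (g0 : 0 ≤ q)
    (g1 : q < W) (h : wpt e p k = wpt e q l) : p = q ∧ k = l := by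
  have h2 := e.injective h
  rw [Prod.mk.injEq] at h2
  refine ⟨?_, h2.2⟩
  rw [← wval (W := W) h0 h1, ← wval (W := W) g0 g1, h2.1]

/-- the window condition -/
def Win (e : (ZMod W × B) ↪ X) (x : Perm X) : Prop :=
  ∀ (d : ZMod W) (k : B), d.val + 1 < W → x (e (d, k)) = e (d + 1, k)

lemma Win.one {e : (ZMod W × B) ↪ X} {x : Perm X} (hx : Win e x) {p : ℤ} (h0 : 0 ≤ p)
    (h1 : p + 1 < W) (k : B) : x (wpt e p k) = wpt e (p + 1) k := by
  unfold wpt
  rw [hx _ k]
  · push_cast; rfl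
  · have := wval (W := W) h0 (by omega)
    omega

lemma Win.nat {e : (ZMod W × B) ↪ X} {x : Perm X} (hx : Win e x) {p : ℤ} (h0 : 0 ≤ p) (j : ℕ)
    (h1 : p + j < W) (k : B) : (x ^ j) (wpt e p k) = wpt e (p + j) k := by
  induction j with
  | zero => simp
  | succ j ih =>
    rw [pow_succ', Perm.mul_apply, ih (by push_cast at h1; omega), hx.one (by omega)
      (by push_cast at h1 ⊢; omega)]
    push_cast
    rw [add_assoc]

lemma Win.int {e : (ZMod W × B) ↪ X} {x : Perm X} (hx : Win e x) {p : ℤ} (t : ℤ) (h0 : 0 ≤ p)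
    (h1 : p < W) (h2 : 0 ≤ p + t) (h3 : p + t < W) (k : B) :
    (x ^ t) (wpt e p k) = wpt e (p + t) k := by
  rcases le_total 0 t with ht | ht
  · obtain ⟨j, rfl⟩ := Int.eq_ofNat_of_zero_le ht
    rw [zpow_natCast]
    exact hx.nat h0 j h3 k
  · obtain ⟨j, hj⟩ := Int.eq_ofNat_of_zero_le (neg_nonneg.2 ht)
    have hj' : t = -(j : ℤ) := by omega
    subst hj'
    rw [zpow_neg, zpow_natCast, Perm.inv_eq_iff_eq, hx.nat h2 j (by omega)]
    congr 1
    omega

lemma Win.inv_one {e : (ZMod W × B) ↪ X} {x : Perm X} (hx : Win e x) {p : ℤ} (h0 : 1 ≤ p)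
    (h1 : p < W) (k : B) : x⁻¹ (wpt e p k) = wpt e (p - 1) k := by
  rw [Perm.inv_eq_iff_eq, hx.one (by omega) (by omega), sub_add_cancel]

end window

/-- commutators of two permutations whose supports meet only in an invariant set -/
lemma cm_fix {X : Type} (π π' : Perm X) (Z : Set X) (h1 : ∀ z, π z ∈ Z ↔ z ∈ Z)
    (h2 : ∀ z, π' z ∈ Z ↔ z ∈ Z) (h : ∀ z, z ∉ Z → π z = z ∨ π' z = z) (z : X) (hz : z ∉ Z) :
    cm π π' z = z := by
  have key : ∀ w, w ∉ Z → π (π' w) = π' (π w) := by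
    intro w hw
    have hw1 : π' w ∉ Z := fun h' => hw ((h2 w).1 h')
    have hw2 : π w ∉ Z := fun h' => hw ((h1 w).1 h')
    rcases h w hw with h3 | h3
    · rw [h3]
      rcases h _ hw1 with h4 | h4
      · exact h4
      · have h5 := π'.injective h4
        rw [h5, h3]
    · rw [h3]
      rcases h _ hw2 with h4 | h4
      · have h5 := π.injective h4
        rw [h5, h3]
      · exact h4.symm
  have hw : π⁻¹ (π'⁻¹ z) ∉ Z := by
    intro h'
    apply hz
    have h3 := (h1 _).2 h'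
    rw [pai] at h3
    have h4 := (h2 _).2 h3
    rwa [pai] at h4
  have h6 := key _ hw
  rw [pai, pai] at h6
  exact h6

section core

variable {W : ℕ} [NeZero W] {B X : Type}

/-- support of the element `a = x⁻¹ h⁻¹ x h` -/
lemma core_supp {e : (ZMod W × B) ↪ X} {x : Perm X} (hx : Win e x) (S : Finset ℕ)
    (hS : ∀ a ∈ S, W < 3 * a ∧ 3 * a + 3 < 2 * W) (H : Perm (ZMod W × B))
    (H1 : ∀ (d : ZMod W) (k : B), d.val ∉ S → H (d, k) = (d, k)) (z : X)
    (hz : (x⁻¹ * (embP e H)⁻¹ * x * embP e H) z ≠ z) :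
    ∃ p ∈ S, ∃ ε : ℕ, ε ≤ 1 ∧ ∃ k : B, z = wpt e ((p : ℤ) - ε) k := by
  by_contra hcon
  have hmove : ∀ w : X, embP e H w ≠ w → ∃ p ∈ S, ∃ k : B, w = wpt e (p : ℤ) k := by
    intro w hw
    by_cases hr : w ∈ Set.range e
    · obtain ⟨⟨d, k⟩, rfl⟩ := hr
      refine ⟨d.val, ?_, k, (wpt_val e d k).symm⟩
      by_contra hd
      apply hw
      rw [embP_apply, H1 d k hd]
    · exact absurd (embP_apply_of_notMem e H w hr) hw
  have h1 : embP e H z = z := by
    by_contra h
    obtain ⟨p, hp, k, hk⟩ := hmove z h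
    exact hcon ⟨p, hp, 0, by omega, k, by simpa using hk⟩
  have h2 : embP e H (x z) = x z := by
    by_contra h
    obtain ⟨p, hp, k, hk⟩ := hmove _ h
    obtain ⟨hp1, hp2⟩ := hS p hp
    refine hcon ⟨p, hp, 1, le_rfl, k, ?_⟩
    apply x.injective
    rw [hk, hx.one (by omega) (by push_cast; omega)]
    push_cast
    rw [sub_add_cancel]
  apply hz
  rw [Perm.mul_apply, h1, Perm.mul_apply, Perm.mul_apply]
  have h3 : (embP e H)⁻¹ (x z) = x z := by
    rw [Perm.inv_eq_iff_eq, h2]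
  rw [h3, pia]

lemma core_at {e : (ZMod W × B) ↪ X} {x : Perm X} (hx : Win e x) (S : Finset ℕ)
    (hS : ∀ a ∈ S, W < 3 * a ∧ 3 * a + 3 < 2 * W) (hS1 : ∀ a ∈ S, a + 1 ∉ S)
    (H : Perm (ZMod W × B))
    (H1 : ∀ (d : ZMod W) (k : B), d.val ∉ S → H (d, k) = (d, k)) (p : ℕ) (hp : p ∈ S)
    (u : Perm B) (hu : ∀ k, H ((p : ZMod W), k) = ((p : ZMod W), u k)) (k : B) :
    (x⁻¹ * (embP e H)⁻¹ * x * embP e H) (wpt e (p : ℤ) k) = wpt e (p : ℤ) (u k) ∧
    (x⁻¹ * (embP e H)⁻¹ * x * embP e H) (wpt e ((p : ℤ) - 1) k) =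
      wpt e ((p : ℤ) - 1) (u⁻¹ k) := by
  obtain ⟨hp1, hp2⟩ := hS p hp
  have hpu : ∀ k, embP e H (wpt e (p : ℤ) k) = wpt e (p : ℤ) (u k) := by
    intro k
    unfold wpt
    rw [embP_apply]
    have : (((p : ℕ) : ℤ) : ZMod W) = (p : ZMod W) := by push_cast; rfl
    rw [this, hu]
  have hfix : ∀ q : ℤ, 0 ≤ q → q < W → q.toNat ∉ S → ∀ k,
      embP e H (wpt e q k) = wpt e q k := by
    intro q hq0 hq1 hqS k
    unfold wpt
    rw [embP_apply, H1]
    have h1 := wval (W := W) hq0 hq1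
    have h2 : ((q : ZMod W)).val = q.toNat := by omega
    rw [h2]; exact hqS
  constructor
  · rw [Perm.mul_apply, hpu, Perm.mul_apply, hx.one (by omega) (by omega), Perm.mul_apply]
    have h1 := hfix ((p : ℤ) + 1) (by omega) (by omega) (by
      have : ((p : ℤ) + 1).toNat = p + 1 := by omega
      rw [this]; exact hS1 p hp) (u k)
    have h2 : (embP e H)⁻¹ (wpt e ((p : ℤ) + 1) (u k)) = wpt e ((p : ℤ) + 1) (u k) := by
      rw [Perm.inv_eq_iff_eq, h1]
    rw [h2, hx.inv_one (by omega) (by omega), add_sub_cancel_right]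
  · have h1 := hfix ((p : ℤ) - 1) (by omega) (by omega) (by
      intro hcon
      apply hS1 _ hcon
      have : ((p : ℤ) - 1).toNat + 1 = p := by omega
      rw [this]; exact hp) k
    rw [Perm.mul_apply, h1, Perm.mul_apply, hx.one (by omega) (by omega), sub_add_cancel,
      Perm.mul_apply]
    have h2 : (embP e H)⁻¹ (wpt e (p : ℤ) k) = wpt e (p : ℤ) (u⁻¹ k) := by
      rw [Perm.inv_eq_iff_eq, hpu, pai]
    rw [h2, hx.inv_one (by omega) (by omega)]

omit [NeZero W] in
/-- the element which acts as `w` on the block number `p` -/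
lemma emb_row_at [DecidableEq B] (e : (ZMod W × B) ↪ X) (w : Perm B) (p : ℤ) (k : B) :
    embP e (rowAt ((p : ZMod W)) w) (wpt e p k) = wpt e p (w k) := by
  unfold wpt
  rw [embP_apply, rowAt_apply', row_apply]
  simp

omit [NeZero W] in
lemma emb_row_ne [DecidableEq B] (e : (ZMod W × B) ↪ X) (w : Perm B) (p : ℤ) (z : X)
    (hz : ∀ k, z ≠ wpt e p k) : embP e (rowAt ((p : ZMod W)) w) z = z := by
  by_cases hr : z ∈ Set.range e
  · obtain ⟨⟨d, k⟩, rfl⟩ := hr
    rw [embP_apply, rowAt_apply', row_apply]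
    have hd : d ≠ (p : ZMod W) := by
      rintro rfl
      exact hz k rfl
    simp [Pi.mulSingle_eq_of_ne hd]
  · exact embP_apply_of_notMem e _ z hr

/-- shift of a block element -/
lemma row_shift [DecidableEq B] {e : (ZMod W × B) ↪ X} {x : Perm X} (hx : Win e x) (w : Perm B)
    (p t : ℤ) (h0 : 0 ≤ p) (h1 : p < W) (h2 : 0 ≤ p + t) (h3 : p + t < W) :
    x ^ t * embP e (rowAt ((p : ZMod W)) w) * (x ^ t)⁻¹ =
      embP e (rowAt (((p + t : ℤ) : ZMod W)) w) := by
  ext z
  by_cases hz : ∃ k, z = wpt e (p + t) k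
  · obtain ⟨k, rfl⟩ := hz
    rw [emb_row_at, Perm.mul_apply, Perm.mul_apply]
    have h4 : (x ^ t)⁻¹ (wpt e (p + t) k) = wpt e p k := by
      rw [Perm.inv_eq_iff_eq, hx.int t h0 h1 h2 h3]
    rw [h4, emb_row_at, hx.int t h0 h1 h2 h3]
  · push Not at hz
    rw [emb_row_ne e w _ z hz, Perm.mul_apply, Perm.mul_apply, emb_row_ne, pai]
    intro k hk
    apply hz k
    rw [Perm.inv_eq_iff_eq] at hk
    rw [hk, hx.int t h0 h1 h2 h3]

end core

section displ

variable {G : Type} [Group G] {E : Type} [NormedAddCommGroup E] [InnerProductSpace ℝ E]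

lemma disp_zpow (ρ : G →* (E ≃ₗᵢ[ℝ] E)) (v : E) (g : G) (t : ℤ) (n : ℕ) (h : |t| ≤ n) {η : ℝ}
    (hη : ‖ρ g v - v‖ ≤ η) : ‖ρ (g ^ t) v - v‖ ≤ n * η := by
  have hη0 : 0 ≤ η := (norm_nonneg _).trans hη
  have key : ∀ j : ℕ, j ≤ n → ‖ρ (g ^ j) v - v‖ ≤ n * η := by
    intro j hj
    refine (disp_pow ρ v g j).trans ?_
    have : (j : ℝ) ≤ n := by exact_mod_cast hj
    gcongr
  rcases le_total 0 t with ht | ht
  · obtain ⟨j, rfl⟩ := Int.eq_ofNat_of_zero_le ht
    rw [zpow_natCast]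
    exact key j (by rw [abs_of_nonneg ht] at h; exact_mod_cast h)
  · obtain ⟨j, hj⟩ := Int.eq_ofNat_of_zero_le (neg_nonneg.2 ht)
    have hj' : t = -(j : ℤ) := by omega
    subst hj'
    rw [zpow_neg, zpow_natCast, disp_inv]
    refine key j ?_
    rw [abs_neg, abs_of_nonneg (by positivity)] at h
    exact_mod_cast h

end displ

section act

variable {W : ℕ} {B X : Type}

/-- `π` acts on the block number `p` as `u` -/
def Act (e : (ZMod W × B) ↪ X) (p : ℤ) (π : Perm X) (u : Perm B) : Prop :=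
  ∀ k, π (wpt e p k) = wpt e p (u k)

lemma Act.mul {e : (ZMod W × B) ↪ X} {p : ℤ} {π π' : Perm X} {u u' : Perm B} (h : Act e p π u)
    (h' : Act e p π' u') : Act e p (π * π') (u * u') := fun k => by
  rw [Perm.mul_apply, h', h]; rfl

lemma Act.inv {e : (ZMod W × B) ↪ X} {p : ℤ} {π : Perm X} {u : Perm B} (h : Act e p π u) :
    Act e p π⁻¹ u⁻¹ := fun k => by
  rw [Perm.inv_eq_iff_eq, h, pai]

lemma Act.cm {e : (ZMod W × B) ↪ X} {p : ℤ} {π π' : Perm X} {u u' : Perm B} (h : Act e p π u)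
    (h' : Act e p π' u') : Act e p (cm π π') (cm u u') :=
  ((h.mul h').mul h.inv).mul h'.inv

lemma Act.mem {e : (ZMod W × B) ↪ X} {p : ℤ} {π : Perm X} {u : Perm B} (h : Act e p π u) (z : X) :
    π z ∈ {z | ∃ k, z = wpt e p k} ↔ z ∈ {z | ∃ k, z = wpt e p k} := by
  constructor
  · rintro ⟨k, hk⟩
    refine ⟨u⁻¹ k, ?_⟩
    apply π.injective
    rw [hk, h, pai]
  · rintro ⟨k, rfl⟩
    exact ⟨u k, h k⟩

end act

/-- the element `H` -/
lemma exists_H {W L : ℕ} [NeZero W] {B : Type} (r : ℕ) (pos : Fin L → ℕ)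
    (hinj : Function.Injective pos) (hpW : ∀ s, pos s < W) (hrW : r + 5 < W)
    (hpr : ∀ i, pos i ≠ r ∧ pos i ≠ r + 2 ∧ pos i ≠ r + 5) (val : Fin L → Perm B)
    (hval : ∀ s, val s ^ 3 = 1) (B' : Finset B) :
    ∃ H : Perm (ZMod W × B), H ^ 3 = 1 ∧
      (∀ (d : ZMod W) (k : B), d.val ∉ posSet pos r → H (d, k) = (d, k)) ∧
      (∀ s k, H (((pos s : ℕ) : ZMod W), k) = (((pos s : ℕ) : ZMod W), val s k)) ∧
      (∀ k ∈ B', H ((r : ZMod W), k) = (((r + 2 : ℕ) : ZMod W), k) ∧
        H (((r + 2 : ℕ) : ZMod W), k) = (((r + 5 : ℕ) : ZMod W), k)) ∧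
      (∀ k ∉ B', H ((r : ZMod W), k) = ((r : ZMod W), k) ∧
        H (((r + 2 : ℕ) : ZMod W), k) = (((r + 2 : ℕ) : ZMod W), k) ∧
        H (((r + 5 : ℕ) : ZMod W), k) = (((r + 5 : ℕ) : ZMod W), k)) := by
  classical
  have hcast : ∀ a b : ℕ, a < W → b < W → ((a : ZMod W) = (b : ZMod W)) → a = b := by
    intro a b ha hb h
    rw [ZMod.natCast_eq_natCast_iff', Nat.mod_eq_of_lt ha, Nat.mod_eq_of_lt hb] at h
    exact h
  set R0 : ZMod W := (r : ZMod W) with hR0
  set R2 : ZMod W := ((r + 2 : ℕ) : ZMod W) with hR2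
  set R5 : ZMod W := ((r + 5 : ℕ) : ZMod W) with hR5
  have n02 : R0 ≠ R2 := fun h => by
    have := hcast _ _ (by omega) (by omega) h; omega
  have n05 : R0 ≠ R5 := fun h => by
    have := hcast _ _ (by omega) (by omega) h; omega
  have n25 : R2 ≠ R5 := fun h => by
    have := hcast _ _ (by omega) (by omega) h; omega
  set c : Perm (ZMod W) := Equiv.swap R0 R5 * Equiv.swap R0 R2 with hc
  have c0 : c R0 = R2 := by
    rw [hc, Perm.mul_apply, Equiv.swap_apply_left,
      Equiv.swap_apply_of_ne_of_ne n02.symm n25]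
  have c2 : c R2 = R5 := by
    rw [hc, Perm.mul_apply, Equiv.swap_apply_right, Equiv.swap_apply_left]
  have c5 : c R5 = R0 := by
    rw [hc, Perm.mul_apply, Equiv.swap_apply_of_ne_of_ne n05.symm n25.symm,
      Equiv.swap_apply_right]
  have cn : ∀ d, d ≠ R0 → d ≠ R2 → d ≠ R5 → c d = d := by
    intro d h0 h2 h5
    rw [hc, Perm.mul_apply, Equiv.swap_apply_of_ne_of_ne h0 h2,
      Equiv.swap_apply_of_ne_of_ne h0 h5]
  set f : Fin L → ZMod W := fun s => ((pos s : ℕ) : ZMod W) with hf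
  have hfinj : Function.Injective f := fun s t h =>
    hinj (hcast _ _ (hpW s) (hpW t) h)
  set u : ZMod W → Perm B := Function.extend f val 1 with hu
  have huf : ∀ s, u (f s) = val s := fun s => hfinj.extend_apply _ _ _
  have hun : ∀ d, (∀ s, d ≠ f s) → u d = 1 := by
    intro d hd
    rw [hu, Function.extend_apply' _ _ _ (fun ⟨s, hs⟩ => hd s hs.symm)]
    rfl
  have hu0 : u R0 = 1 := hun _ fun s h =>
    (hpr s).1 (hcast _ _ (by omega) (hpW s) h).symm
  have hu2 : u R2 = 1 := hun _ fun s h =>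
    (hpr s).2.1 (hcast _ _ (by omega) (hpW s) h).symm
  have hu5 : u R5 = 1 := hun _ fun s h =>
    (hpr s).2.2 (hcast _ _ (by omega) (hpW s) h).symm
  set σ : Perm (ZMod W × B) := Equiv.prodCongrLeft (fun k => if k ∈ B' then c else 1) with hσ
  have hσa : ∀ d k, σ (d, k) = ((if k ∈ B' then c else 1) d, k) := fun d k => rfl
  set H : Perm (ZMod W × B) := σ * row u with hH
  have hHa : ∀ d k, H (d, k) = ((if u d k ∈ B' then c else 1) d, u d k) := fun d k => rfl
  have e1 : ∀ s k, H (f s, k) = (f s, val s k) := by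
    intro s k
    rw [hHa, huf]
    split_ifs
    · rw [cn]
      · intro h; exact (hpr s).1 (hcast _ _ (hpW s) (by omega) h)
      · intro h; exact (hpr s).2.1 (hcast _ _ (hpW s) (by omega) h)
      · intro h; exact (hpr s).2.2 (hcast _ _ (hpW s) (by omega) h)
    · rfl
  have e2 : ∀ d k, (∀ s, d ≠ f s) → d ≠ R0 → d ≠ R2 → d ≠ R5 → H (d, k) = (d, k) := by
    intro d k h h0 h2 h5
    rw [hHa, hun d h]
    split_ifs
    · rw [cn d h0 h2 h5]; rfl
    · rfl
  have e3 : ∀ k ∈ B', H (R0, k) = (R2, k) ∧ H (R2, k) = (R5, k) ∧ H (R5, k) = (R0, k) := by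
    intro k hk
    refine ⟨?_, ?_, ?_⟩
    · rw [hHa, hu0, Perm.one_apply, if_pos hk, c0]
    · rw [hHa, hu2, Perm.one_apply, if_pos hk, c2]
    · rw [hHa, hu5, Perm.one_apply, if_pos hk, c5]
  have e4 : ∀ k ∉ B', H (R0, k) = (R0, k) ∧ H (R2, k) = (R2, k) ∧ H (R5, k) = (R5, k) := by
    intro k hk
    refine ⟨?_, ?_, ?_⟩
    · rw [hHa, hu0, Perm.one_apply, if_neg hk]; rfl
    · rw [hHa, hu2, Perm.one_apply, if_neg hk]; rfl
    · rw [hHa, hu5, Perm.one_apply, if_neg hk]; rfl
  refine ⟨H, ?_, ?_, e1, fun k hk => ⟨(e3 k hk).1, (e3 k hk).2.1⟩, e4⟩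
  · have key : ∀ z, H (H (H z)) = z := by
      rintro ⟨d, k⟩
      by_cases h : ∃ s, d = f s
      · obtain ⟨s, rfl⟩ := h
        rw [e1, e1, e1]
        have h3 : val s (val s (val s k)) = (val s ^ 3) k := rfl
        rw [h3, hval]; rfl
      · push Not at h
        by_cases hk : k ∈ B'
        · obtain ⟨a0, a2, a5⟩ := e3 k hk
          by_cases h0 : d = R0
          · subst h0; rw [a0, a2, a5]
          by_cases h2 : d = R2
          · subst h2; rw [a2, a5, a0]
          by_cases h5 : d = R5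
          · subst h5; rw [a5, a0, a2]
          rw [e2 d k h h0 h2 h5, e2 d k h h0 h2 h5, e2 d k h h0 h2 h5]
        · obtain ⟨a0, a2, a5⟩ := e4 k hk
          by_cases h0 : d = R0
          · subst h0; rw [a0, a0, a0]
          by_cases h2 : d = R2
          · subst h2; rw [a2, a2, a2]
          by_cases h5 : d = R5
          · subst h5; rw [a5, a5, a5]
          rw [e2 d k h h0 h2 h5, e2 d k h h0 h2 h5, e2 d k h h0 h2 h5]
    apply Equiv.ext
    intro z
    exact key z
  · intro d k hd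
    have hv : ∀ a : ℕ, a < W → d = (a : ZMod W) → d.val = a := by
      intro a ha h
      rw [h, ZMod.val_natCast, Nat.mod_eq_of_lt ha]
    have hS : ∀ a, a ∈ posSet pos r ↔ (∃ s, pos s = a) ∨ a = r ∨ a = r + 2 ∨ a = r + 5 := by
      intro a
      unfold posSet
      simp
      tauto
    apply e2
    · intro s h
      apply hd
      rw [hv _ (hpW s) h, hS]
      exact Or.inl ⟨s, rfl⟩
    · intro h
      apply hd
      rw [hv _ (by omega) h, hS]
      exact Or.inr (Or.inl rfl)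
    · intro h
      apply hd
      rw [hv _ (by omega) h, hS]
      exact Or.inr (Or.inr (Or.inl rfl))
    · intro h
      apply hd
      rw [hv _ (by omega) h, hS]
      exact Or.inr (Or.inr (Or.inr rfl))

theorem LOC3 (hC : ST_COMM3) (hS2 : ST_SID2) : ST_LOC3 := by
  intro L₁ K₁ hK₁
  obtain ⟨W, r, pos, hW, hinj, hwin, hpr, hadj, hsid⟩ :=
    hS2 (Fintype.card (Fin L₁ × Fin 3 × Bool))
  set eqv := Fintype.equivFin (Fin L₁ × Fin 3 × Bool) with heqv
  have hSm : ∀ a, a ∈ posSet pos r ↔ (∃ s, pos s = a) ∨ a = r ∨ a = r + 2 ∨ a = r + 5 := by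
    intro a
    unfold posSet
    simp
    tauto
  have hSp : ∀ s, pos s ∈ posSet pos r := fun s => (hSm _).2 (Or.inl ⟨s, rfl⟩)
  have hr0 := hwin r ((hSm _).2 (Or.inr (Or.inl rfl)))
  have hr5 := hwin (r + 5) ((hSm _).2 (Or.inr (Or.inr (Or.inr rfl))))
  have hpW : ∀ s, pos s < W := fun s => by
    have := hwin _ (hSp s); omega
  have : NeZero W := ⟨by omega⟩
  refine ⟨W, r, ⟨by omega⟩, 3 * K₁ * (4 + 6 * W) + 2 * W, hW, by omega, by omega, by positivity,
    ?_⟩
  intro B _ _ hB g hg B'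
  have hx := fun i => hC B (g i) hB (hg.1 i)
  choose xx yy hxy hgxy using hx
  set val : Fin (Fintype.card (Fin L₁ × Fin 3 × Bool)) → Perm B := fun t =>
    if (eqv.symm t).2.2 = true then xx (eqv.symm t).1 (eqv.symm t).2.1
    else (yy (eqv.symm t).1 (eqv.symm t).2.1)⁻¹ with hval
  have hval3 : ∀ s, val s ^ 3 = 1 := by
    intro s
    rw [hval]
    dsimp only
    split_ifs
    · exact (hxy _ _).1
    · rw [inv_pow, (hxy _ _).2, inv_one]
  have hvt : ∀ i k, val (eqv (i, k, true)) = xx i k := by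
    intro i k
    rw [hval]; simp
  have hvf : ∀ i k, val (eqv (i, k, false)) = (yy i k)⁻¹ := by
    intro i k
    rw [hval]; simp
  obtain ⟨H, H3, H1, H2, H4, H5⟩ := exists_H (W := W) r pos hinj hpW (by omega) hpr val hval3 B'
  refine ⟨H, H3, ?_, ?_, ?_, H4, H5, ?_⟩
  · intro d k h
    apply H1
    intro hd
    exact h (hwin _ hd)
  · intro d k h k'
    apply H1
    intro hd
    by_cases hd0 : d.val ∈ posSet pos r
    · have h1 := hwin _ hd0
      have h2 : (d + 1).val = d.val + 1 := by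
        have := ZMod.val_add_of_lt (a := d) (b := 1) (by
          rw [ZMod.val_one'' (by omega)]; omega)
        rw [this, ZMod.val_one'' (by omega)]
      rw [h2] at hd
      exact hadj _ hd0 hd
    · exact h (H1 d k hd0)
  · intro d k h k'
    apply H1
    intro hd
    by_cases hd0 : d.val ∈ posSet pos r
    · have h1 := hwin _ hd0
      have h2 : (d - 1).val = d.val - 1 := by
        have h3 : (1 : ZMod W).val ≤ d.val := by
          rw [ZMod.val_one'' (by omega)]; omega
        rw [ZMod.val_sub h3, ZMod.val_one'' (by omega)]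
      rw [h2] at hd
      apply hadj _ hd
      have : d.val - 1 + 1 = d.val := by omega
      rw [this]; exact hd0
    · exact h (H1 d k hd0)
  · intro X _ _ e x hxw E _ _ ρ v η hρx hρa d w hw
    have hx : Win e x := hxw
    have hη : 0 ≤ η := (norm_nonneg _).trans hρx
    set a : Perm X := x⁻¹ * (embP e H)⁻¹ * x * embP e H with ha
    -- moving a block element
    have hmove : ∀ (p q : ℤ) (w' : Perm B), 0 ≤ p → p < W → 0 ≤ q → q < W →
        ‖ρ (embP e (rowAt ((q : ZMod W)) w')) v - v‖ ≤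
          ‖ρ (embP e (rowAt ((p : ZMod W)) w')) v - v‖ + 2 * (W * η) := by
      intro p q w' hp0 hp1 hq0 hq1
      have h1 := row_shift hx w' p (q - p) hp0 hp1 (by omega) (by omega)
      rw [add_sub_cancel] at h1
      rw [← h1]
      refine (disp_conj' ρ v _ _).trans ?_
      have h2 := disp_zpow ρ v x (q - p) W (by rw [abs_le]; omega) hρx
      linarith
    have hcm : ∀ i k, ‖ρ (embP e (rowAt 0 (cm (xx i k) (yy i k)))) v - v‖ ≤ (4 + 6 * W) * η := by
      intro i k
      set s := eqv (i, k, true) with hs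
      set s' := eqv (i, k, false) with hs'
      have hne : s ≠ s' := by
        intro h
        have := eqv.injective h
        simp at this
      have hp := hwin _ (hSp s)
      have hq := hwin _ (hSp s')
      set t : ℤ := (pos s : ℤ) - pos s' + 1 with ht
      have hact : Act e (pos s : ℤ) a (xx i k) := by
        intro k'
        have := (core_at hx _ hwin hadj H H1 (pos s) (hSp s) (val s) (H2 s) k').1
        rw [hvt] at this
        exact this
      have hact' : Act e (pos s : ℤ) (x ^ t * a * (x ^ t)⁻¹) (yy i k) := by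
        intro k'
        have h1 := (core_at hx _ hwin hadj H H1 (pos s') (hSp s') (val s') (H2 s') k').2
        rw [hvf, inv_inv] at h1
        have h2 : ∀ k'', (x ^ t) (wpt e ((pos s' : ℤ) - 1) k'') = wpt e (pos s : ℤ) k'' := by
          intro k''
          rw [hx.int t (by omega) (by omega) (by omega) (by omega)]
          congr 1
          omega
        rw [Perm.mul_apply, Perm.mul_apply]
        have h3 : (x ^ t)⁻¹ (wpt e (pos s : ℤ) k') = wpt e ((pos s' : ℤ) - 1) k' := by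
          rw [Perm.inv_eq_iff_eq, h2]
        rw [h3, h1, h2]
      have hcomm : cm a (x ^ t * a * (x ^ t)⁻¹) =
          embP e (rowAt (((pos s : ℤ) : ZMod W)) (cm (xx i k) (yy i k))) := by
        apply Equiv.ext
        intro z
        by_cases hz : ∃ k', z = wpt e (pos s : ℤ) k'
        · obtain ⟨k', rfl⟩ := hz
          rw [(hact.cm hact') k', emb_row_at]
        · rw [cm_fix _ _ {z | ∃ k, z = wpt e (pos s : ℤ) k} hact.mem hact'.mem ?_ z hz,
            emb_row_ne]
          · intro k' hk'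
            exact hz ⟨k', hk'⟩
          · intro z hz
            by_contra hcon
            push Not at hcon
            obtain ⟨hc1, hc2⟩ := hcon
            obtain ⟨α, hα, ε, hε, k₁, hk₁⟩ := core_supp hx _ hwin H H1 z hc1
            have hc3 : a ((x ^ t)⁻¹ z) ≠ (x ^ t)⁻¹ z := by
              intro h
              apply hc2
              rw [Perm.mul_apply, Perm.mul_apply, h, pai]
            obtain ⟨β, hβ, ε', hε', k₂, hk₂⟩ := core_supp hx _ hwin H H1 _ hc3
            rw [Perm.inv_eq_iff_eq] at hk₂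
            have hα' := hwin _ hα
            have hβ' := hwin _ hβ
            rw [hx.int t (by omega) (by omega) (by omega) (by omega)] at hk₂
            rw [hk₁] at hk₂
            obtain ⟨h5, -⟩ := wpt_inj e (by omega) (by omega) (by omega) (by omega) hk₂
            obtain ⟨h6, -, h7, -⟩ := hsid s s' hne α hα β hβ ε ε' hε hε' (by rw [h5])
            apply hz
            refine ⟨k₁, ?_⟩
            rw [hk₁, h6, h7]
            simp
      have h1 : ‖ρ (x ^ t * a * (x ^ t)⁻¹) v - v‖ ≤ η + 2 * (W * η) := by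
        refine (disp_conj' ρ v _ _).trans ?_
        have h2 := disp_zpow ρ v x t W (by rw [abs_le]; omega) hρx
        linarith
      have h2 : ‖ρ (embP e (rowAt (((pos s : ℤ) : ZMod W)) (cm (xx i k) (yy i k)))) v - v‖ ≤
          2 * η + 2 * (η + 2 * (W * η)) := by
        rw [← hcomm]
        refine (disp_cm ρ v _ _).trans ?_
        linarith
      have h3 := hmove (pos s : ℤ) 0 (cm (xx i k) (yy i k)) (by omega) (by omega) le_rfl
        (by omega)
      rw [Int.cast_zero] at h3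
      linarith
    have hg0 : ∀ i, ‖(ρ.comp ((embP e).comp (rowAt (0 : ZMod W)))) (g i) v - v‖ ≤
        3 * ((4 + 6 * W) * η) := by
      intro i
      have hr : embP e (rowAt (0 : ZMod W) (g i)) =
          embP e (rowAt (0 : ZMod W) (cm (xx i 0) (yy i 0))) *
          embP e (rowAt (0 : ZMod W) (cm (xx i 1) (yy i 1))) *
          embP e (rowAt (0 : ZMod W) (cm (xx i 2) (yy i 2))) := by
        rw [hgxy i, map_mul, map_mul, map_mul, map_mul]
      rw [MonoidHom.comp_apply, MonoidHom.comp_apply, hr]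
      have h1 := disp_mul ρ v (embP e (rowAt (0 : ZMod W) (cm (xx i 0) (yy i 0))) *
          embP e (rowAt (0 : ZMod W) (cm (xx i 1) (yy i 1))))
          (embP e (rowAt (0 : ZMod W) (cm (xx i 2) (yy i 2))))
      have h2 := disp_mul ρ v (embP e (rowAt (0 : ZMod W) (cm (xx i 0) (yy i 0))))
          (embP e (rowAt (0 : ZMod W) (cm (xx i 1) (yy i 1))))
      have h3 := hcm i 0
      have h4 := hcm i 1
      have h5 := hcm i 2
      linarith
    have h0 := hg.2 E (ρ.comp ((embP e).comp (rowAt (0 : ZMod W)))) v _ hg0 w hw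
    rw [MonoidHom.comp_apply, MonoidHom.comp_apply] at h0
    have h1 := hmove 0 (d.val : ℤ) w le_rfl (by omega) (by omega) (by
      exact_mod_cast ZMod.val_lt d)
    rw [Int.cast_zero, wcast_val] at h1
    refine h1.trans ?_
    nlinarith

end

end KP23
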