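import Pool.Agent.N23.KB.Stm

/-!
Project KB (helper23), MP_75608d_al, part MERGE (helper216): from the block groups to the
alternating group of the union of the blocks.
-/

set_option linter.unusedSectionVars false

namespace KP23
open Finset Equiv Equiv.Perm Filter Topology

namespace Mrg

lemma inv_self {X : Type} (p : Perm X) (y : X) : p⁻¹ (p y) = y := p.symm_apply_apply y

section gen

variable {X : Type} [Fintype X] [DecidableEq X] {E : Type} [NormedAddCommGroup E]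
  [InnerProductSpace ℝ E] {ρ : Perm X →* (E ≃ₗᵢ[ℝ] E)} {v : E}

lemma mono' {Δ Δ' : Finset X} {c c' : ℝ} (h : NIon ρ v Δ c) (hs : Δ' ⊆ Δ) (hc : c ≤ c') :
    NIon ρ v Δ' c' :=
  fun g hg hf => (h g hg fun x hx => hf x fun hx' => hx (hs hx')).trans hc

lemma image' {Δ : Finset X} {c c' : ℝ} (h : NIon ρ v Δ c) (p : Perm X) (hp : ‖ρ p v - v‖ ≤ c') :
    NIon ρ v (Δ.image p) (c + 2 * c') := by
  intro g hg hf
  have h1 := h (p⁻¹ * g * p) (by
    rw [map_mul, map_mul, map_inv, hg, mul_one, inv_mul_cancel]) (fun y hy => by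
    have h0 : g (p y) = p y := hf _ (by
      intro hmem
      rw [mem_image] at hmem
      obtain ⟨z, hz, hzy⟩ := hmem
      exact hy (p.injective hzy ▸ hz))
    rw [Perm.mul_apply, Perm.mul_apply, h0, inv_self])
  have h2 := disp_conj' ρ v (p⁻¹ * g * p) p
  have h3 : p * (p⁻¹ * g * p) * p⁻¹ = g := by group
  rw [h3] at h2
  linarith

lemma ext' (hE : ST_EXT) {Δ₁ Δ₂ S T : Finset X} {c₁ c₂ : ℝ} (h1 : NIon ρ v Δ₁ c₁)
    (h2 : NIon ρ v Δ₂ c₂) (hS1 : S ⊆ Δ₁) (hS2 : S ⊆ Δ₂) (hT : ∀ y ∈ Δ₂, y ∉ Δ₁ → y ∈ T)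
    (hc : #T + 2 ≤ #S) : NIon ρ v (Δ₁ ∪ Δ₂) (2 * c₁ + c₂) := by
  refine hE X Δ₁ Δ₂ ?_ E ρ v c₁ c₂ h1 h2
  have h3 : #(Δ₂ \ Δ₁) ≤ #T := card_le_card fun y hy => by
    rw [Finset.mem_sdiff] at hy
    exact hT y hy.1 hy.2
  have h4 : #S ≤ #(Δ₁ ∩ Δ₂) := card_le_card (subset_inter hS1 hS2)
  omega

end gen

section comb

variable {B : Type} [Fintype B] [DecidableEq B]

lemma even_map {S T : Finset B} (hST : #S = #T) (hS : #S + 2 ≤ Fintype.card B) :
    ∃ w : Perm B, sign w = 1 ∧ S.image w = T := by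
  set w₀ : Perm B := (Finset.equivOfCardEq hST).extendSubtype with hw₀
  have h1 : S.image w₀ = T := by
    refine eq_of_subset_of_card_le ?_ ?_
    · intro y hy
      rw [mem_image] at hy
      obtain ⟨s, hs, rfl⟩ := hy
      exact Equiv.extendSubtype_mem _ s hs
    · rw [card_image_of_injective _ w₀.injective, hST]
  rcases Int.units_eq_one_or (sign w₀) with h2 | h2
  · exact ⟨w₀, h2, h1⟩
  · have h3 : 1 < #Sᶜ := by
      rw [card_compl]
      omega
    obtain ⟨p, hp, q, hq, hpq⟩ := Finset.one_lt_card.1 h3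
    rw [mem_compl] at hp hq
    refine ⟨w₀ * swap p q, ?_, ?_⟩
    · rw [map_mul, h2, sign_swap hpq]
      rfl
    · rw [← h1]
      refine image_congr fun s hs => ?_
      rw [Perm.mul_apply, swap_apply_of_ne_of_ne]
      · rintro rfl
        exact hp hs
      · rintro rfl
        exact hq hs

lemma cover {B' : Finset B} (h1 : Fintype.card B ≤ 3 * #B') (h2 : 2 * #B' + 2 ≤ Fintype.card B) :
    ∃ w₁ w₂ : Perm B, sign w₁ = 1 ∧ sign w₂ = 1 ∧
      ∀ k, k ∈ B' ∨ k ∈ B'.image w₁ ∨ k ∈ B'.image w₂ := by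
  have h3 : #B'ᶜ = Fintype.card B - #B' := card_compl _
  obtain ⟨T₁, hT₁, hT₁c⟩ := exists_subset_card_eq (s := B'ᶜ) (n := #B') (by omega)
  have h4 : #(B'ᶜ \ T₁) = #B'ᶜ - #T₁ := card_sdiff_of_subset hT₁
  obtain ⟨T₂, hT₂, -, hT₂c⟩ := exists_subsuperset_card_eq (s := B'ᶜ \ T₁) (t := univ) (n := #B')
    (subset_univ _) (by omega) (by rw [card_univ]; omega)
  obtain ⟨w₁, hw₁, hw₁'⟩ := even_map (S := B') (T := T₁) hT₁c.symm (by omega)
  obtain ⟨w₂, hw₂, hw₂'⟩ := even_map (S := B') (T := T₂) hT₂c.symm (by omega)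
  refine ⟨w₁, w₂, hw₁, hw₂, fun k => ?_⟩
  rw [hw₁', hw₂']
  by_cases hk : k ∈ B'
  · exact Or.inl hk
  · by_cases hk1 : k ∈ T₁
    · exact Or.inr (Or.inl hk1)
    · exact Or.inr (Or.inr (hT₂ (by
        rw [Finset.mem_sdiff, Finset.mem_compl]
        exact ⟨hk, hk1⟩)))

end comb

section row

variable {Q M : Type} [DecidableEq Q]

lemma rowAt_same (j : Q) (w : Perm M) (m : M) : rowAt j w (j, m) = (j, w m) := by
  rw [rowAt_apply', row_apply]
  simp

lemma rowAt_ne {i j : Q} (h : i ≠ j) (w : Perm M) (m : M) : rowAt j w (i, m) = (i, m) := by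
  rw [rowAt_apply', row_apply, Pi.mulSingle_eq_of_ne h]
  rfl

end row

section blocks

variable {X : Type} [Fintype X] [DecidableEq X] {E : Type} [NormedAddCommGroup E]
  [InnerProductSpace ℝ E] {ρ : Perm X →* (E ≃ₗᵢ[ℝ] E)} {v : E}
  {W : ℕ} [NeZero W] {B : Type} [Fintype B] [DecidableEq B] (e : (ZMod W × B) ↪ X)

/-- the block number `d` -/
def bl (d : ℕ) : B ↪ X :=
  ⟨fun k => e ((d : ZMod W), k), fun _ _ h => (Prod.mk.inj (e.injective h)).2⟩

omit [Fintype X] [DecidableEq X] [NeZero W] [Fintype B] [DecidableEq B] in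
lemma bl_apply (d : ℕ) (k : B) : bl e d k = e ((d : ZMod W), k) := rfl

/-- the part `S` of the block number `d` -/
def Ph (d : ℕ) (S : Finset B) : Finset X := S.map (bl e d)

omit [Fintype X] [DecidableEq X] [NeZero W] [Fintype B] [DecidableEq B] in
lemma mem_Ph {d : ℕ} {S : Finset B} {y : X} :
    y ∈ Ph e d S ↔ ∃ k ∈ S, e ((d : ZMod W), k) = y := by
  rw [Ph, Finset.mem_map]
  rfl

omit [Fintype X] [DecidableEq X] [NeZero W] [Fintype B] [DecidableEq B] in
lemma card_Ph (d : ℕ) (S : Finset B) : #(Ph e d S) = #S := card_map _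

omit [Fintype X] [DecidableEq X] [NeZero W] [Fintype B] [DecidableEq B] in
lemma Ph_mono (d : ℕ) {S T : Finset B} (h : S ⊆ T) : Ph e d S ⊆ Ph e d T := map_subset_map.2 h

omit [Fintype X] [DecidableEq X] [NeZero W] [Fintype B] [DecidableEq B] in
lemma embP_bl (d : ℕ) (w : Perm B) : embP (bl e d) w = embP e (rowAt (d : ZMod W) w) := by
  ext y
  by_cases hy : y ∈ Set.range e
  · obtain ⟨⟨i, k⟩, rfl⟩ := hy
    rw [embP_apply]
    by_cases hi : i = (d : ZMod W)
    · subst hi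
      rw [rowAt_same, ← bl_apply, ← bl_apply, embP_apply]
    · rw [rowAt_ne hi, embP_apply_of_notMem]
      rintro ⟨k', hk'⟩
      rw [bl_apply] at hk'
      exact hi (Prod.mk.inj (e.injective hk')).1.symm
  · rw [embP_apply_of_notMem _ _ _ hy, embP_apply_of_notMem]
    rintro ⟨k', hk'⟩
    exact hy ⟨_, hk'⟩

lemma ni_block {η : ℝ} (d : ℕ)
    (hd : ∀ (d : ZMod W) (w : Perm B), sign w = 1 → ‖ρ (embP e (rowAt d w)) v - v‖ ≤ η) :
    NIon ρ v (Ph e d univ) η := by
  intro g hg hf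
  obtain ⟨w, hw⟩ := exists_embP (bl e d) g fun y hy => hf y fun hy' => by
    rw [mem_Ph] at hy'
    obtain ⟨k, -, hk⟩ := hy'
    exact hy ⟨k, hk⟩
  have h1 : sign w = 1 := by
    rw [← sign_embP (bl e d) w, hw, hg]
  rw [← hw, embP_bl]
  exact hd _ w h1

lemma basic (hE : ST_EXT) {B' : Finset B} (hB : 2 * #B' + 2 ≤ Fintype.card B) {η : ℝ} {d d' : ℕ}
    {p : Perm X} (hp : ‖ρ p v - v‖ ≤ η) (hΔ : NIon ρ v (Ph e d univ) η)
    (hin : ∀ k ∈ B', p (e ((d : ZMod W), k)) = e ((d' : ZMod W), k))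
    (hout : ∀ k ∉ B', p (e ((d : ZMod W), k)) = e ((d : ZMod W), k)) :
    NIon ρ v (Ph e d univ ∪ Ph e d' B') (5 * η) := by
  have h2 := image' hΔ p hp
  have h3 := ext' hE (S := Ph e d B'ᶜ) (T := Ph e d' B') hΔ h2 (Ph_mono e d (subset_univ _)) (by
      intro y hy
      rw [mem_Ph] at hy
      obtain ⟨k, hk, rfl⟩ := hy
      rw [mem_compl] at hk
      rw [mem_image]
      exact ⟨_, (mem_Ph e).2 ⟨k, mem_univ _, rfl⟩, hout k hk⟩) (by
      intro y hy hy'
      rw [mem_image] at hy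
      obtain ⟨z, hz, rfl⟩ := hy
      rw [mem_Ph] at hz
      obtain ⟨k, -, rfl⟩ := hz
      by_cases hk : k ∈ B'
      · rw [hin k hk]
        exact (mem_Ph e).2 ⟨k, hk, rfl⟩
      · rw [hout k hk] at hy'
        exact absurd ((mem_Ph e).2 ⟨k, mem_univ _, rfl⟩) hy') (by
      rw [card_Ph, card_Ph, card_compl]
      omega)
  refine mono' h3 (union_subset_union (Subset.refl _) ?_) (by linarith)
  intro y hy
  rw [mem_Ph] at hy
  obtain ⟨k, hk, rfl⟩ := hy
  rw [mem_image]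
  exact ⟨_, (mem_Ph e).2 ⟨k, mem_univ _, rfl⟩, hin k hk⟩

/-- the block `d` together with any even image of `B'` in the block `d'` -/
def Link (ρ : Perm X →* (E ≃ₗᵢ[ℝ] E)) (v : E) (B' : Finset B) (c : ℝ) (d d' : ℕ) : Prop :=
  ∀ w : Perm B, sign w = 1 → NIon ρ v (Ph e d univ ∪ Ph e d' (B'.image w)) c

lemma link_of_basic {B' : Finset B} {η c : ℝ} {d d' : ℕ} (hdd : (d : ZMod W) ≠ (d' : ZMod W))
    (hd : ∀ (d : ZMod W) (w : Perm B), sign w = 1 → ‖ρ (embP e (rowAt d w)) v - v‖ ≤ η)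
    (h : NIon ρ v (Ph e d univ ∪ Ph e d' B') c) : Link e ρ v B' (c + 2 * η) d d' := by
  intro w hw
  refine mono' (image' h _ (hd (d' : ZMod W) w hw)) ?_ le_rfl
  intro y hy
  rw [mem_union, mem_Ph, mem_Ph] at hy
  rw [mem_image]
  rcases hy with ⟨k, -, rfl⟩ | ⟨k, hk, rfl⟩
  · refine ⟨e ((d : ZMod W), k), mem_union_left _ ((mem_Ph e).2 ⟨k, mem_univ _, rfl⟩), ?_⟩
    rw [embP_apply, rowAt_ne hdd]
  · rw [mem_image] at hk
    obtain ⟨k', hk', rfl⟩ := hk
    refine ⟨e ((d' : ZMod W), k'), mem_union_right _ ((mem_Ph e).2 ⟨k', hk', rfl⟩), ?_⟩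
    rw [embP_apply, rowAt_same]

omit [Fintype X] [DecidableEq X] [Fintype B] [DecidableEq B] in
lemma shift {x : Perm X}
    (hx : ∀ (d : ZMod W) (k : B), d.val + 1 < W → x (e (d, k)) = e (d + 1, k)) (d j : ℕ)
    (hdj : d + j < W) (k : B) : (x ^ j) (e ((d : ZMod W), k)) = e (((d + j : ℕ) : ZMod W), k) := by
  induction j with
  | zero => simp
  | succ j ih =>
    rw [pow_succ', Perm.mul_apply, ih (by omega), hx _ _ (by
      rw [ZMod.val_natCast_of_lt (by omega)]
      omega)]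
    congr 2
    push_cast
    ring

lemma link_up {B' : Finset B} {η c : ℝ} {x : Perm X} (hxη : ‖ρ x v - v‖ ≤ η)
    (hx : ∀ (d : ZMod W) (k : B), d.val + 1 < W → x (e (d, k)) = e (d + 1, k)) {d d' : ℕ} (j : ℕ)
    (h1 : d + j < W) (h2 : d' + j < W) (h : Link e ρ v B' c d d') :
    Link e ρ v B' (c + 2 * (j * η)) (d + j) (d' + j) := by
  intro w hw
  have h3 : ‖ρ (x ^ j) v - v‖ ≤ j * η :=
    (disp_pow ρ v x j).trans (mul_le_mul_of_nonneg_left hxη (Nat.cast_nonneg _))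
  refine mono' (image' (h w hw) _ h3) ?_ le_rfl
  intro y hy
  rw [mem_union, mem_Ph, mem_Ph] at hy
  rw [mem_image]
  rcases hy with ⟨k, -, rfl⟩ | ⟨k, hk, rfl⟩
  · exact ⟨e ((d : ZMod W), k), mem_union_left _ ((mem_Ph e).2 ⟨k, mem_univ _, rfl⟩),
      shift e hx d j h1 k⟩
  · exact ⟨e ((d' : ZMod W), k), mem_union_right _ ((mem_Ph e).2 ⟨k, hk, rfl⟩),
      shift e hx d' j h2 k⟩

lemma link_down {B' : Finset B} {η c : ℝ} {x : Perm X} (hxη : ‖ρ x v - v‖ ≤ η)
    (hx : ∀ (d : ZMod W) (k : B), d.val + 1 < W → x (e (d, k)) = e (d + 1, k)) {d d' : ℕ} (j : ℕ)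
    (h1 : d + j < W) (h2 : d' + j < W) (h : Link e ρ v B' c (d + j) (d' + j)) :
    Link e ρ v B' (c + 2 * (j * η)) d d' := by
  intro w hw
  have h3 : ‖ρ (x ^ j)⁻¹ v - v‖ ≤ j * η := by
    rw [disp_inv]
    exact (disp_pow ρ v x j).trans (mul_le_mul_of_nonneg_left hxη (Nat.cast_nonneg _))
  refine mono' (image' (h w hw) _ h3) ?_ le_rfl
  intro y hy
  rw [mem_union, mem_Ph, mem_Ph] at hy
  rw [mem_image]
  rcases hy with ⟨k, -, rfl⟩ | ⟨k, hk, rfl⟩
  · refine ⟨e (((d + j : ℕ) : ZMod W), k), mem_union_left _ ((mem_Ph e).2 ⟨k, mem_univ _, rfl⟩), ?_⟩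
    rw [← shift e hx d j h1 k, inv_self]
  · refine ⟨e (((d' + j : ℕ) : ZMod W), k), mem_union_right _ ((mem_Ph e).2 ⟨k, hk, rfl⟩), ?_⟩
    rw [← shift e hx d' j h2 k, inv_self]

lemma add_block (hE : ST_EXT) {B' : Finset B} (hB1 : Fintype.card B ≤ 3 * #B')
    (hB2 : 2 * #B' + 2 ≤ Fintype.card B) {Θ : Finset X} {c c' : ℝ} {d d' : ℕ}
    (hΘ : NIon ρ v Θ c) (hd : Ph e d univ ⊆ Θ) (hL : Link e ρ v B' c' d d') :
    NIon ρ v (Θ ∪ Ph e d' univ) (8 * c + 7 * c') := by
  obtain ⟨w₁, w₂, hw₁, hw₂, hc⟩ := cover hB1 hB2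
  have key : ∀ (Θ' : Finset X) (c₀ : ℝ) (w : Perm B), sign w = 1 → NIon ρ v Θ' c₀ → Θ ⊆ Θ' →
      NIon ρ v (Θ' ∪ (Ph e d univ ∪ Ph e d' (B'.image w))) (2 * c₀ + c') := by
    intro Θ' c₀ w hw h0 hs
    refine ext' hE (S := Ph e d univ) (T := Ph e d' (B'.image w)) h0 (hL w hw) (hd.trans hs)
      subset_union_left ?_ ?_
    · intro y hy hy'
      rw [mem_union] at hy
      rcases hy with hy | hy
      · exact absurd (hs (hd hy)) hy'
      · exact hy
    · rw [card_Ph, card_Ph, card_image_of_injective _ w.injective, card_univ]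
      omega
  have s1 := key Θ c 1 (map_one _) hΘ (Subset.refl _)
  have s2 := key _ _ w₁ hw₁ s1 subset_union_left
  have s3 := key _ _ w₂ hw₂ s2 (subset_union_left.trans subset_union_left)
  refine mono' s3 ?_ (by linarith)
  intro y hy
  rw [mem_union] at hy
  rcases hy with hy | hy
  · exact mem_union_left _ (mem_union_left _ (mem_union_left _ hy))
  · rw [mem_Ph] at hy
    obtain ⟨k, -, rfl⟩ := hy
    rcases hc k with hk | hk | hk
    · refine mem_union_left _ (mem_union_left _ (mem_union_right _ (mem_union_right _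
        ((mem_Ph e).2 ⟨k, ?_, rfl⟩))))
      rw [mem_image]
      exact ⟨k, hk, rfl⟩
    · exact mem_union_left _ (mem_union_right _ (mem_union_right _ ((mem_Ph e).2 ⟨k, hk, rfl⟩)))
    · exact mem_union_right _ (mem_union_right _ ((mem_Ph e).2 ⟨k, hk, rfl⟩))

/-- the constants -/
def Kc (W : ℕ) : ℕ → ℝ
  | 0 => 1
  | n + 1 => 8 * Kc W n + 7 * (7 + 2 * W)

lemma Kc_pos (W n : ℕ) : 0 < Kc W n := by
  induction n with
  | zero => exact one_pos
  | succ n ih =>
    have : (0 : ℝ) ≤ W := Nat.cast_nonneg _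
    rw [Kc]
    linarith

end blocks

end Mrg

open Mrg in
theorem MERGE (hE : ST_EXT) : ST_MERGE := by
  intro W _ r hr hrW
  refine ⟨Kc W (3 + (W - 4)), Kc_pos _ _, ?_⟩
  intro X B _ _ _ _ e x a B' hB1 hB2 hx haI haO E _ _ ρ v η hxη haη hd g hg hgf
  have hη : 0 ≤ η := (norm_nonneg _).trans hxη
  have hne : ∀ d d' : ℕ, d < W → d' < W → d ≠ d' → (d : ZMod W) ≠ (d' : ZMod W) := by
    intro d d' h h' hdd heq
    apply hdd
    have := congrArg ZMod.val heq
    rwa [ZMod.val_natCast_of_lt h, ZMod.val_natCast_of_lt h'] at this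
  have hblk : ∀ d : ℕ, NIon ρ v (Ph e d univ) η := fun d => ni_block e d hd
  have haη' : ‖ρ a⁻¹ v - v‖ ≤ η := by rw [disp_inv]; exact haη
  have hWc : (7:ℝ) + 2 * W = 7 + 2 * W := rfl
  -- the four basic links
  have L1 : Link e ρ v B' (5 * η + 2 * η) r (r + 2) :=
    link_of_basic e (hne _ _ (by omega) (by omega) (by omega)) hd
      (basic e hE hB2 haη (hblk r) (fun k hk => (haI k hk).1) (fun k hk => (haO k hk).1))
  have L2 : Link e ρ v B' (5 * η + 2 * η) (r + 2) (r + 5) :=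
    link_of_basic e (hne _ _ (by omega) (by omega) (by omega)) hd
      (basic e hE hB2 haη (hblk (r + 2)) (fun k hk => (haI k hk).2) (fun k hk => (haO k hk).2.1))
  have L3 : Link e ρ v B' (5 * η + 2 * η) (r + 2) r :=
    link_of_basic e (hne _ _ (by omega) (by omega) (by omega)) hd
      (basic e hE hB2 haη' (hblk (r + 2))
        (fun k hk => by rw [Perm.inv_eq_iff_eq, (haI k hk).1])
        (fun k hk => by rw [Perm.inv_eq_iff_eq, (haO k hk).2.1]))
  have L4 : Link e ρ v B' (5 * η + 2 * η) (r + 5) (r + 2) :=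
    link_of_basic e (hne _ _ (by omega) (by omega) (by omega)) hd
      (basic e hE hB2 haη' (hblk (r + 5))
        (fun k hk => by rw [Perm.inv_eq_iff_eq, (haI k hk).2])
        (fun k hk => by rw [Perm.inv_eq_iff_eq, (haO k hk).2.2]))
  -- all links
  have hmono : ∀ (j d d' : ℕ), j ≤ W → Link e ρ v B' (5 * η + 2 * η + 2 * (j * η)) d d' →
      Link e ρ v B' ((7 + 2 * W) * η) d d' := by
    intro j d d' hj h w hw
    refine mono' (h w hw) (Subset.refl _) ?_
    have h1 : (j : ℝ) ≤ W := by exact_mod_cast hj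
    have h2 : (j : ℝ) * η ≤ W * η := mul_le_mul_of_nonneg_right h1 hη
    nlinarith
  have hmove : ∀ (p p' : ℕ), p < W → p' < W → Link e ρ v B' (5 * η + 2 * η) p p' →
      ∀ d d' : ℕ, d < W → d' < W → d + p' = d' + p → Link e ρ v B' ((7 + 2 * W) * η) d d' := by
    intro p p' hp hp' h d d' hdW hd'W hdd
    rcases le_total p d with hpd | hpd
    · obtain ⟨j, rfl⟩ := Nat.exists_eq_add_of_le hpd
      have : d' = p' + j := by omega
      subst this
      exact hmono j _ _ (by omega) (link_up e hxη hx j hdW hd'W h)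
    · obtain ⟨j, rfl⟩ := Nat.exists_eq_add_of_le hpd
      have : p' = d' + j := by omega
      subst this
      exact hmono j _ _ (by omega) (link_down e hxη hx j hp hp' h)
  have M2 : ∀ d : ℕ, d + 2 < W → Link e ρ v B' ((7 + 2 * W) * η) d (d + 2) := fun d hdW =>
    hmove r (r + 2) (by omega) (by omega) L1 d (d + 2) (by omega) hdW (by omega)
  have M2' : ∀ d : ℕ, d + 2 < W → Link e ρ v B' ((7 + 2 * W) * η) (d + 2) d := fun d hdW =>
    hmove (r + 2) r (by omega) (by omega) L3 (d + 2) d hdW (by omega) (by omega)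
  have M3 : ∀ d : ℕ, d + 3 < W → Link e ρ v B' ((7 + 2 * W) * η) d (d + 3) := fun d hdW =>
    hmove (r + 2) (r + 5) (by omega) (by omega) L2 d (d + 3) (by omega) hdW (by omega)
  -- add the blocks
  have hadd : ∀ (n d d' : ℕ) (Θ : Finset X), NIon ρ v Θ (Kc W n * η) → Ph e d univ ⊆ Θ →
      Link e ρ v B' ((7 + 2 * W) * η) d d' →
      NIon ρ v (Θ ∪ Ph e d' univ) (Kc W (n + 1) * η) := by
    intro n d d' Θ h1 h2 h3
    refine mono' (add_block e hE hB1 hB2 h1 h2 h3) (Subset.refl _) (le_of_eq ?_)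
    rw [Kc]
    ring
  have T0 : NIon ρ v (Ph e 0 univ) (Kc W 0 * η) := by
    rw [Kc, one_mul]
    exact hblk 0
  have T1 := hadd 0 0 3 _ T0 (Subset.refl _) (M3 0 (by omega))
  have T2 := hadd 1 3 1 _ T1 subset_union_right (M2' 1 (by omega))
  have T3 := hadd 2 0 2 _ T2 (subset_union_left.trans subset_union_left) (M2 0 (by omega))
  have hU : ∀ j : ℕ, 4 + j ≤ W →
      NIon ρ v ((range (4 + j)).biUnion fun d => Ph e d univ) (Kc W (3 + j) * η) := by
    intro j
    induction j with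
    | zero =>
      intro _
      refine mono' T3 ?_ le_rfl
      intro y hy
      rw [mem_biUnion] at hy
      obtain ⟨d, hd1, hd2⟩ := hy
      rw [mem_range] at hd1
      interval_cases d
      · exact mem_union_left _ (mem_union_left _ (mem_union_left _ hd2))
      · exact mem_union_left _ (mem_union_right _ hd2)
      · exact mem_union_right _ hd2
      · exact mem_union_left _ (mem_union_left _ (mem_union_right _ hd2))
    | succ j ih =>
      intro hj
      have h1 := hadd (3 + j) (2 + j) (4 + j) _ (ih (by omega)) (by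
        intro y hy
        rw [mem_biUnion]
        exact ⟨2 + j, by rw [mem_range]; omega, hy⟩) (by
        have := M2 (2 + j) (by omega)
        rwa [show 2 + j + 2 = 4 + j by omega] at this)
      refine mono' h1 ?_ le_rfl
      intro y hy
      rw [mem_biUnion] at hy
      obtain ⟨d, hd1, hd2⟩ := hy
      rw [mem_range] at hd1
      rcases Nat.lt_or_ge d (4 + j) with h | h
      · refine mem_union_left _ ?_
        rw [mem_biUnion]
        exact ⟨d, by rw [mem_range]; exact h, hd2⟩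
      · have : d = 4 + j := by omega
        subst this
        exact mem_union_right _ hd2
  refine hU (W - 4) (by omega) g hg fun y hy => hgf y ?_
  rintro ⟨⟨d, k⟩, rfl⟩
  apply hy
  rw [mem_biUnion]
  refine ⟨d.val, ?_, ?_⟩
  · rw [mem_range]
    have := ZMod.val_lt d
    omega
  · rw [mem_Ph]
    exact ⟨k, mem_univ _, by rw [ZMod.natCast_zmod_val]⟩

end KP23
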