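import Pool.Agent.N23.KB.Stm

/-!
Project KB (helper23): MOD, a permutation with few cycles is conjugate to the standard `n`-cycle times
an involution of small sparse support.
-/

set_option autoImplicit false

namespace KP23
open Finset Equiv Equiv.Perm Filter Topology

namespace MODaux

section lists

variable {α : Type} [DecidableEq α]

theorem fp_split (A : List α) (u : α) (D : List α) :
    (A ++ u :: D).formPerm = (A ++ [u]).formPerm * (u :: D).formPerm := by
  induction A with
  | nil => simp
  | cons a A ih =>
    cases A with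
    | nil =>
      rw [List.nil_append, List.nil_append] at ih
      rw [List.cons_append, List.nil_append, List.cons_append, List.nil_append,
        List.formPerm_cons_cons, List.formPerm_pair]
    | cons b A =>
      rw [List.cons_append, List.cons_append, List.formPerm_cons_cons, List.cons_append,
        List.cons_append, List.formPerm_cons_cons, ← List.cons_append, ← List.cons_append, ih,
        mul_assoc]

theorem comm_swap {F : Perm α} {u v : α} (hu : F u = u) (hv : F v = v) :
    F * swap u v = swap u v * F := by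
  rw [mul_swap_eq_swap_mul, hu, hv]

theorem fp_change (C : List α) {u v : α} (huv : u ≠ v) (hu : u ∉ C) (hv : v ∉ C) :
    (v :: C).formPerm * swap u v = swap u v * (u :: C).formPerm := by
  cases C with
  | nil => simp
  | cons c C =>
    rw [List.formPerm_cons_cons, List.formPerm_cons_cons, mul_assoc,
      comm_swap (List.formPerm_apply_of_notMem hu) (List.formPerm_apply_of_notMem hv),
      ← mul_assoc, ← mul_assoc]
    congr 1
    rw [mul_swap_eq_swap_mul (swap u v) u c, swap_apply_left, swap_apply_of_ne_of_ne]
    · rintro rfl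
      exact hu List.mem_cons_self
    · rintro rfl
      exact hv List.mem_cons_self

/-- splitting off a cycle -/
theorem fp_cut (A B C : List α) (u v : α) (h : (A ++ u :: (B ++ v :: C)).Nodup) :
    (A ++ u :: (B ++ v :: C)).formPerm * swap u v =
      (A ++ u :: C).formPerm * (B ++ [v]).formPerm := by
  have h1 : (u :: (B ++ v :: C)).Nodup := (List.nodup_append.mp h).2.1
  rw [List.nodup_cons] at h1
  obtain ⟨hu, h2⟩ := h1
  have h3 : (v :: C).Nodup := (List.nodup_append.mp h2).2.1
  rw [List.nodup_cons] at h3
  have huv : u ≠ v := fun e => hu (by rw [e]; simp)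
  have huC : u ∉ C := fun e => hu (by simp [e])
  have huB : u ∉ B ++ [v] := fun e => hu (by
    rw [List.mem_append, List.mem_singleton] at e
    rcases e with e | e
    · simp [e]
    · exact absurd e huv)
  have hBv : (B ++ [v]).Nodup := by
    refine h2.sublist (List.Sublist.append_left ?_ B)
    simp
  have hdis : ∀ x ∈ C, x ∉ B ++ [v] := by
    intro x hx hx'
    rw [List.mem_append, List.mem_singleton] at hx'
    rcases hx' with hx' | hx'
    · exact (List.nodup_append.mp h2).2.2 x hx' x (by simp [hx]) rfl
    · rw [hx'] at hx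
      exact h3.1 hx
  have hvC : v ∉ C := h3.1
  -- the first factor
  have e1 : (A ++ u :: (B ++ v :: C)).formPerm =
      (A ++ [u]).formPerm * ((u :: (B ++ [v])).formPerm * (v :: C).formPerm) := by
    rw [fp_split A u, ← List.cons_append, fp_split (u :: B) v C]
    rfl
  have e2 : (u :: (B ++ [v])).formPerm = (B ++ [v]).formPerm * swap u v := by
    have hnd : (u :: (B ++ [v])).Nodup := List.nodup_cons.mpr ⟨huB, hBv⟩
    rw [← List.formPerm_rotate_one _ hnd, List.rotate_cons_succ, List.rotate_zero,
      List.append_assoc, List.singleton_append, List.formPerm_append_pair, swap_comm]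
  -- disjoint cycles commute
  have hd : Perm.Disjoint (B ++ [v]).formPerm (u :: C).formPerm := by
    intro x
    by_cases hx : x ∈ u :: C
    · left
      apply List.formPerm_apply_of_notMem
      rw [List.mem_cons] at hx
      rcases hx with hx | hx
      · rw [hx]; exact huB
      · exact hdis x hx
    · right
      exact List.formPerm_apply_of_notMem hx
  calc (A ++ u :: (B ++ v :: C)).formPerm * swap u v
      = (A ++ [u]).formPerm * ((u :: (B ++ [v])).formPerm * ((v :: C).formPerm * swap u v)) := by
        rw [e1, mul_assoc, mul_assoc]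
    _ = (A ++ [u]).formPerm * ((B ++ [v]).formPerm * (swap u v * swap u v) *
          (u :: C).formPerm) := by
        rw [fp_change C huv huC hvC, e2]
        simp only [mul_assoc]
    _ = (A ++ [u]).formPerm * ((B ++ [v]).formPerm * (u :: C).formPerm) := by
        rw [swap_mul_self, mul_one]
    _ = (A ++ [u]).formPerm * ((u :: C).formPerm * (B ++ [v]).formPerm) := by
        rw [hd.commute.eq]
    _ = _ := by rw [fp_split A u C, mul_assoc]

variable [Fintype α]

theorem ct_fp (l : List α) (h : l.Nodup) :
    l.formPerm.cycleType = ((({l.length} : Multiset ℕ)).filter (fun s => 2 ≤ s)) := by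
  by_cases h2 : 2 ≤ l.length
  · rw [(List.isCycle_formPerm h h2).cycleType, List.support_formPerm_of_nodup l h ?_,
      List.toFinset_card_of_nodup h, Multiset.filter_singleton, if_pos h2]
    intro x hx
    rw [hx] at h2
    simp at h2
  · rw [Multiset.filter_singleton, if_neg h2, (List.formPerm_eq_one_iff _ h).mpr (by omega)]
    simp

end lists

/-- the end of the list of all numbers -/
def R (n t : ℕ) : List (Fin n) := (List.finRange n).drop t

theorem R_cons {n p : ℕ} (hp : p < n) : R n p = ⟨p, hp⟩ :: R n (p + 1) := by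
  unfold R
  rw [List.drop_eq_getElem_cons (by rw [List.length_finRange]; exact hp)]
  congr 1
  simp

theorem R_take {n t : ℕ} (a : ℕ) : R n t = (R n t).take a ++ R n (t + a) := by
  unfold R
  rw [← List.drop_drop, List.take_append_drop]

theorem R_len (n t : ℕ) : (R n t).length = n - t := by
  unfold R
  rw [List.length_drop, List.length_finRange]

theorem R_mem {n t : ℕ} (i : Fin n) : i ∈ R n t ↔ t ≤ (i : ℕ) := by
  unfold R
  rw [List.mem_drop_iff_getElem]
  constructor
  · rintro ⟨j, hj, h⟩
    rw [← h]
    simp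
  · intro h
    refine ⟨i - t, ?_, ?_⟩
    · rw [List.length_finRange]
      have := i.2
      omega
    · simp
      apply Fin.ext
      simp
      omega

theorem finRotate_eq {n : ℕ} : finRotate n = (List.finRange n).formPerm := by
  apply Equiv.ext
  intro i
  have hn : 0 < n := lt_of_le_of_lt (Nat.zero_le _) i.2
  have h1 := List.formPerm_apply_getElem (List.finRange n) (List.nodup_finRange n) i.val
    (by rw [List.length_finRange]; exact i.2)
  have h2 : (List.finRange n)[i.val]'(by rw [List.length_finRange]; exact i.2) = i := by simp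
  rw [h2] at h1
  rw [h1]
  obtain ⟨m, rfl⟩ : ∃ m, n = m + 1 := ⟨n - 1, by omega⟩
  rw [finRotate_apply]
  apply Fin.ext
  rw [Fin.val_add]
  simp

/-- a gap of the forbidden set -/
theorem exists_pos {n : ℕ} (F : Finset (Fin n)) (t₀ s : ℕ) :
    ∃ p : ℕ, t₀ ≤ p ∧ p ≤ t₀ + 2 * #F ∧ ∀ i ∈ F, (i : ℕ) ≠ p ∧ (i : ℕ) ≠ p + s := by
  classical
  by_contra hcon
  push Not at hcon
  have h1 : range (2 * #F + 1) ⊆ ((range (2 * #F + 1)).filter fun d => ∃ i ∈ F, (i : ℕ) = t₀ + d) ∪
      ((range (2 * #F + 1)).filter fun d => ∃ i ∈ F, (i : ℕ) = t₀ + d + s) := by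
    intro d hd
    have hd' := mem_range.mp hd
    obtain ⟨i, hi, hi'⟩ := hcon (t₀ + d) (by omega) (by omega)
    rw [mem_union, mem_filter, mem_filter]
    by_cases h : (i : ℕ) = t₀ + d
    · exact Or.inl ⟨hd, i, hi, h⟩
    · exact Or.inr ⟨hd, i, hi, hi' h⟩
  have key : ∀ c : ℕ, #((range (2 * #F + 1)).filter fun d => ∃ i ∈ F, (i : ℕ) = t₀ + d + c) ≤
      #F := by
    intro c
    calc _ ≤ #(F.image fun i : Fin n => (i : ℕ) - t₀ - c) := by
          refine card_le_card fun d hd => ?_
          rw [mem_filter] at hd
          obtain ⟨-, i, hi, hi'⟩ := hd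
          rw [mem_image]
          exact ⟨i, hi, by omega⟩
      _ ≤ #F := card_image_le
  have h2 := (card_le_card h1).trans (card_union_le _ _)
  have h3 := key 0
  have h4 := key s
  simp only [add_zero] at h3
  rw [card_range] at h2
  omega

/-- the construction -/
theorem build {n G : ℕ} (F : Finset (Fin n)) (L : List ℕ) (hL : ∀ s ∈ L, 1 ≤ s)
    (hsum : L.sum + L.length * (G + 2 * #F + 2) + 1 ≤ n) :
    ∃ (ζ Q : Perm (Fin n)) (t : ℕ) (P : List (Fin n)), ζ * ζ = 1 ∧
      (∀ i, ζ i ≠ i → (i : ℕ) < t) ∧ (∀ i ∈ F, ζ i = i) ∧ #ζ.support ≤ 2 * L.length ∧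
      (∀ i : ℕ, #(ζ.support.filter fun e : Fin n => i ≤ (e : ℕ) ∧ (e : ℕ) < i + G) ≤ 2) ∧
      finRotate n * ζ = (P ++ R n t).formPerm * Q ∧ (P ++ R n t).Nodup ∧
      (∀ e ∈ P ++ R n t, Q e = e) ∧
      Q.cycleType = (L : Multiset ℕ).filter (fun s => 2 ≤ s) ∧
      (P ++ R n t).length + L.sum = n ∧ t ≤ L.sum + L.length * (G + 2 * #F + 2) := by
  classical
  induction L with
  | nil =>
    refine ⟨1, 1, 0, [], one_mul _, fun i hi => absurd rfl hi, fun _ _ => rfl, by simp,
      fun i => by simp, ?_, ?_, fun _ _ => rfl, by simp, ?_, by simp⟩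
    · rw [mul_one, mul_one, List.nil_append]
      exact finRotate_eq
    · rw [List.nil_append]
      exact List.nodup_finRange n
    · rw [List.nil_append, R_len]
      simp
  | cons s L ih =>
    have hs1 : 1 ≤ s := hL s List.mem_cons_self
    rw [List.sum_cons, List.length_cons, Nat.succ_mul] at hsum
    obtain ⟨ζ, Q, t, P, q1, q2, q3, q4, q5, q6, q7, q8, q9, q10, q11⟩ :=
      ih (fun s hs => hL s (List.mem_cons_of_mem _ hs)) (by omega)
    obtain ⟨p, hp1, hp2, hp3⟩ := exists_pos F (t + G) s
    have hps : p + s < n := by omega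
    have hpn : p < n := by omega
    obtain ⟨u, hu⟩ : ∃ u : Fin n, u = ⟨p, hpn⟩ := ⟨_, rfl⟩
    obtain ⟨v, hv⟩ : ∃ v : Fin n, v = ⟨p + s, hps⟩ := ⟨_, rfl⟩
    have huv' : (u : ℕ) = p := by rw [hu]
    have hvv' : (v : ℕ) = p + s := by rw [hv]
    have huv : u ≠ v := by
      intro h
      have := congrArg Fin.val h
      omega
    -- the list
    obtain ⟨A, hA⟩ : ∃ A, A = P ++ (R n t).take (p - t) := ⟨_, rfl⟩
    obtain ⟨B, hB⟩ : ∃ B, B = (R n (p + 1)).take (s - 1) := ⟨_, rfl⟩
    have hlist : P ++ R n t = A ++ u :: (B ++ v :: R n (p + s + 1)) := by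
      rw [hA, hB, List.append_assoc]
      congr 1
      conv_lhs => rw [R_take (t := t) (p - t)]
      congr 1
      rw [show t + (p - t) = p by omega, R_cons hpn, hu]
      congr 1
      conv_lhs => rw [R_take (t := p + 1) (s - 1)]
      congr 1
      rw [show p + 1 + (s - 1) = p + s by omega, R_cons hps, hv]
    have hsub : (A ++ u :: R n (p + s + 1)).Sublist (P ++ R n t) := by
      rw [hlist]
      refine List.Sublist.append_left (List.Sublist.cons_cons u ?_) A
      exact ((List.sublist_cons_self v _)).trans (List.sublist_append_right B _)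
    have hnew : (A ++ [u]) ++ R n (p + s + 1) = A ++ u :: R n (p + s + 1) := by simp
    have hBlen : (B ++ [v]).length = s := by
      rw [hB, List.length_append, List.length_take, R_len, List.length_singleton]
      omega
    have hBmem : ∀ e ∈ B ++ [v], e ∈ P ++ R n t := by
      intro e he
      rw [hlist]
      rw [List.mem_append, List.mem_singleton] at he
      rcases he with he | he
      · simp [he]
      · simp [he]
    have humem : u ∈ P ++ R n t := by rw [hlist]; simp
    have hvmem : v ∈ P ++ R n t := hBmem v (by simp)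
    have hndl : (A ++ u :: (B ++ v :: R n (p + s + 1))).Nodup := by rw [← hlist]; exact q7
    have hBnd : (B ++ [v]).Nodup := by
      have h1 : (B ++ v :: R n (p + s + 1)).Nodup :=
        (List.nodup_cons.mp (List.nodup_append.mp hndl).2.1).2
      refine h1.sublist (List.Sublist.append_left ?_ B)
      simp
    have hQu := q8 u humem
    have hQv := q8 v hvmem
    have hζu : ζ u = u := by
      by_contra h
      have := q2 u h
      omega
    have hζv : ζ v = v := by
      by_contra h
      have := q2 v h
      omega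
    have hcs : ζ * swap u v = swap u v * ζ := comm_swap hζu hζv
    have hmov : ∀ i, (ζ * swap u v) i ≠ i → ζ i ≠ i ∨ i = u ∨ i = v := by
      intro i hi
      by_contra hcon
      push Not at hcon
      apply hi
      rw [Perm.mul_apply, swap_apply_of_ne_of_ne hcon.2.1 hcon.2.2, hcon.1]
    have hsupp : (ζ * swap u v).support ⊆ ζ.support ∪ {u, v} := by
      intro i hi
      rw [mem_support] at hi
      rw [mem_union, mem_support, mem_insert, mem_singleton]
      exact hmov i hi
    have hdB : Perm.Disjoint (B ++ [v]).formPerm Q := by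
      intro e
      by_cases he : e ∈ B ++ [v]
      · exact Or.inr (q8 e (hBmem e he))
      · exact Or.inl (List.formPerm_apply_of_notMem he)
    refine ⟨ζ * swap u v, (B ++ [v]).formPerm * Q, p + s + 1, A ++ [u], ?_, ?_, ?_, ?_, ?_, ?_,
      ?_, ?_, ?_, ?_, ?_⟩
    · calc ζ * swap u v * (ζ * swap u v) = ζ * (swap u v * ζ) * swap u v := by
            simp only [mul_assoc]
        _ = (ζ * ζ) * (swap u v * swap u v) := by
            rw [← hcs]; simp only [mul_assoc]
        _ = 1 := by rw [q1, swap_mul_self, one_mul]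
    · intro i hi
      rcases hmov i hi with h | h | h
      · have := q2 i h
        omega
      · rw [h, huv']
        omega
      · rw [h, hvv']
        omega
    · intro i hi
      obtain ⟨h1, h2⟩ := hp3 i hi
      rw [Perm.mul_apply, swap_apply_of_ne_of_ne, q3 i hi]
      · rintro rfl
        exact h1 huv'
      · rintro rfl
        exact h2 hvv'
    · refine (card_le_card hsupp).trans ((card_union_le _ _).trans ?_)
      have : #({u, v} : Finset (Fin n)) ≤ 2 := card_le_two
      rw [List.length_cons]
      omega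
    · intro i
      by_cases hw : (i ≤ p ∧ p < i + G) ∨ (i ≤ p + s ∧ p + s < i + G)
      · refine (card_le_card (t := {u, v}) fun e he => ?_).trans card_le_two
        rw [mem_filter] at he
        have h1 := hsupp he.1
        rw [mem_union] at h1
        rcases h1 with h1 | h1
        · exfalso
          have := q2 e (mem_support.mp h1)
          omega
        · exact h1
      · refine (card_le_card fun e he => ?_).trans (q5 i)
        rw [mem_filter] at he ⊢
        refine ⟨?_, he.2⟩
        have h1 := hsupp he.1
        rw [mem_union, mem_insert, mem_singleton] at h1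
        rcases h1 with h1 | h1 | h1
        · exact h1
        · exfalso
          apply hw
          left
          rw [h1, huv'] at he
          exact he.2
        · exfalso
          apply hw
          right
          rw [h1, hvv'] at he
          exact he.2
    · rw [← mul_assoc, q6, mul_assoc, comm_swap hQu hQv, ← mul_assoc, hlist,
        fp_cut A B _ u v hndl, hnew, mul_assoc]
    · rw [hnew]
      exact q7.sublist hsub
    · intro e he
      rw [hnew] at he
      rw [Perm.mul_apply, q8 e (hsub.subset he), List.formPerm_apply_of_notMem]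
      intro he2
      have h1 := List.nodup_append.mp hndl
      have h2 := List.nodup_cons.mp h1.2.1
      rw [List.mem_append, List.mem_cons] at he
      have he3 : e ∈ B ++ v :: R n (p + s + 1) := by
        rw [List.mem_append, List.mem_singleton] at he2
        rcases he2 with he2 | he2
        · simp [he2]
        · simp [he2]
      rcases he with he | he | he
      · exact h1.2.2 e he e (List.mem_cons_of_mem _ he3) rfl
      · rw [he] at he3
        exact h2.1 he3
      · rw [List.mem_append, List.mem_singleton] at he2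
        have h3 := List.nodup_append.mp h2.2
        rcases he2 with he2 | he2
        · exact h3.2.2 e he2 e (List.mem_cons_of_mem _ he) rfl
        · rw [he2] at he
          exact (List.nodup_cons.mp h3.2.1).1 he
    · rw [hdB.cycleType_mul, ct_fp _ hBnd, hBlen, q9, ← Multiset.cons_coe,
        ← Multiset.singleton_add, Multiset.filter_add]
    · rw [hnew, List.sum_cons]
      have h1 : (P ++ R n t).length = (A ++ u :: (B ++ v :: R n (p + s + 1))).length := by
        rw [hlist]
      have h2 : (B ++ [v]).length = s := hBlen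
      simp only [List.length_append, List.length_cons, List.length_nil] at h1 h2 q10 ⊢
      omega
    · rw [List.sum_cons, List.length_cons, Nat.succ_mul]
      omega

end MODaux

open MODaux

theorem MOD : ST_MOD := by
  intro G C
  have h1 : Tendsto (fun n : ℕ => ((n : ℝ) ^ (1 / 5 : ℝ))) atTop atTop :=
    (tendsto_rpow_atTop (by norm_num)).comp tendsto_natCast_atTop_atTop
  filter_upwards [h1.eventually_ge_atTop ((G : ℝ) + 2 * C + 4), eventually_ge_atTop 1] with n hn hn1
  intro x hx F hF
  classical
  obtain ⟨m, hm⟩ : ∃ m : ℝ, m = (n : ℝ) ^ (1 / 5 : ℝ) := ⟨_, rfl⟩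
  rw [← hm] at hn hx hF ⊢
  have hG0 : (0 : ℝ) ≤ G := Nat.cast_nonneg _
  have hC0 : (0 : ℝ) ≤ C := Nat.cast_nonneg _
  have hm4 : 4 ≤ m := by linarith
  have hm5 : m ^ 5 = n := by
    rw [hm, ← Real.rpow_natCast, ← Real.rpow_mul (Nat.cast_nonneg _)]
    norm_num
  -- the cycle lengths
  obtain ⟨Λ, hΛ⟩ : ∃ Λ : Multiset ℕ, Λ = x.partition.parts := ⟨_, rfl⟩
  have hsum : Λ.sum = n := by
    rw [hΛ, x.partition.parts_sum, Fintype.card_fin]
  have hpos : ∀ s ∈ Λ, 1 ≤ s := by
    intro s hs
    rw [hΛ] at hs
    exact x.partition.parts_pos hs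
  have hcard : Multiset.card Λ = cyc x := by
    rw [hΛ, parts_partition, Multiset.card_add, Multiset.card_replicate, Fintype.card_fin,
      add_comm]
    rfl
  have hne : Λ ≠ 0 := by
    intro h
    rw [h, Multiset.sum_zero] at hsum
    omega
  obtain ⟨s₁, hs₁, hmax⟩ : ∃ s₁ ∈ Λ, ∀ s ∈ Λ, s ≤ s₁ := by
    obtain ⟨s₁, h2, h3⟩ := Finset.exists_max_image Λ.toFinset id (by
      rw [Multiset.toFinset_nonempty]
      exact hne)
    exact ⟨s₁, Multiset.mem_toFinset.mp h2, fun s hs => h3 s (Multiset.mem_toFinset.mpr hs)⟩
  obtain ⟨Λ', hΛ'⟩ := Multiset.exists_cons_of_mem hs₁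
  obtain ⟨L, hL⟩ : ∃ L : List ℕ, (L : Multiset ℕ) = Λ' := ⟨Λ'.toList, Λ'.coe_toList⟩
  have hLsum : s₁ + L.sum = n := by
    rw [← hsum, hΛ', Multiset.sum_cons, ← hL, Multiset.sum_coe]
  have hLlen : L.length + 1 = cyc x := by
    rw [← hcard, hΛ', Multiset.card_cons, ← hL, Multiset.coe_card]
  have hLpos : ∀ s ∈ L, 1 ≤ s := by
    intro s hs
    apply hpos
    rw [hΛ', ← hL]
    exact Multiset.mem_cons_of_mem hs
  have hbig : n ≤ cyc x * s₁ := by
    have h2 := Multiset.sum_le_card_nsmul Λ s₁ hmax
    rw [hsum, hcard, smul_eq_mul] at h2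
    exact h2
  -- sizes
  have hs1 : m ^ 4 ≤ s₁ := by
    have h2 : (n : ℝ) ≤ cyc x * s₁ := by exact_mod_cast hbig
    have h3 : (cyc x : ℝ) * s₁ ≤ m * s₁ := mul_le_mul_of_nonneg_right hx (Nat.cast_nonneg _)
    rw [← hm5] at h2
    have h4 : m * m ^ 4 ≤ m * s₁ := by
      calc m * m ^ 4 = m ^ 5 := by ring
        _ ≤ _ := h2.trans h3
    exact le_of_mul_le_mul_left h4 (by linarith)
  have hlen : (L.length : ℝ) + 1 ≤ m := by
    have : ((L.length + 1 : ℕ) : ℝ) ≤ m := by rw [hLlen]; exact hx
    push_cast at this
    exact this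
  have hreq : L.sum + L.length * (G + 2 * #F + 2) + 1 ≤ n := by
    have h2 : ((L.length * (G + 2 * #F + 2) + 1 : ℕ) : ℝ) ≤ s₁ := by
      push_cast
      have h3 : (0 : ℝ) ≤ L.length := Nat.cast_nonneg _
      have h4 : (0 : ℝ) ≤ #F := Nat.cast_nonneg _
      have h5 : (G : ℝ) + 2 * #F + 2 ≤ m * ((G : ℝ) + 2 * C + 2) := by
        nlinarith
      have h6 : (L.length : ℝ) * ((G : ℝ) + 2 * #F + 2) ≤ m * (m * ((G : ℝ) + 2 * C + 2)) :=
        mul_le_mul (by linarith) h5 (by positivity) (by linarith)
      have h7 : m * (m * ((G : ℝ) + 2 * C + 2)) + 1 ≤ m ^ 2 * m := by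
        nlinarith [sq_nonneg m]
      have h8 : m ^ 2 * m ≤ m ^ 4 := by
        nlinarith [sq_nonneg m, pow_pos (show 0 < m by linarith) 3]
      linarith
    have h3 : L.length * (G + 2 * #F + 2) + 1 ≤ s₁ := by exact_mod_cast h2
    omega
  obtain ⟨ζ, Q, t, P, q1, q2, q3, q4, q5, q6, q7, q8, q9, q10, q11⟩ := build (G := G) F L hLpos hreq
  refine ⟨ζ, q1, ?_, q3, ?_, q5⟩
  · rw [isConj_iff_cycleType_eq, q6]
    have hd : Perm.Disjoint (P ++ R n t).formPerm Q := by
      intro e
      by_cases he : e ∈ P ++ R n t
      · exact Or.inr (q8 e he)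
      · exact Or.inl (List.formPerm_apply_of_notMem he)
    have hl : (P ++ R n t).length = s₁ := by omega
    rw [hd.cycleType_mul, ct_fp _ q7, hl, q9, hL, ← filter_parts_partition_eq_cycleType, ← hΛ, hΛ',
      ← Multiset.singleton_add, Multiset.filter_add]
  · have h2 : (#ζ.support : ℝ) ≤ 2 * L.length := by exact_mod_cast q4
    linarith

end KP23

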