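import Pool.Agent.N23.KB.Stm

namespace KP23
open Finset Equiv Equiv.Perm

private lemma five_pow_add (a : ℕ) : ∀ b c d : ℕ, 5 ^ a + 5 ^ b = 5 ^ c + 5 ^ d →
    (a = c ∧ b = d) ∨ (a = d ∧ b = c) := by
  have hinj : ∀ x y : ℕ, 5 ^ x = 5 ^ y → x = y := fun x y h =>
    Nat.pow_right_injective (by norm_num : 2 ≤ 5) h
  have hpos : ∀ x : ℕ, 0 < 5 ^ x := fun x => Nat.pow_pos (by norm_num)
  induction a with
  | zero =>
    intro b c d h
    rcases b with _ | b <;> rcases c with _ | c <;> rcases d with _ | d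
    · left; exact ⟨rfl, rfl⟩
    · exfalso
      have := hpos d
      simp only [pow_zero, pow_succ] at h; omega
    · exfalso
      have := hpos c
      simp only [pow_zero, pow_succ] at h; omega
    · exfalso
      have := hpos c
      have := hpos d
      simp only [pow_zero, pow_succ] at h; omega
    · exfalso
      have := hpos b
      simp only [pow_zero, pow_succ] at h; omega
    · left
      refine ⟨rfl, ?_⟩
      apply hinj
      omega
    · right
      refine ⟨rfl, ?_⟩
      apply hinj
      omega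
    · exfalso
      simp only [pow_zero, pow_succ] at h; omega
  | succ a ih =>
    intro b c d h
    rcases b with _ | b
    · rcases c with _ | c <;> rcases d with _ | d
      · exfalso
        have := hpos a
        simp only [pow_zero, pow_succ] at h; omega
      · right
        exact ⟨hinj _ _ (by omega), rfl⟩
      · left
        exact ⟨hinj _ _ (by omega), rfl⟩
      · exfalso
        simp only [pow_zero, pow_succ] at h; omega
    · rcases c with _ | c <;> rcases d with _ | d
      · exfalso
        have := hpos a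
        have := hpos b
        simp only [pow_zero, pow_succ] at h; omega
      · exfalso
        simp only [pow_zero, pow_succ] at h; omega
      · exfalso
        simp only [pow_zero, pow_succ] at h; omega
      · have h2 : 5 ^ a + 5 ^ b = 5 ^ c + 5 ^ d := by
          simp only [pow_succ] at h; omega
        rcases ih b c d h2 with ⟨h3, h4⟩ | ⟨h3, h4⟩
        · left; exact ⟨by omega, by omega⟩
        · right; exact ⟨by omega, by omega⟩

theorem SID2 : ST_SID2 := by
  intro L
  set Z : ℕ := 5 ^ L with hZ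
  have hZ1 : 1 ≤ Z := Nat.one_le_pow _ _ (by norm_num)
  have hP1 : ∀ i : Fin L, 1 ≤ 5 ^ ((i : ℕ) + 1) := fun i => Nat.one_le_pow _ _ (by norm_num)
  have hP2 : ∀ i : Fin L, 5 ^ ((i : ℕ) + 1) ≤ Z := fun i =>
    Nat.pow_le_pow_right (by norm_num) (by have := i.2; omega)
  have hPinj : ∀ i j : Fin L, 5 ^ ((i : ℕ) + 1) = 5 ^ ((j : ℕ) + 1) → i = j := by
    intro i j h
    have h3 := Nat.pow_right_injective (by norm_num : 2 ≤ 5) h
    exact Fin.ext (by simpa using h3)
  set N : ℕ := 200 * Z + 100 with hN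
  set M : ℕ := N + 1 with hM
  -- the form of the elements
  have hform : ∀ a ∈ posSet (fun i : Fin L => M + 8 * 5 ^ ((i : ℕ) + 1)) (M + 200 * Z),
      (∃ i : Fin L, a = M + 8 * 5 ^ ((i : ℕ) + 1)) ∨
      (a = M + 200 * Z ∨ a = M + 200 * Z + 2 ∨ a = M + 200 * Z + 5) := by
    intro a ha
    unfold posSet at ha
    rw [mem_union, mem_image, mem_insert, mem_insert, mem_singleton] at ha
    rcases ha with ⟨i, -, hi⟩ | h
    · exact Or.inl ⟨i, hi.symm⟩
    · exact Or.inr h
  refine ⟨3 * N, M + 200 * Z, fun i => M + 8 * 5 ^ ((i : ℕ) + 1), by omega, ?_, ?_, ?_, ?_, ?_⟩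
  · intro i j hij
    apply hPinj
    simp only at hij
    omega
  · intro a ha
    rcases hform a ha with ⟨i, hi⟩ | h
    · have h1 := hP1 i
      have h2 := hP2 i
      constructor <;> omega
    · constructor <;> omega
  · intro i
    have h1 := hP1 i
    have h2 := hP2 i
    beta_reduce
    refine ⟨?_, ?_, ?_⟩ <;> omega
  · intro a ha hb
    rcases hform a ha with ⟨i, hi⟩ | h <;> rcases hform (a + 1) hb with ⟨j, hj⟩ | h'
    · omega
    · have h1 := hP2 i
      omega
    · have h1 := hP2 j
      omega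
    · omega
  · intro i j hij a ha b hb ε ε' hε hε' heq
    simp only at heq
    push_cast at heq
    have hPi := hP1 i
    have hPj := hP1 j
    have hPi' := hP2 i
    have hPj' := hP2 j
    have hne : 5 ^ ((i : ℕ) + 1) ≠ 5 ^ ((j : ℕ) + 1) := fun h => hij (hPinj i j h)
    set Pi : ℕ := 5 ^ ((i : ℕ) + 1) with hPidef
    set Pj : ℕ := 5 ^ ((j : ℕ) + 1) with hPjdef
    have e1 : ((5 : ℤ) ^ ((i : ℕ) + 1)) = (Pi : ℤ) := by rw [hPidef]; push_cast; rfl
    have e2 : ((5 : ℤ) ^ ((j : ℕ) + 1)) = (Pj : ℤ) := by rw [hPjdef]; push_cast; rfl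
    rw [e1, e2] at heq
    rcases hform a ha with ⟨i', hi'⟩ | h <;> rcases hform b hb with ⟨j', hj'⟩ | h'
    · set A : ℕ := 5 ^ ((i' : ℕ) + 1) with hA
      set B : ℕ := 5 ^ ((j' : ℕ) + 1) with hB
      have h1 : A + Pj = B + Pi := by omega
      have h2 : ε = 0 ∧ ε' = 1 := by omega
      rw [hA, hB, hPidef, hPjdef] at h1
      rcases five_pow_add _ _ _ _ h1 with ⟨h3, h4⟩ | ⟨h3, h4⟩
      · exfalso
        exact hij (Fin.ext (by omega))
      · have h5 : A = Pi := by rw [hA, hPidef, h3]
        have h6 : B = Pj := by rw [hB, hPjdef, h4]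
        refine ⟨?_, ?_, h2.1, h2.2⟩
        · rw [hi', h5]
        · rw [hj', h6]
    · exfalso
      have h1 := hP1 i'
      have h2 := hP2 i'
      set A : ℕ := 5 ^ ((i' : ℕ) + 1) with hA
      omega
    · exfalso
      have h1 := hP1 j'
      have h2 := hP2 j'
      set B : ℕ := 5 ^ ((j' : ℕ) + 1) with hB
      omega
    · exfalso
      omega

end KP23
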