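import Pool.Agent.N23.KP.All
import Pool.Agent.N23.KB.BMAIN3
import Pool.Agent.N23.KB.COMM3
import Pool.Agent.N23.KB.COVER
import Pool.Agent.N23.KB.CYC
import Pool.Agent.N23.KB.LOC3
import Pool.Agent.N23.KB.MERGE
import Pool.Agent.N23.KB.MOD
import Pool.Agent.N23.KB.SID2

/-! Project KB (helper23), MP_75608d_al: assembly. -/

namespace KP23
open Finset Equiv Equiv.Perm Filter Topology RC14

theorem BMAIN' : ST_BMAIN :=
  BMAIN ALLN' (LOC3 COMM3 SID2) (MERGE EXT) (COVER EXT) MOD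

theorem BFIN : ∃ ε : ℝ, 0 < ε ∧ ∀ᶠ n : ℕ in atTop, ∃ T : Finset (Alt n),
    (∀ x : Alt n, x ∈ T ↔ (cyc (x : Perm (Fin n)) : ℝ) ≤ (n : ℝ) ^ (1 / 5 : ℝ)) ∧
    (#Tᶜ : ℝ) ≤ (Fintype.card (Alt n) : ℝ) * (1 / 2) ^ ((n : ℝ) ^ (1 / 6 : ℝ)) ∧
    ∀ x ∈ T, ∀ y ∈ T, ∃ z : Alt n,
      IsConj (y : Perm (Fin n)) (z : Perm (Fin n)) ∧ Expanding ε ![x, z] := by
  classical
  obtain ⟨K, hK, hmain⟩ := BMAIN'
  refine ⟨1 / (4 * K ^ 2), by positivity, ?_⟩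
  filter_upwards [hmain, CYC] with n hn hcyc
  refine ⟨univ.filter fun x : Alt n => (cyc (x : Perm (Fin n)) : ℝ) ≤ (n : ℝ) ^ (1 / 5 : ℝ),
    fun x => by simp, ?_, ?_⟩
  · refine le_trans (le_of_eq ?_) hcyc
    congr 2
    ext x
    simp
  · intro x hx y hy
    rw [Finset.mem_filter] at hx hy
    obtain ⟨z, hz, hKZ⟩ := hn x y (Equiv.Perm.mem_alternatingGroup.mp x.2)
      (Equiv.Perm.mem_alternatingGroup.mp y.2) hx.2 hy.2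
    have hs : z ∈ alternatingGroup (Fin n) := Equiv.Perm.mem_alternatingGroup.mpr (hKZ.1 1)
    exact ⟨⟨z, hs⟩, hz, EXPD n x ⟨z, hs⟩ K hK hKZ⟩

end KP23
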