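import Pool.Agent.N23.KB.ALG

/-! Project KB (helper23): the deterministic theorem. -/

namespace KP23
open Finset Equiv Equiv.Perm Filter Topology

theorem KZ_conj {X : Type} [Fintype X] [DecidableEq X] {ι : Type} {g : ι → Perm X} {K : ℝ}
    (h : KZ g K) (k : Perm X) : KZ (fun i => k * g i * k⁻¹) K := by
  refine ⟨fun i => ?_, fun E _ _ ρ v η hη w hw => ?_⟩
  · rw [Perm.sign_mul, Perm.sign_mul, h.1 i, sign_inv]
    rcases Int.units_eq_one_or (sign k) with h | h <;> rw [h] <;> simp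
  · have h1 := h.2 E (ρ.comp (MulAut.conj k).toMonoidHom) v η (fun i => hη i) (k⁻¹ * w * k) (by
      rw [Perm.sign_mul, Perm.sign_mul, hw, sign_inv]
      rcases Int.units_eq_one_or (sign k) with h | h <;> rw [h] <;> simp)
    have h2 : (MulAut.conj k) (k⁻¹ * w * k) = w := by
      rw [MulAut.conj_apply]; group
    change ‖ρ ((MulAut.conj k) (k⁻¹ * w * k)) v - v‖ ≤ _ at h1
    rwa [h2] at h1

theorem finRotate_val {n : ℕ} (i : Fin n) (h : (i : ℕ) + 1 < n) :
    (finRotate n i : ℕ) = i + 1 := by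
  cases n with
  | zero => exact i.elim0
  | succ m =>
    have := finRotate_of_lt (k := (i : ℕ)) (n := m) (by omega)
    have hi : i = ⟨(i : ℕ), by omega⟩ := rfl
    rw [hi, this]

/-- counting the good blocks -/
theorem card_good {n W : ℕ} (hW : 0 < W) (Ex Ey : Finset (Fin n)) (Kb : Finset ℕ)
    (hKb : ∀ k, k ∈ Kb ↔ good W Ex Ey k) : n / W ≤ #Kb + #(Ex ∪ Ey) := by
  classical
  have h1 : (range (n / W)) ⊆ Kb ∪ (Ex ∪ Ey).image (fun e : Fin n => (e : ℕ) / W) := by
    intro k hk
    rw [Finset.mem_union]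
    by_cases hg : good W Ex Ey k
    · exact Or.inl ((hKb k).mpr hg)
    · right
      unfold good at hg
      push Not at hg
      obtain ⟨e, he, he1, he2⟩ := hg (Finset.mem_range.mp hk)
      rw [Finset.mem_image]
      refine ⟨e, he, ?_⟩
      apply Nat.div_eq_of_lt_le he1
      exact he2
  calc n / W = #(range (n / W)) := (card_range _).symm
    _ ≤ #(Kb ∪ (Ex ∪ Ey).image (fun e : Fin n => (e : ℕ) / W)) := card_le_card h1
    _ ≤ #Kb + #((Ex ∪ Ey).image (fun e : Fin n => (e : ℕ) / W)) := card_union_le _ _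
    _ ≤ #Kb + #(Ex ∪ Ey) := by gcongr; exact card_image_le

theorem card_compl_range {n W N M : ℕ} [NeZero W] (Ex Ey : Finset (Fin n)) (emb : Fin N → ℕ)
    (hinj : Function.Injective emb) (hgood : ∀ k, good W Ex Ey (emb k)) (Γ : Finset (Fin n))
    (hΓ : ∀ z, z ∈ Γ ↔ z ∈ Set.range (blockEmb Ex Ey emb hinj hgood))
    (hN : n / W ≤ N + M) : #Γᶜ ≤ (M + 1) * W := by
  classical
  have h1 : Γ = univ.map (blockEmb Ex Ey emb hinj hgood) := by
    ext z
    rw [hΓ, Finset.mem_map]
    simp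
  have h2 : #Γ = W * N := by
    rw [h1, card_map, card_univ, Fintype.card_prod, ZMod.card, Fintype.card_fin]
  have h3 : #Γᶜ = n - W * N := by rw [card_compl, h2, Fintype.card_fin]
  rw [h3]
  have h4 := Nat.div_add_mod n W
  have h5 := Nat.mod_lt n (Nat.pos_of_ne_zero (NeZero.ne W))
  have h6 : W * (n / W) ≤ W * (N + M) := Nat.mul_le_mul_left _ hN
  have h7 : W * (N + M) = W * N + W * M := by ring
  have h8 : (M + 1) * W = W * M + W := by ring
  omega

end KP23
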