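import Pool.Agent.N23.KB.BMAIN

/-! Project KB (helper23): the deterministic theorem, assembly. -/

namespace KP23
open Finset Equiv Equiv.Perm Filter Topology

/-- sizes: eventually `n ≥ W (20 m + A)` for `m = n^(1/5)` -/
theorem ev_size (A : ℕ) : ∀ᶠ n : ℕ in atTop,
    (A : ℝ) * ((n : ℝ) ^ (1 / 5 : ℝ) + 1) ≤ n ∧ 1 ≤ (n : ℝ) ^ (1 / 5 : ℝ) := by
  have h1 : ∀ᶠ n : ℕ in atTop, (2 * A : ℝ) ^ (5 / 4 : ℝ) ≤ n := by
    filter_upwards [eventually_ge_atTop ⌈(2 * A : ℝ) ^ (5 / 4 : ℝ)⌉₊] with n hn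
    exact (Nat.le_ceil _).trans (by exact_mod_cast hn)
  filter_upwards [h1, eventually_ge_atTop 1] with n hn hn1
  have hn1' : (1 : ℝ) ≤ n := by exact_mod_cast hn1
  have hm1 : 1 ≤ (n : ℝ) ^ (1 / 5 : ℝ) := Real.one_le_rpow hn1' (by norm_num)
  refine ⟨?_, hm1⟩
  have h2 : (2 * A : ℝ) ≤ (n : ℝ) ^ (4 / 5 : ℝ) := by
    have h0 : (0 : ℝ) ≤ 2 * A := by positivity
    calc (2 * A : ℝ) = ((2 * A : ℝ) ^ (5 / 4 : ℝ)) ^ (4 / 5 : ℝ) := by
          rw [← Real.rpow_mul h0]; norm_num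
      _ ≤ (n : ℝ) ^ (4 / 5 : ℝ) := Real.rpow_le_rpow (by positivity) hn (by norm_num)
  have h3 : (n : ℝ) = (n : ℝ) ^ (4 / 5 : ℝ) * (n : ℝ) ^ (1 / 5 : ℝ) := by
    rw [← Real.rpow_add (by linarith)]; norm_num
  have hA : (0 : ℝ) ≤ A := by positivity
  calc (A : ℝ) * ((n : ℝ) ^ (1 / 5 : ℝ) + 1) ≤ A * (2 * (n : ℝ) ^ (1 / 5 : ℝ)) := by
        gcongr; linarith
    _ = (2 * A) * (n : ℝ) ^ (1 / 5 : ℝ) := by ring
    _ ≤ (n : ℝ) ^ (4 / 5 : ℝ) * (n : ℝ) ^ (1 / 5 : ℝ) := by gcongr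
    _ = n := h3.symm

/-- the structural part, for `x₀ = c ζx`, `y₀ = c ζy` -/
theorem bstruct (hA : ST_ALLN) (hL : ST_LOC3) (hM : ST_MERGE) (hC : ST_COVER) :
    ∃ (W : ℕ) (K : ℝ) (A : ℕ), 30 ≤ W ∧ 0 < K ∧ ∀ (n : ℕ) (Ex Ey : Finset (Fin n)),
      A * (#(Ex ∪ Ey) + 1) ≤ n →
      (∀ e ∈ Ex, 20 * W ≤ (e : ℕ) ∧ (e : ℕ) + 20 * W < n) →
      (∀ e ∈ Ey, 20 * W ≤ (e : ℕ) ∧ (e : ℕ) + 20 * W < n) →
      (∀ e ∈ Ex, ∀ f ∈ Ey, (e : ℕ) + 20 * W < f ∨ (f : ℕ) + 20 * W < e) →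
      (∀ i : ℕ, #(Ex.filter fun e : Fin n => i ≤ (e : ℕ) ∧ (e : ℕ) < i + 20 * W) ≤ 2) →
      (∀ i : ℕ, #(Ey.filter fun e : Fin n => i ≤ (e : ℕ) ∧ (e : ℕ) < i + 20 * W) ≤ 2) →
      ∀ x y₀ : Perm (Fin n), sign x = 1 → sign y₀ = 1 →
      (∀ i : Fin n, i ∉ Ex → (i : ℕ) + 1 < n → (x i : ℕ) = i + 1) →
      (∀ i : Fin n, i ∉ Ey → (i : ℕ) + 1 < n → (y₀ i : ℕ) = i + 1) →
      x⁻¹ * y₀ * (x⁻¹ * y₀) = 1 → (∀ i, i ∉ Ex ∪ Ey → (x⁻¹ * y₀) i = i) →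
      ∃ h : Perm (Fin n), KZ ![x, h⁻¹ * y₀ * h] K := by
  classical
  obtain ⟨L₁, K₁, N₁, hK₁, hall⟩ := hA
  obtain ⟨W, r, _, K₂, hW, hr, hr2, hK₂, hloc⟩ := hL L₁ K₁ hK₁
  obtain ⟨Km, hKm, hmerge⟩ := hM W r hr (by omega)
  obtain ⟨Kc, hKc, hcover⟩ := hC (3 * W)
  refine ⟨W, Kc * (Km * (8 * K₂ + 8) + 1), 20 * W * (N₁ + 20), hW, by positivity, ?_⟩
  intro n Ex Ey hn hx0 hy0 hsep hwx hwy x y₀ hsx hsy sx sy hβ hβE
  set M := #(Ex ∪ Ey) with hMdef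
  have hWpos : 0 < W := by omega
  -- the good blocks
  obtain ⟨Kb, hKb⟩ : ∃ Kb : Finset ℕ, ∀ k, k ∈ Kb ↔ good W Ex Ey k := by
    refine ⟨(range (n / W)).filter (good W Ex Ey), fun k => ?_⟩
    rw [Finset.mem_filter, Finset.mem_range]
    exact ⟨fun h => h.2, fun h => ⟨h.1, h⟩⟩
  have hcount := card_good hWpos Ex Ey Kb hKb
  rw [← hMdef] at hcount
  obtain ⟨N, hN⟩ : ∃ N, #Kb = N := ⟨_, rfl⟩
  let emb : Fin N → ℕ := fun k => Kb.orderEmbOfFin hN k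
  have hinj : Function.Injective emb := (Kb.orderEmbOfFin hN).injective
  have hgood : ∀ k, good W Ex Ey (emb k) := fun k =>
    (hKb _).mp (Finset.orderEmbOfFin_mem Kb hN k)
  have hsurj : ∀ k, good W Ex Ey k → ∃ j, emb j = k := by
    intro k hk
    have h1 : k ∈ Set.range (Kb.orderEmbOfFin hN) := by
      rw [Finset.range_orderEmbOfFin]
      exact (hKb k).mpr hk
    exact h1
  have hNlow : N₁ + 20 ≤ N := by
    have h1 : (20 * W * (N₁ + 20) * (M + 1)) / W ≤ n / W := Nat.div_le_div_right hn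
    have h2 : (20 * W * (N₁ + 20) * (M + 1)) / W = 20 * (N₁ + 20) * (M + 1) := by
      rw [show 20 * W * (N₁ + 20) * (M + 1) = W * (20 * (N₁ + 20) * (M + 1)) by ring]
      exact Nat.mul_div_cancel_left _ hWpos
    have h3 : 20 * (N₁ + 20) * (M + 1) = 20 * (N₁ + 20) * M + 20 * (N₁ + 20) := by ring
    have h4 : M ≤ 20 * (N₁ + 20) * M := Nat.le_mul_of_pos_left _ (by omega)
    omega
  -- the subset `B'`
  obtain ⟨B', -, hB'⟩ := Finset.exists_subset_card_eq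
    (s := (univ : Finset (Fin N))) (n := (N + 2) / 3) (by rw [card_univ, Fintype.card_fin]; omega)
  have hB'1 : Fintype.card (Fin N) ≤ 3 * #B' := by rw [Fintype.card_fin, hB']; omega
  have hB'2 : 2 * #B' + 2 ≤ Fintype.card (Fin N) := by rw [Fintype.card_fin, hB']; omega
  obtain ⟨k₀, hk₀⟩ : B'.Nonempty := by
    rw [← Finset.card_pos, hB']; omega
  obtain ⟨g, hg⟩ := hall N (by omega)
  obtain ⟨H, H3, Hsupp, Hd1, Hd2, Hmix, Hmix', Hloc⟩ :=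
    hloc (Fin N) (by rw [Fintype.card_fin]; omega) g hg B'
  set e := blockEmb Ex Ey emb hinj hgood with he
  set h : Perm (Fin n) := embP e H with hh
  have sx' : ∀ i : Fin n, i ∉ Ex ∪ Ey → (i : ℕ) + 1 < n → (x i : ℕ) = i + 1 := by
    intro i hi
    exact sx i (fun hc => hi (Finset.mem_union_left _ hc))
  have hshift : ∀ (d : ZMod W) (k : Fin N), d.val + 1 < W → x (e (d, k)) = e (d + 1, k) :=
    fun d k hd => blockEmb_shift Ex Ey emb hinj hgood x sx' d k hd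
  have hz4 := z_pow Ex Ey emb hinj hgood hW x y₀ sx' hβ hβE H H3 Hsupp Hd1
  rw [← he, ← hh] at hz4
  -- values in ZMod W
  have v0 : ((r : ℕ) : ZMod W).val = r := ZMod.val_natCast_of_lt (by omega)
  have v2 : ((r + 2 : ℕ) : ZMod W).val = r + 2 := ZMod.val_natCast_of_lt (by omega)
  have v5 : ((r + 5 : ℕ) : ZMod W).val = r + 5 := ZMod.val_natCast_of_lt (by omega)
  have ne02 : ((r : ℕ) : ZMod W) ≠ ((r + 2 : ℕ) : ZMod W) := by
    intro hc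
    have := congrArg ZMod.val hc
    rw [v0, v2] at this; omega
  have ne25 : ((r + 2 : ℕ) : ZMod W) ≠ ((r + 5 : ℕ) : ZMod W) := by
    intro hc
    have := congrArg ZMod.val hc
    rw [v2, v5] at this; omega
  have ne05 : ((r : ℕ) : ZMod W) ≠ ((r + 5 : ℕ) : ZMod W) := by
    intro hc
    have := congrArg ZMod.val hc
    rw [v0, v5] at this; omega
  have f0 : ∀ k', H (((r : ℕ) : ZMod W) + 1, k') = (((r : ℕ) : ZMod W) + 1, k') := by
    apply Hd1 _ k₀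
    rw [(Hmix k₀ hk₀).1]
    intro hc
    exact ne02 (congrArg Prod.fst hc).symm
  have f2 : ∀ k', H (((r + 2 : ℕ) : ZMod W) + 1, k') = (((r + 2 : ℕ) : ZMod W) + 1, k') := by
    apply Hd1 _ k₀
    rw [(Hmix k₀ hk₀).2]
    intro hc
    exact ne25 (congrArg Prod.fst hc).symm
  have f5 : ∀ k', H (((r + 5 : ℕ) : ZMod W) + 1, k') = (((r + 5 : ℕ) : ZMod W) + 1, k') := by
    apply Hd1 _ k₀
    intro hc
    -- `H` is injective and maps `(r+2, k₀)` to `(r+5, k₀)`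
    have h5 := (Hmix k₀ hk₀).2
    have := H.injective (h5.trans hc.symm)
    exact ne25 (congrArg Prod.fst this)
  set a : Perm (Fin n) := x⁻¹ * h⁻¹ * x * h with ha
  have amix : ∀ k ∈ B', a (e ((r : ZMod W), k)) = e (((r + 2 : ℕ) : ZMod W), k) ∧
      a (e (((r + 2 : ℕ) : ZMod W), k)) = e (((r + 5 : ℕ) : ZMod W), k) := by
    intro k hk
    exact ⟨a_apply Ex Ey emb hinj hgood hW x sx' H Hsupp _ _ _ _ (Hmix k hk).1 (f2 k),
      a_apply Ex Ey emb hinj hgood hW x sx' H Hsupp _ _ _ _ (Hmix k hk).2 (f5 k)⟩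
  have amix' : ∀ k ∉ B', a (e ((r : ZMod W), k)) = e ((r : ZMod W), k) ∧
      a (e (((r + 2 : ℕ) : ZMod W), k)) = e (((r + 2 : ℕ) : ZMod W), k) ∧
      a (e (((r + 5 : ℕ) : ZMod W), k)) = e (((r + 5 : ℕ) : ZMod W), k) := by
    intro k hk
    exact ⟨a_apply Ex Ey emb hinj hgood hW x sx' H Hsupp _ _ _ _ (Hmix' k hk).1 (f0 k),
      a_apply Ex Ey emb hinj hgood hW x sx' H Hsupp _ _ _ _ (Hmix' k hk).2.1 (f2 k),
      a_apply Ex Ey emb hinj hgood hW x sx' H Hsupp _ _ _ _ (Hmix' k hk).2.2 (f5 k)⟩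
  -- coverage
  obtain ⟨Γ, hΓ⟩ : ∃ Γ : Finset (Fin n), ∀ z, z ∈ Γ ↔ z ∈ Set.range e :=
    ⟨univ.filter (· ∈ Set.range e), fun z => by simp⟩
  have hΓc := card_compl_range Ex Ey emb hinj hgood Γ hΓ (M := M) (by rw [hN] at hcount; exact hcount)
  have hn10 : 10 * W ≤ n := by
    refine le_trans ?_ hn
    calc 10 * W ≤ 20 * W * (N₁ + 20) := by nlinarith
      _ ≤ 20 * W * (N₁ + 20) * (M + 1) := Nat.le_mul_of_pos_right _ (by omega)
  have hΓn : 3 * #Γᶜ + 2 ≤ n := by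
    have h1 : 3 * #Γᶜ + 2 ≤ 5 * ((M + 1) * W) := by
      have : 1 ≤ (M + 1) * W := Nat.mul_pos (by omega) hWpos
      omega
    refine h1.trans (le_trans ?_ hn)
    have : 5 * ((M + 1) * W) = 5 * W * (M + 1) := by ring
    rw [this]
    apply Nat.mul_le_mul_right
    nlinarith
  have hcov : ∀ z : Fin n, z ∉ Γ → ∃ j ≤ 3 * W, (∃ w ∈ Γ, (x ^ j) w = z) ∨
      (∃ w ∈ Γ, ((h⁻¹ * y₀ * h) ^ j) w = z) := by
    intro z hz
    have hz' : z ∉ Set.range e := fun hc => hz ((hΓ z).mpr hc)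
    obtain ⟨j, hj, hcase⟩ := cover_pts Ex Ey emb hinj hgood hsurj hW rfl hn10 hx0 hy0 hsep hwx hwy
      x y₀ h sx sy (fun P hP => embP_apply_of_notMem e H P hP) (by
        intro P hP
        by_cases hr : P ∈ Set.range e
        · obtain ⟨⟨d, k⟩, rfl⟩ := hr
          rw [hh, embP_apply]
          congr 1
          apply Hsupp
          intro hd
          have hval : ((e (d, k) : Fin n) : ℕ) = emb k * W + d.val := rfl
          rw [hval, add_assoc, mul_comm, Nat.mul_add_mod] at hP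
          have hdlt := ZMod.val_lt d
          rw [Nat.mod_eq_of_lt (by omega)] at hP
          omega
        · exact embP_apply_of_notMem e H P hr) z hz'
    refine ⟨j, hj, ?_⟩
    rcases hcase with ⟨w, hw, hw'⟩ | ⟨w, hw, hw'⟩
    · exact Or.inl ⟨w, (hΓ w).mpr hw, hw'⟩
    · exact Or.inr ⟨w, (hΓ w).mpr hw, hw'⟩
  refine ⟨h, ?_, ?_⟩
  · intro i
    fin_cases i
    · exact hsx
    · change sign (h⁻¹ * y₀ * h) = 1
      rw [Perm.sign_mul, Perm.sign_mul, hsy, sign_inv]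
      rcases Int.units_eq_one_or (sign h) with h | h <;> rw [h] <;> simp
  · intro E _ _ ρ v η hη w hw
    have dx : ‖ρ x v - v‖ ≤ η := hη 0
    have dy : ‖ρ (h⁻¹ * y₀ * h) v - v‖ ≤ η := hη 1
    have hη0 : 0 ≤ η := (norm_nonneg _).trans dx
    have dz : ‖ρ (x⁻¹ * (h⁻¹ * y₀ * h)) v - v‖ ≤ 2 * η := by
      have h1 := disp_mul ρ v x⁻¹ (h⁻¹ * y₀ * h)
      rw [disp_inv] at h1
      linarith
    have da : ‖ρ a v - v‖ ≤ 8 * η := by
      have h1 := disp_pow ρ v (x⁻¹ * (h⁻¹ * y₀ * h)) 4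
      rw [hz4] at h1
      push_cast at h1
      linarith
    have dloc := Hloc (Fin n) e x hshift E ρ v (8 * η) (by linarith) da
    have dmerge := hmerge (Fin n) (Fin N) e x a B' hB'1 hB'2 hshift amix amix' E ρ v
      ((8 * K₂ + 8) * η) (by nlinarith) (by nlinarith) (by
        intro d w' hw'
        refine (dloc d w' hw').trans ?_
        nlinarith)
    have hK0 : 0 ≤ Km * (8 * K₂ + 8) * η := by positivity
    have hfin := hcover (Fin n) x (h⁻¹ * y₀ * h) Γ (by rw [Fintype.card_fin]; exact hΓn) hcov E ρ v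
      ((Km * (8 * K₂ + 8) + 1) * η) (by nlinarith) (by nlinarith) (by
        intro g' hg' hg''
        refine (dmerge g' hg' (fun z hz => hg'' z (fun hc => hz ((hΓ z).mp hc)))).trans ?_
        nlinarith) w hw
    exact hfin.trans (le_of_eq (by ring))

end KP23
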