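import Pool.Agent.N23.KB.Stm

/-! Project KB (helper23): the geometry of the blocks. -/

namespace KP23
open Finset Equiv Equiv.Perm Filter Topology

section
variable {n : ℕ} (W : ℕ) (Ex Ey : Finset (Fin n))

/-- block number `k` is complete and contains no exceptional point -/
def good (k : ℕ) : Prop :=
  k < n / W ∧ ∀ e ∈ Ex ∪ Ey, ¬ (k * W ≤ (e : ℕ) ∧ (e : ℕ) < (k + 1) * W)

variable {W Ex Ey} {G : ℕ}

theorem window_three {S : Finset (Fin n)} {G i : ℕ}
    (hw : #(S.filter fun e : Fin n => i ≤ (e : ℕ) ∧ (e : ℕ) < i + G) ≤ 2)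
    {a b c : Fin n} (ha : a ∈ S) (hb : b ∈ S) (hc : c ∈ S)
    (ha1 : i ≤ (a : ℕ)) (ha2 : (a : ℕ) < b) (hb2 : (b : ℕ) < c) (hc2 : (c : ℕ) < i + G) :
    False := by
  have hsub : ({a, b, c} : Finset (Fin n)) ⊆
      S.filter fun e : Fin n => i ≤ (e : ℕ) ∧ (e : ℕ) < i + G := by
    intro x hx
    simp only [Finset.mem_insert, Finset.mem_singleton] at hx
    rw [Finset.mem_filter]
    rcases hx with rfl | rfl | rfl
    · exact ⟨ha, ha1, by omega⟩
    · exact ⟨hb, by omega, by omega⟩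
    · exact ⟨hc, by omega, by omega⟩
  have h3 : #({a, b, c} : Finset (Fin n)) = 3 := by
    have n1 : a ≠ b := fun h => by subst h; omega
    have n2 : a ≠ c := fun h => by subst h; omega
    have n3 : b ≠ c := fun h => by subst h; omega
    exact Finset.card_eq_three.mpr ⟨a, b, c, n1, n2, n3, rfl⟩
  have := Finset.card_le_card hsub
  omega

theorem exists_near (hW : 30 ≤ W) (hG : G = 20 * W) (hn : 10 * W ≤ n)
    (hx0 : ∀ e ∈ Ex, G ≤ (e : ℕ) ∧ (e : ℕ) + G < n) (hy0 : ∀ e ∈ Ey, G ≤ (e : ℕ) ∧ (e : ℕ) + G < n)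
    (hsep : ∀ e ∈ Ex, ∀ f ∈ Ey, (e : ℕ) + G < f ∨ (f : ℕ) + G < e)
    (hwx : ∀ i : ℕ, #(Ex.filter fun e : Fin n => i ≤ (e : ℕ) ∧ (e : ℕ) < i + G) ≤ 2)
    (hwy : ∀ i : ℕ, #(Ey.filter fun e : Fin n => i ≤ (e : ℕ) ∧ (e : ℕ) < i + G) ≤ 2)
    (k : ℕ) (hkn : k * W < n) (hk : ¬ good W Ex Ey k) :
    ∃ k', good W Ex Ey k' ∧ k' < k ∧ k ≤ k' + 2 := by
  have hWpos : 0 < W := by omega
  have hkn' : k ≤ n / W := (Nat.le_div_iff_mul_le hWpos).mpr hkn.le
  have hbad : ∀ k', ¬ good W Ex Ey k' → k' < n / W →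
      ∃ e ∈ Ex ∪ Ey, k' * W ≤ (e : ℕ) ∧ (e : ℕ) < (k' + 1) * W := by
    intro k' h1 h2
    unfold good at h1
    push Not at h1
    exact h1 h2
  have h0 : ∀ e ∈ Ex ∪ Ey, G ≤ (e : ℕ) ∧ (e : ℕ) + G < n := by
    intro e he
    rcases Finset.mem_union.mp he with h | h
    · exact hx0 e h
    · exact hy0 e h
  have hk10 : 10 ≤ k := by
    by_cases hkk : k < n / W
    · obtain ⟨e, he, he1, he2⟩ := hbad k hk hkk
      have h1 := (h0 e he).1
      by_contra hlt
      have h3 : (k + 1) * W ≤ 10 * W := Nat.mul_le_mul_right _ (by omega)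
      omega
    · have h3 : 10 ≤ n / W := (Nat.le_div_iff_mul_le hWpos).mpr hn
      omega
  by_cases g1 : good W Ex Ey (k - 1)
  · exact ⟨k - 1, g1, by omega, by omega⟩
  by_cases g2 : good W Ex Ey (k - 2)
  · exact ⟨k - 2, g2, by omega, by omega⟩
  exfalso
  obtain ⟨e₁, he₁, h11, h12⟩ := hbad (k - 1) g1 (by omega)
  obtain ⟨e₂, he₂, h21, h22⟩ := hbad (k - 2) g2 (by omega)
  obtain ⟨l, rfl⟩ : ∃ l, k = l + 2 := ⟨k - 2, by omega⟩
  have e1 : l + 2 - 1 = l + 1 := by omega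
  have e2 : l + 2 - 2 = l := by omega
  rw [e1] at h11 h12
  rw [e2] at h21 h22
  have m1 : (l + 1) * W = l * W + W := by ring
  have m2 : (l + 1 + 1) * W = l * W + 2 * W := by ring
  have m3 : (l + 2 + 1) * W = l * W + 3 * W := by ring
  have m4 : (l + 2) * W = l * W + 2 * W := by ring
  by_cases hkk : l + 2 < n / W
  · obtain ⟨e₀, he₀, h01, h02⟩ := hbad (l + 2) hk hkk
    rw [m4] at h01
    rw [m3] at h02
    rw [m1] at h11 h22
    rw [m2] at h12
    rcases Finset.mem_union.mp he₀ with hx | hy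
    · have hx1 : e₁ ∈ Ex := by
        rcases Finset.mem_union.mp he₁ with h | h
        · exact h
        · have := hsep e₀ hx e₁ h; omega
      have hx2 : e₂ ∈ Ex := by
        rcases Finset.mem_union.mp he₂ with h | h
        · exact h
        · have := hsep e₀ hx e₂ h; omega
      exact window_three (hwx (l * W)) hx2 hx1 hx h21 (by omega) (by omega) (by omega)
    · have hy1 : e₁ ∈ Ey := by
        rcases Finset.mem_union.mp he₁ with h | h
        · have := hsep e₁ h e₀ hy; omega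
        · exact h
      have hy2 : e₂ ∈ Ey := by
        rcases Finset.mem_union.mp he₂ with h | h
        · have := hsep e₂ h e₀ hy; omega
        · exact h
      exact window_three (hwy (l * W)) hy2 hy1 hy h21 (by omega) (by omega) (by omega)
  · have hle : l + 2 = n / W := by omega
    have h5 : n < (l + 2) * W + W := by
      rw [hle]
      exact Nat.lt_div_mul_add hWpos
    have h6 := (h0 e₁ he₁).2
    rw [m4] at h5
    rw [m1] at h11
    omega

/-- moving along the standard cycle -/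
theorem iter_shift (t : Perm (Fin n)) (Q P : Fin n) (hQP : (Q : ℕ) ≤ P)
    (h : ∀ i : Fin n, (Q : ℕ) ≤ i → (i : ℕ) < P → (t i : ℕ) = i + 1) :
    (t ^ ((P : ℕ) - Q)) Q = P := by
  have key : ∀ j : ℕ, (Q : ℕ) + j ≤ P → ((t ^ j) Q : ℕ) = Q + j := by
    intro j
    induction j with
    | zero => intro _; rfl
    | succ j ih =>
      intro hj
      have h1 := ih (by omega)
      rw [pow_succ', Perm.mul_apply, h _ (by omega) (by omega), h1]
      ring
  apply Fin.ext
  rw [key _ (by omega)]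
  omega

end

end KP23

namespace KP23
open Finset Equiv Equiv.Perm Filter Topology

theorem good_le {n W : ℕ} {Ex Ey : Finset (Fin n)} {k : ℕ} (h : good W Ex Ey k) :
    k * W + W ≤ n := by
  have h1 : (k + 1) * W ≤ n := by
    have h2 : k + 1 ≤ n / W := h.1
    exact (Nat.mul_le_mul_right _ h2).trans (Nat.div_mul_le_self n W)
  have h3 : (k + 1) * W = k * W + W := by ring
  omega

/-- the embedding of the blocks -/
def blockEmb {n W N : ℕ} [NeZero W] (Ex Ey : Finset (Fin n)) (emb : Fin N → ℕ)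
    (hinj : Function.Injective emb) (hgood : ∀ k, good W Ex Ey (emb k)) :
    (ZMod W × Fin N) ↪ Fin n where
  toFun z := ⟨emb z.2 * W + z.1.val, by
    have h1 := good_le (hgood z.2)
    have h2 := ZMod.val_lt z.1
    omega⟩
  inj' := by
    rintro ⟨d, k⟩ ⟨d', k'⟩ h
    simp only [Fin.mk.injEq] at h
    have h2 := ZMod.val_lt d
    have h2' := ZMod.val_lt d'
    have hW : 0 < W := by omega
    have e1 : emb k = emb k' := by
      have a1 : (emb k * W + d.val) / W = emb k := by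
        rw [mul_comm, Nat.mul_add_div hW, Nat.div_eq_of_lt h2, add_zero]
      have a2 : (emb k' * W + d'.val) / W = emb k' := by
        rw [mul_comm, Nat.mul_add_div hW, Nat.div_eq_of_lt h2', add_zero]
      rw [← a1, h, a2]
    have e2 : k = k' := hinj e1
    subst e2
    have e3 : d.val = d'.val := by omega
    have e4 : d = d' := ZMod.val_injective W e3
    rw [e4]

section
variable {n W N : ℕ} [NeZero W] (Ex Ey : Finset (Fin n)) (emb : Fin N → ℕ)
    (hinj : Function.Injective emb) (hgood : ∀ k, good W Ex Ey (emb k))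

theorem blockEmb_val (z : ZMod W × Fin N) :
    (blockEmb Ex Ey emb hinj hgood z : ℕ) = emb z.2 * W + z.1.val := rfl

theorem blockEmb_notMem (z : ZMod W × Fin N) : blockEmb Ex Ey emb hinj hgood z ∉ Ex ∪ Ey := by
  intro h
  apply (hgood z.2).2 _ h
  rw [blockEmb_val]
  have h2 := ZMod.val_lt z.1
  have h3 : (emb z.2 + 1) * W = emb z.2 * W + W := by ring
  omega

theorem val_add_one_of {W : ℕ} [NeZero W] (d : ZMod W) (h : d.val + 1 < W) :
    (d + 1).val = d.val + 1 := by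
  have h1 : (1 : ZMod W).val = 1 := by
    have : Fact (1 < W) := ⟨by omega⟩
    exact ZMod.val_one W
  rw [ZMod.val_add, h1, Nat.mod_eq_of_lt h]

theorem blockEmb_shift (x : Perm (Fin n))
    (sx : ∀ i : Fin n, i ∉ Ex ∪ Ey → (i : ℕ) + 1 < n → (x i : ℕ) = i + 1)
    (d : ZMod W) (k : Fin N) (h : d.val + 1 < W) :
    x (blockEmb Ex Ey emb hinj hgood (d, k)) = blockEmb Ex Ey emb hinj hgood (d + 1, k) := by
  apply Fin.ext
  rw [sx _ (blockEmb_notMem Ex Ey emb hinj hgood _), blockEmb_val, blockEmb_val]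
  · simp only [val_add_one_of d h]
    ring
  · rw [blockEmb_val]
    have h1 := good_le (hgood k)
    simp only
    omega

/-- a point in a good block is in the range -/
theorem mem_range_blockEmb (hall : ∀ k, good W Ex Ey k → ∃ j, emb j = k) (P : Fin n)
    (h : good W Ex Ey ((P : ℕ) / W)) : P ∈ Set.range (blockEmb Ex Ey emb hinj hgood) := by
  obtain ⟨j, hj⟩ := hall _ h
  refine ⟨(((P : ℕ) % W : ℕ), j), ?_⟩
  apply Fin.ext
  rw [blockEmb_val]
  simp only
  rw [hj, ZMod.val_natCast, Nat.mod_mod]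
  exact Nat.div_add_mod' _ _

theorem div_of_blockEmb (z : ZMod W × Fin N) :
    ((blockEmb Ex Ey emb hinj hgood z : Fin n) : ℕ) / W = emb z.2 := by
  rw [blockEmb_val]
  have h2 := ZMod.val_lt z.1
  have hW : 0 < W := by omega
  rw [mul_comm, Nat.mul_add_div hW, Nat.div_eq_of_lt h2, add_zero]

end

/-- coverage of the points outside the good blocks -/
theorem cover_pts {n W N G : ℕ} [NeZero W] (Ex Ey : Finset (Fin n)) (emb : Fin N → ℕ)
    (hinj : Function.Injective emb) (hgood : ∀ k, good W Ex Ey (emb k))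
    (hall : ∀ k, good W Ex Ey k → ∃ j, emb j = k)
    (hW : 30 ≤ W) (hG : G = 20 * W) (hn : 10 * W ≤ n)
    (hx0 : ∀ e ∈ Ex, G ≤ (e : ℕ) ∧ (e : ℕ) + G < n) (hy0 : ∀ e ∈ Ey, G ≤ (e : ℕ) ∧ (e : ℕ) + G < n)
    (hsep : ∀ e ∈ Ex, ∀ f ∈ Ey, (e : ℕ) + G < f ∨ (f : ℕ) + G < e)
    (hwx : ∀ i : ℕ, #(Ex.filter fun e : Fin n => i ≤ (e : ℕ) ∧ (e : ℕ) < i + G) ≤ 2)
    (hwy : ∀ i : ℕ, #(Ey.filter fun e : Fin n => i ≤ (e : ℕ) ∧ (e : ℕ) < i + G) ≤ 2)
    (x y₀ h : Perm (Fin n))
    (sx : ∀ i : Fin n, i ∉ Ex → (i : ℕ) + 1 < n → (x i : ℕ) = i + 1)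
    (sy : ∀ i : Fin n, i ∉ Ey → (i : ℕ) + 1 < n → (y₀ i : ℕ) = i + 1)
    (hh1 : ∀ P, P ∉ Set.range (blockEmb Ex Ey emb hinj hgood) → h P = P)
    (hh2 : ∀ (P : Fin n), ((P : ℕ) + 1) % W = 0 → h P = P)
    (P : Fin n) (hP : P ∉ Set.range (blockEmb Ex Ey emb hinj hgood)) :
    ∃ j ≤ 3 * W, (∃ w ∈ Set.range (blockEmb Ex Ey emb hinj hgood), (x ^ j) w = P) ∨
      (∃ w ∈ Set.range (blockEmb Ex Ey emb hinj hgood), ((h⁻¹ * y₀ * h) ^ j) w = P) := by
  classical
  have hWpos : 0 < W := by omega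
  have hPbad : ¬ good W Ex Ey ((P : ℕ) / W) := fun hg =>
    hP (mem_range_blockEmb Ex Ey emb hinj hgood hall P hg)
  obtain ⟨k', hk', hlt, hle⟩ := exists_near hW hG hn hx0 hy0 hsep hwx hwy ((P : ℕ) / W)
    (lt_of_le_of_lt (Nat.div_mul_le_self _ _) P.2) hPbad
  -- the candidates
  let S : Finset (Fin n) := univ.filter fun Q =>
    Q ∈ Set.range (blockEmb Ex Ey emb hinj hgood) ∧ (Q : ℕ) < P
  have hPdiv := Nat.div_add_mod' (P : ℕ) W
  have hPmod := Nat.mod_lt (P : ℕ) hWpos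
  have hk'n := good_le hk'
  let Q₀ : Fin n := ⟨k' * W + (W - 1), by omega⟩
  have hQ₀ : Q₀ ∈ S := by
    rw [Finset.mem_filter]
    refine ⟨mem_univ _, mem_range_blockEmb Ex Ey emb hinj hgood hall _ ?_, ?_⟩
    · have : ((Q₀ : Fin n) : ℕ) / W = k' := by
        change (k' * W + (W - 1)) / W = k'
        rw [mul_comm, Nat.mul_add_div hWpos, Nat.div_eq_of_lt (by omega), add_zero]
      rw [this]; exact hk'
    · change k' * W + (W - 1) < P
      have : (k' + 1) * W ≤ (P : ℕ) / W * W := Nat.mul_le_mul_right _ hlt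
      have h3 : (k' + 1) * W = k' * W + W := by ring
      omega
  obtain ⟨Q, hQS, hQmax⟩ := S.exists_max_image (fun Q => (Q : ℕ)) ⟨Q₀, hQ₀⟩
  have hQ1 := (Finset.mem_filter.mp hQS).2.1
  have hQ2 := (Finset.mem_filter.mp hQS).2.2
  have hQ3 : k' * W + (W - 1) ≤ Q := hQmax Q₀ hQ₀
  have hdist : (P : ℕ) - Q ≤ 3 * W := by
    have : (P : ℕ) / W * W ≤ (k' + 2) * W := Nat.mul_le_mul_right _ hle
    have h3 : (k' + 2) * W = k' * W + 2 * W := by ring
    omega
  have hout : ∀ i : Fin n, (Q : ℕ) < i → (i : ℕ) ≤ P →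
      i ∉ Set.range (blockEmb Ex Ey emb hinj hgood) := by
    intro i hi1 hi2 hi3
    rcases Nat.lt_or_ge i P with h4 | h4
    · have := hQmax i (by
        rw [Finset.mem_filter]
        exact ⟨mem_univ _, hi3, h4⟩)
      omega
    · have : i = P := Fin.ext (by omega)
      exact hP (this ▸ hi3)
  refine ⟨(P : ℕ) - Q, hdist, ?_⟩
  by_cases hE : ∃ e ∈ Ex, (Q : ℕ) ≤ e ∧ (e : ℕ) < P
  · -- then no exceptional point of `y₀`
    right
    refine ⟨Q, hQ1, ?_⟩
    obtain ⟨e, he, he1, he2⟩ := hE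
    -- `Q` is the last point of its block
    have hQlast : ((Q : ℕ) + 1) % W = 0 := by
      obtain ⟨z, hz⟩ := hQ1
      by_contra hne
      have hQ1n : (Q : ℕ) + 1 < n := by have := P.2; omega
      apply hout ⟨(Q : ℕ) + 1, hQ1n⟩ (by simp) (by change (Q : ℕ) + 1 ≤ P; omega)
      apply mem_range_blockEmb Ex Ey emb hinj hgood hall
      have hdz : (Q : ℕ) / W = emb z.2 := by rw [← hz]; exact div_of_blockEmb _ _ _ _ _ z
      have : ((⟨(Q : ℕ) + 1, hQ1n⟩ : Fin n) : ℕ) / W = emb z.2 := by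
        change ((Q : ℕ) + 1) / W = emb z.2
        rw [Nat.succ_div, if_neg, add_zero, hdz]
        intro hd
        exact hne (Nat.mod_eq_zero_of_dvd hd)
      rw [this]
      exact hgood _
    apply iter_shift _ _ _ hQ2.le
    intro i hi1 hi2
    have hin : (i : ℕ) + 1 < n := by have := P.2; omega
    have hhi : h i = i := by
      rcases Nat.eq_or_lt_of_le hi1 with h4 | h4
      · have : i = Q := Fin.ext h4.symm
        rw [this]; exact hh2 Q hQlast
      · exact hh1 i (hout i h4 (by omega))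
    have hyi : (y₀ i : ℕ) = i + 1 := by
      apply sy i _ hin
      intro hi
      rcases hsep e he i hi with h5 | h5 <;> omega
    have hi1' : h (y₀ i) = y₀ i := by
      apply hh1
      apply hout
      · rw [hyi]; omega
      · rw [hyi]; omega
    change ((h⁻¹ (y₀ (h i)) : Fin n) : ℕ) = i + 1
    rw [hhi]
    have : h⁻¹ (y₀ i) = y₀ i := by
      rw [Perm.inv_eq_iff_eq]
      exact hi1'.symm
    rw [this, hyi]
  · left
    refine ⟨Q, hQ1, ?_⟩
    apply iter_shift _ _ _ hQ2.le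
    intro i hi1 hi2
    apply sx i
    · intro hi
      exact hE ⟨i, hi, hi1, hi2⟩
    · have := P.2; omega

end KP23
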