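import Pool.Agent.N23.KP.Stm

/-!
Project KB (helper23), MP_75608d_al: expanding pairs in prescribed conjugacy classes of
alternating groups.  Statements.
-/

namespace KP23
open Finset Equiv Equiv.Perm Filter Topology

/-- the number of cycles of `x`, fixed points included -/
def cyc {n : ℕ} (x : Perm (Fin n)) : ℕ := (n - #x.support) + x.cycleType.card

/-- COMM3: an even permutation of at least five points is a product of three commutators of elements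
of order dividing 3 -/
def ST_COMM3 : Prop :=
  ∀ (X : Type) [Fintype X] [DecidableEq X] (g : Perm X), 5 ≤ Fintype.card X → sign g = 1 →
    ∃ x y : Fin 3 → Perm X, (∀ k, x k ^ 3 = 1 ∧ y k ^ 3 = 1) ∧
      g = cm (x 0) (y 0) * cm (x 1) (y 1) * cm (x 2) (y 2)

/-- the position numbers of `pos` together with `r, r + 2, r + 5` -/
def posSet {L : ℕ} (pos : Fin L → ℕ) (r : ℕ) : Finset ℕ := (univ.image pos) ∪ {r, r + 2, r + 5}

/-- SID2: positions in the middle third of a window of length `W`, with only the obvious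
coincidences after a shift by `pos i - pos j + 1` -/
def ST_SID2 : Prop :=
  ∀ L : ℕ, ∃ (W r : ℕ) (pos : Fin L → ℕ), 30 ≤ W ∧ Function.Injective pos ∧
    (∀ a ∈ posSet pos r, W < 3 * a ∧ 3 * a + 3 < 2 * W) ∧
    (∀ i, pos i ≠ r ∧ pos i ≠ r + 2 ∧ pos i ≠ r + 5) ∧
    (∀ a ∈ posSet pos r, a + 1 ∉ posSet pos r) ∧
    ∀ i j : Fin L, i ≠ j → ∀ a ∈ posSet pos r, ∀ b ∈ posSet pos r, ∀ ε ε' : ℕ, ε ≤ 1 → ε' ≤ 1 →
      (a : ℤ) - ε = b - ε' + (pos i - pos j + 1) → a = pos i ∧ b = pos j ∧ ε = 0 ∧ ε' = 1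

/-- LOC3: one element of order 3 and the shift inside the window give all block groups -/
def ST_LOC3 : Prop :=
  ∀ (L₁ : ℕ) (K₁ : ℝ), 0 < K₁ → ∃ (W r : ℕ) (_ : NeZero W) (K₂ : ℝ), 30 ≤ W ∧ 0 < r ∧
    3 * (r + 5) < 2 * W ∧ 0 < K₂ ∧
    ∀ (B : Type) [Fintype B] [DecidableEq B], 5 ≤ Fintype.card B →
    ∀ g : Fin L₁ → Perm B, KZ g K₁ → ∀ B' : Finset B,
    ∃ H : Perm (ZMod W × B), H ^ 3 = 1 ∧
      (∀ (d : ZMod W) (k : B), ¬ (W < 3 * d.val ∧ 3 * d.val + 3 < 2 * W) → H (d, k) = (d, k)) ∧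
      (∀ (d : ZMod W) (k : B), H (d, k) ≠ (d, k) → ∀ k' : B, H (d + 1, k') = (d + 1, k')) ∧
      (∀ (d : ZMod W) (k : B), H (d, k) ≠ (d, k) → ∀ k' : B, H (d - 1, k') = (d - 1, k')) ∧
      (∀ k ∈ B', H ((r : ZMod W), k) = (((r + 2 : ℕ) : ZMod W), k) ∧
        H (((r + 2 : ℕ) : ZMod W), k) = (((r + 5 : ℕ) : ZMod W), k)) ∧
      (∀ k ∉ B', H ((r : ZMod W), k) = ((r : ZMod W), k) ∧
        H (((r + 2 : ℕ) : ZMod W), k) = (((r + 2 : ℕ) : ZMod W), k) ∧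
        H (((r + 5 : ℕ) : ZMod W), k) = (((r + 5 : ℕ) : ZMod W), k)) ∧
      ∀ (X : Type) [Fintype X] [DecidableEq X] (e : (ZMod W × B) ↪ X) (x : Perm X),
      (∀ (d : ZMod W) (k : B), d.val + 1 < W → x (e (d, k)) = e (d + 1, k)) →
      ∀ (E : Type) [NormedAddCommGroup E] [InnerProductSpace ℝ E]
        (ρ : Perm X →* (E ≃ₗᵢ[ℝ] E)) (v : E) (η : ℝ),
      ‖ρ x v - v‖ ≤ η → ‖ρ (x⁻¹ * (embP e H)⁻¹ * x * embP e H) v - v‖ ≤ η →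
      ∀ (d : ZMod W) (w : Perm B), sign w = 1 → ‖ρ (embP e (rowAt d w)) v - v‖ ≤ K₂ * η

/-- MERGE: from the block groups to the alternating group of the union of the blocks -/
def ST_MERGE : Prop :=
  ∀ (W : ℕ) [NeZero W] (r : ℕ), 0 < r → r + 6 < W → ∃ K : ℝ, 0 < K ∧
    ∀ (X B : Type) [Fintype X] [DecidableEq X] [Fintype B] [DecidableEq B]
      (e : (ZMod W × B) ↪ X) (x a : Perm X) (B' : Finset B),
    Fintype.card B ≤ 3 * #B' → 2 * #B' + 2 ≤ Fintype.card B →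
    (∀ (d : ZMod W) (k : B), d.val + 1 < W → x (e (d, k)) = e (d + 1, k)) →
    (∀ k ∈ B', a (e ((r : ZMod W), k)) = e (((r + 2 : ℕ) : ZMod W), k) ∧
      a (e (((r + 2 : ℕ) : ZMod W), k)) = e (((r + 5 : ℕ) : ZMod W), k)) →
    (∀ k ∉ B', a (e ((r : ZMod W), k)) = e ((r : ZMod W), k) ∧
      a (e (((r + 2 : ℕ) : ZMod W), k)) = e (((r + 2 : ℕ) : ZMod W), k) ∧
      a (e (((r + 5 : ℕ) : ZMod W), k)) = e (((r + 5 : ℕ) : ZMod W), k)) →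
    ∀ (E : Type) [NormedAddCommGroup E] [InnerProductSpace ℝ E]
      (ρ : Perm X →* (E ≃ₗᵢ[ℝ] E)) (v : E) (η : ℝ),
    ‖ρ x v - v‖ ≤ η → ‖ρ a v - v‖ ≤ η →
    (∀ (d : ZMod W) (w : Perm B), sign w = 1 → ‖ρ (embP e (rowAt d w)) v - v‖ ≤ η) →
    ∀ g : Perm X, sign g = 1 → (∀ z, z ∉ Set.range e → g z = z) → ‖ρ g v - v‖ ≤ K * η

/-- COVER: from `Alt(Γ)` to `Alt(X)` when every point is reached from `Γ` in a bounded number of
steps -/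
def ST_COVER : Prop :=
  ∀ J : ℕ, ∃ K : ℝ, 0 < K ∧
    ∀ (X : Type) [Fintype X] [DecidableEq X] (x y : Perm X) (Γ : Finset X),
    3 * #Γᶜ + 2 ≤ Fintype.card X →
    (∀ z : X, z ∉ Γ → ∃ j ≤ J, (∃ w ∈ Γ, (x ^ j) w = z) ∨ (∃ w ∈ Γ, (y ^ j) w = z)) →
    ∀ (E : Type) [NormedAddCommGroup E] [InnerProductSpace ℝ E]
      (ρ : Perm X →* (E ≃ₗᵢ[ℝ] E)) (v : E) (η : ℝ),
    ‖ρ x v - v‖ ≤ η → ‖ρ y v - v‖ ≤ η → NIon ρ v Γ η →
    ∀ g : Perm X, sign g = 1 → ‖ρ g v - v‖ ≤ K * η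

/-- MOD: a permutation with few cycles is conjugate to the standard `n`-cycle times an involution
of small sparse support, which can be chosen outside a given small set -/
def ST_MOD : Prop :=
  ∀ (G C : ℕ), ∀ᶠ n : ℕ in atTop, ∀ x : Perm (Fin n), (cyc x : ℝ) ≤ (n : ℝ) ^ (1 / 5 : ℝ) →
    ∀ F : Finset (Fin n), (#F : ℝ) ≤ C * (n : ℝ) ^ (1 / 5 : ℝ) →
    ∃ ζ : Perm (Fin n), ζ * ζ = 1 ∧ IsConj (finRotate n * ζ) x ∧
      (∀ i ∈ F, ζ i = i) ∧ (#ζ.support : ℝ) ≤ 2 * (n : ℝ) ^ (1 / 5 : ℝ) ∧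
      ∀ i : ℕ, #(ζ.support.filter fun e : Fin n => i ≤ (e : ℕ) ∧ (e : ℕ) < i + G) ≤ 2

/-- CYC: almost all even permutations have few cycles -/
def ST_CYC : Prop :=
  ∀ᶠ n : ℕ in atTop,
    (#(univ.filter fun x : alternatingGroup (Fin n) =>
      (n : ℝ) ^ (1 / 5 : ℝ) < cyc (x : Perm (Fin n))) : ℝ) ≤
      (Fintype.card (alternatingGroup (Fin n)) : ℝ) * (1 / 2) ^ ((n : ℝ) ^ (1 / 6 : ℝ))

/-- BMAIN: the deterministic theorem -/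
def ST_BMAIN : Prop :=
  ∃ K : ℝ, 0 < K ∧ ∀ᶠ n : ℕ in atTop, ∀ x y : Perm (Fin n), sign x = 1 → sign y = 1 →
    (cyc x : ℝ) ≤ (n : ℝ) ^ (1 / 5 : ℝ) → (cyc y : ℝ) ≤ (n : ℝ) ^ (1 / 5 : ℝ) →
    ∃ z : Perm (Fin n), IsConj y z ∧ KZ ![x, z] K

end KP23
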